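/-
MP_911691_ag, explicit groupoid in characteristic 2: points, arrows, universal rings.
See team-store MP_911691_model_helper50.md.
-/
import Mathlib

set_option linter.all false

namespace Pool.Agent.AFP

/-! ### characteristic two -/

/-- Rings in which `2 = 0` (the zero ring is allowed). -/
class C2 (A : Type*) [CommRing A] : Prop where
  two : (2 : A) = 0

theorem c2_cases {A : Type*} [CommRing A] (h : (2 : A) = 0) {x y : A} (H : CharP A 2 → x = y) :
    x = y := by
  rcases subsingleton_or_nontrivial A with hs | hs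
  · exact Subsingleton.elim _ _
  · exact H (CharTwo.of_one_ne_zero_of_two_eq_zero one_ne_zero h)

instance (priority := 100) C2.ofAlgebra (A : Type*) [CommRing A] [Algebra (ZMod 2) A] : C2 A where
  two := by
    rw [← map_ofNat (algebraMap (ZMod 2) A) 2, show (OfNat.ofNat 2 : ZMod 2) = 0 from by decide,
      map_zero]

theorem C2.ofHom {A A' : Type*} [CommRing A] [CommRing A'] [C2 A] (f : A →+* A') : C2 A' where
  two := by
    rw [← map_ofNat f 2]
    exact (congrArg f (C2.two (A := A))).trans (map_zero f)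


/-! ### points of `T` -/

/-- An `A`-valued point of the affine threefold `T`. -/
@[ext] structure Pt (A : Type*) [CommRing A] where
  s : A
  x : A
  z : A
  c : A
  r : A
  ri : A
  hr : r * ri = 1
  h1 : z * c = r * x ^ 4
  h2 : z ^ 2 + c ^ 2 = r * (s ^ 4 + s * x ^ 3)

namespace Pt

variable {A A' A'' : Type*} [CommRing A] [CommRing A'] [CommRing A'']

/-- Base change of points. -/
@[simps] def map (f : A →+* A') (p : Pt A) : Pt A' where
  s := f p.s
  x := f p.x
  z := f p.z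
  c := f p.c
  r := f p.r
  ri := f p.ri
  hr := by rw [← map_mul, p.hr, map_one]
  h1 := by rw [← map_mul, p.h1]; simp
  h2 := by rw [← map_pow, ← map_pow, ← map_add, p.h2]; simp

theorem map_map (f : A →+* A') (g : A' →+* A'') (p : Pt A) :
    (p.map f).map g = p.map (g.comp f) := by ext <;> rfl

theorem map_id (p : Pt A) : p.map (RingHom.id A) = p := by ext <;> rfl

/-- the conjugate point (`z` and `c` exchanged) -/
@[simps] def conj (p : Pt A) : Pt A where
  s := p.s
  x := p.x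
  z := p.c
  c := p.z
  r := p.r
  ri := p.ri
  hr := p.hr
  h1 := by rw [mul_comm]; exact p.h1
  h2 := by rw [add_comm]; exact p.h2

/-- two points with the same `s, x, z, c, r` are equal -/
theorem ext' {p q : Pt A} (hs : p.s = q.s) (hx : p.x = q.x) (hz : p.z = q.z) (hc : p.c = q.c)
    (hr : p.r = q.r) : p = q := by
  ext
  · exact hs
  · exact hx
  · exact hz
  · exact hc
  · exact hr
  · calc p.ri = p.ri * (q.r * q.ri) := by rw [q.hr, mul_one]
      _ = (p.r * p.ri) * q.ri := by rw [hr]; ring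
      _ = q.ri := by rw [p.hr, one_mul]

end Pt

section forms

variable {A : Type*} [CommRing A] (a b : Pt A)

/-- `m = sX + xS` -/
def m : A := a.s * b.x + a.x * b.s
/-- `w = zZ` -/
def w : A := a.z * b.z
/-- `w' = cC` -/
def w' : A := a.c * b.c
/-- `u = zZ + cC` -/
def u : A := a.z * b.z + a.c * b.c
/-- `n = zC + cZ` -/
def n : A := a.z * b.c + a.c * b.z
/-- `q = rR` -/
def q : A := a.r * b.r
/-- `P = sS^2 + xX^2` -/
def P : A := a.s * b.s ^ 2 + a.x * b.x ^ 2
/-- `E = m^3 + x^3X^3` -/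
def E : A := (m a b) ^ 3 + a.x ^ 3 * b.x ^ 3
/-- `v = q x^2 X^2` -/
def v : A := q a b * a.x ^ 2 * b.x ^ 2

end forms

/-- An arrow of the affine part `W` of the groupoid, from `a` to `b`.
`N' = N + t x X`, `M' = M + t X^2`, `L' = L + t x^2`. -/
@[ext] structure Arr {A : Type*} [CommRing A] (a b : Pt A) where
  t : A
  M : A
  N : A
  L : A
  r1 : t * u a b = m a b
  r2 : t * (q a b * E a b) = n a b
  r3 : u a b * M = b.s * P a b + t * b.x ^ 2 * w a b
  r5 : u a b * L = a.s * P b a + t * a.x ^ 2 * w a b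
  r4 : u a b * N = a.s * P a b + t * a.x * b.x * w a b
  r6 : v a b * N = a.c * b.z + t ^ 2 * q a b * (a.s ^ 2 * b.x ^ 2 * w' a b + a.x ^ 2 * b.s ^ 2 * w a b)
  f2 : a.x * M = b.x * (N + t * a.x * b.x) + t * a.s * b.s ^ 2
  f2s : b.x * L = a.x * N + t * a.s ^ 2 * b.s
  f1 : b.s * N + a.s * M = t ^ 2 * b.x * w a b
  f1s : a.s * (N + t * a.x * b.x) + b.s * L = t ^ 2 * a.x * w a b
  fQ : N * (N + t * a.x * b.x) + M * L = t ^ 3 * a.s * b.s * w a b
  f5 : q a b * (N * (N + t * a.x * b.x) + t ^ 3 * a.s * b.s * u a b + q a b * t ^ 8 * u a b ^ 4) = 1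
  f3 : N * a.z + a.r * L * (L + t * a.x ^ 2) * b.z =
    t ^ 2 * q a b * a.c * (a.s ^ 2 * b.x ^ 2 * (N + t * a.x * b.x) + a.x ^ 2 * b.s ^ 2 * N)
  f4 : (N + t * a.x * b.x) * a.c + a.r * L * (L + t * a.x ^ 2) * b.c =
    t ^ 2 * q a b * a.z * (a.s ^ 2 * b.x ^ 2 * N + a.x ^ 2 * b.s ^ 2 * (N + t * a.x * b.x))
  f3s : (N + t * a.x * b.x) * b.z + b.r * M * (M + t * b.x ^ 2) * a.z =
    t ^ 2 * q a b * b.c * (a.s ^ 2 * b.x ^ 2 * (N + t * a.x * b.x) + a.x ^ 2 * b.s ^ 2 * N)
  f4s : N * b.c + b.r * M * (M + t * b.x ^ 2) * a.c =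
    t ^ 2 * q a b * b.z * (a.s ^ 2 * b.x ^ 2 * N + a.x ^ 2 * b.s ^ 2 * (N + t * a.x * b.x))

end Pool.Agent.AFP
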