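/-
MP_911691_ag: the universal rings `B` (of `T`) and `AW` (of the affine part `W`).
-/
import Pool.Agent.AFP.Basic

set_option linter.all false

open MvPolynomial TensorProduct

namespace Pool.Agent.AFP

/-- The canonical map `ZMod 2 → A` for a ring with `2 = 0`. -/
noncomputable def zmodHom (A : Type*) [CommRing A] [C2 A] : ZMod 2 →+* A :=
  ZMod.castHom (m := ringChar A)
    ((ringChar.spec A 2).1 (by exact_mod_cast C2.two (A := A))) A

section B

/-- relations of `B` -/
noncomputable def relB : Fin 3 → MvPolynomial (Fin 6) (ZMod 2) :=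
  ![X 4 * X 5 - 1, X 2 * X 3 - X 4 * X 1 ^ 4, X 2 ^ 2 + X 3 ^ 2 - X 4 * (X 0 ^ 4 + X 0 * X 1 ^ 3)]

/-- The coordinate ring of `T`. -/
def B : Type := MvPolynomial (Fin 6) (ZMod 2) ⧸ Ideal.span (Set.range relB)

noncomputable instance : CommRing B := inferInstanceAs (CommRing (_ ⧸ _))
noncomputable instance : Algebra (ZMod 2) B := inferInstanceAs (Algebra (ZMod 2) (_ ⧸ _))

namespace B

/-- quotient map -/
noncomputable def mk : MvPolynomial (Fin 6) (ZMod 2) →+* B := Ideal.Quotient.mk _

theorem mk_surjective : Function.Surjective mk := Ideal.Quotient.mk_surjective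

theorem mk_rel (i : Fin 3) : mk (relB i) = 0 :=
  Ideal.Quotient.eq_zero_iff_mem.2 (Ideal.subset_span ⟨i, rfl⟩)

/-- the universal point -/
noncomputable def univ : Pt B where
  s := mk (X 0)
  x := mk (X 1)
  z := mk (X 2)
  c := mk (X 3)
  r := mk (X 4)
  ri := mk (X 5)
  hr := by
    have h := mk_rel 0
    simp only [relB, Matrix.cons_val_zero, map_sub, map_mul, map_one] at h
    exact sub_eq_zero.1 h
  h1 := by
    have h := mk_rel 1
    simp only [relB, Matrix.cons_val_one, Matrix.cons_val_zero, map_sub, map_mul, map_pow] at h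
    exact sub_eq_zero.1 h
  h2 := by
    have h := mk_rel 2
    simp only [relB, Matrix.cons_val, map_sub, map_add, map_mul, map_pow] at h
    exact sub_eq_zero.1 h

variable {A : Type*} [CommRing A]

/-- ring homomorphism attached to a point -/
noncomputable def lift [C2 A] (p : Pt A) : B →+* A :=
  Ideal.Quotient.lift _ (eval₂Hom (zmodHom A) ![p.s, p.x, p.z, p.c, p.r, p.ri]) (by
    intro y hy
    have : Ideal.span (Set.range relB) ≤
        RingHom.ker (eval₂Hom (zmodHom A) ![p.s, p.x, p.z, p.c, p.r, p.ri]) := by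
      rw [Ideal.span_le]
      rintro _ ⟨i, rfl⟩
      rw [SetLike.mem_coe, RingHom.mem_ker]
      fin_cases i
      · simp [relB, p.hr]
      · simp [relB, p.h1]
      · simp [relB, p.h2]
    exact this hy)

@[simp] theorem univ_map_lift [C2 A] (p : Pt A) : univ.map (lift p) = p := by
  ext <;> exact (eval₂Hom_X' _ _ _)

theorem hom_ext {f g : B →+* A} (h : univ.map f = univ.map g) : f = g := by
  have h' : f.comp mk = g.comp mk := by
    apply MvPolynomial.ringHom_ext
    · intro a
      have : ∀ a : ZMod 2, a = 0 ∨ a = 1 := by decide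
      rcases this a with rfl | rfl <;> simp
    · intro i
      fin_cases i
      · exact congrArg Pt.s h
      · exact congrArg Pt.x h
      · exact congrArg Pt.z h
      · exact congrArg Pt.c h
      · exact congrArg Pt.r h
      · exact congrArg Pt.ri h
  ext y
  obtain ⟨y, rfl⟩ := mk_surjective y
  exact congrArg (fun k : _ →+* A => k y) h'

end B
end B

section maps

variable {A A' : Type*} [CommRing A] [CommRing A'] (f : A →+* A') (a b : Pt A)

@[simp] theorem map_m : f (m a b) = m (a.map f) (b.map f) := by simp [m]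
@[simp] theorem map_w : f (w a b) = w (a.map f) (b.map f) := by simp [w]
@[simp] theorem map_w' : f (w' a b) = w' (a.map f) (b.map f) := by simp [w']
@[simp] theorem map_u : f (u a b) = u (a.map f) (b.map f) := by simp [u]
@[simp] theorem map_n : f (n a b) = n (a.map f) (b.map f) := by simp [n]
@[simp] theorem map_q : f (q a b) = q (a.map f) (b.map f) := by simp [q]
@[simp] theorem map_P : f (P a b) = P (a.map f) (b.map f) := by simp [P]
@[simp] theorem map_E : f (E a b) = E (a.map f) (b.map f) := by simp [E]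
@[simp] theorem map_v : f (v a b) = v (a.map f) (b.map f) := by simp [v]

end maps

/-- The sixteen relations of `Arr`, as elements (difference of the two sides). -/
def rel {A : Type*} [CommRing A] (a b : Pt A) (t M N L : A) : Fin 16 → A := ![
  t * u a b - m a b,
  t * (q a b * E a b) - n a b,
  u a b * M - (b.s * P a b + t * b.x ^ 2 * w a b),
  u a b * L - (a.s * P b a + t * a.x ^ 2 * w a b),
  u a b * N - (a.s * P a b + t * a.x * b.x * w a b),
  v a b * N - (a.c * b.z + t ^ 2 * q a b * (a.s ^ 2 * b.x ^ 2 * w' a b + a.x ^ 2 * b.s ^ 2 * w a b)),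
  a.x * M - (b.x * (N + t * a.x * b.x) + t * a.s * b.s ^ 2),
  b.x * L - (a.x * N + t * a.s ^ 2 * b.s),
  b.s * N + a.s * M - t ^ 2 * b.x * w a b,
  a.s * (N + t * a.x * b.x) + b.s * L - t ^ 2 * a.x * w a b,
  N * (N + t * a.x * b.x) + M * L - t ^ 3 * a.s * b.s * w a b,
  q a b * (N * (N + t * a.x * b.x) + t ^ 3 * a.s * b.s * u a b + q a b * t ^ 8 * u a b ^ 4) - 1,
  N * a.z + a.r * L * (L + t * a.x ^ 2) * b.z -
    t ^ 2 * q a b * a.c * (a.s ^ 2 * b.x ^ 2 * (N + t * a.x * b.x) + a.x ^ 2 * b.s ^ 2 * N),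
  (N + t * a.x * b.x) * a.c + a.r * L * (L + t * a.x ^ 2) * b.c -
    t ^ 2 * q a b * a.z * (a.s ^ 2 * b.x ^ 2 * N + a.x ^ 2 * b.s ^ 2 * (N + t * a.x * b.x)),
  (N + t * a.x * b.x) * b.z + b.r * M * (M + t * b.x ^ 2) * a.z -
    t ^ 2 * q a b * b.c * (a.s ^ 2 * b.x ^ 2 * (N + t * a.x * b.x) + a.x ^ 2 * b.s ^ 2 * N),
  N * b.c + b.r * M * (M + t * b.x ^ 2) * a.c -
    t ^ 2 * q a b * b.z * (a.s ^ 2 * b.x ^ 2 * N + a.x ^ 2 * b.s ^ 2 * (N + t * a.x * b.x))]

namespace Arr

variable {A A' : Type*} [CommRing A] [CommRing A'] {a b : Pt A}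

/-- arrows from vanishing of the relations -/
@[simps] def ofRel (t M N L : A) (h : ∀ i, rel a b t M N L i = 0) : Arr a b where
  t := t
  M := M
  N := N
  L := L
  r1 := sub_eq_zero.1 (h 0)
  r2 := sub_eq_zero.1 (h 1)
  r3 := sub_eq_zero.1 (h 2)
  r5 := sub_eq_zero.1 (h 3)
  r4 := sub_eq_zero.1 (h 4)
  r6 := sub_eq_zero.1 (h 5)
  f2 := sub_eq_zero.1 (h 6)
  f2s := sub_eq_zero.1 (h 7)
  f1 := sub_eq_zero.1 (h 8)
  f1s := sub_eq_zero.1 (h 9)
  fQ := sub_eq_zero.1 (h 10)
  f5 := sub_eq_zero.1 (h 11)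
  f3 := sub_eq_zero.1 (h 12)
  f4 := sub_eq_zero.1 (h 13)
  f3s := sub_eq_zero.1 (h 14)
  f4s := sub_eq_zero.1 (h 15)

theorem rel_eq_zero (f : Arr a b) (i : Fin 16) : rel a b f.t f.M f.N f.L i = 0 := by
  fin_cases i
  · exact sub_eq_zero.2 f.r1
  · exact sub_eq_zero.2 f.r2
  · exact sub_eq_zero.2 f.r3
  · exact sub_eq_zero.2 f.r5
  · exact sub_eq_zero.2 f.r4
  · exact sub_eq_zero.2 f.r6
  · exact sub_eq_zero.2 f.f2
  · exact sub_eq_zero.2 f.f2s
  · exact sub_eq_zero.2 f.f1
  · exact sub_eq_zero.2 f.f1s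
  · exact sub_eq_zero.2 f.fQ
  · exact sub_eq_zero.2 f.f5
  · exact sub_eq_zero.2 f.f3
  · exact sub_eq_zero.2 f.f4
  · exact sub_eq_zero.2 f.f3s
  · exact sub_eq_zero.2 f.f4s

end Arr

theorem map_rel {A A' : Type*} [CommRing A] [CommRing A'] (f : A →+* A') (a b : Pt A)
    (t M N L : A) (i : Fin 16) :
    f (rel a b t M N L i) = rel (a.map f) (b.map f) (f t) (f M) (f N) (f L) i := by
  fin_cases i <;> simp [rel]

/-- Base change of arrows -/
@[simps!] def Arr.map {A A' : Type*} [CommRing A] [CommRing A'] {a b : Pt A} (f : A →+* A')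
    (g : Arr a b) : Arr (a.map f) (b.map f) :=
  Arr.ofRel (f g.t) (f g.M) (f g.N) (f g.L) (fun i => by
    rw [← map_rel, g.rel_eq_zero, map_zero])

/-! ### the ring of `W` -/

/-- The coordinate ring of `T × T`. -/
abbrev B2 : Type := B ⊗[ZMod 2] B

namespace B2

/-- first projection -/
noncomputable def i1 : B →+* B2 := (Algebra.TensorProduct.includeLeft : B →ₐ[ZMod 2] B2).toRingHom
/-- second projection -/
noncomputable def i2 : B →+* B2 := (Algebra.TensorProduct.includeRight : B →ₐ[ZMod 2] B2).toRingHom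
/-- first universal point -/
noncomputable def a : Pt B2 := B.univ.map i1
/-- second universal point -/
noncomputable def b : Pt B2 := B.univ.map i2

variable {A : Type*} [CommRing A]

theorem zmod_hom_ext (f g : ZMod 2 →+* A) : f = g := by
  apply RingHom.ext
  intro a
  have : ∀ a : ZMod 2, a = 0 ∨ a = 1 := by decide
  rcases this a with rfl | rfl <;> simp

/-- ring homomorphisms out of `B ⊗ B` -/
noncomputable def lift [C2 A] (p p' : Pt A) : B2 →+* A :=
  letI : Algebra (ZMod 2) A := (zmodHom A).toAlgebra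
  let F1 : B →ₐ[ZMod 2] A :=
    { toRingHom := B.lift p
      commutes' := fun r => RingHom.congr_fun
        (zmod_hom_ext ((B.lift p).comp (algebraMap (ZMod 2) B)) (zmodHom A)) r }
  let F2 : B →ₐ[ZMod 2] A :=
    { toRingHom := B.lift p'
      commutes' := fun r => RingHom.congr_fun
        (zmod_hom_ext ((B.lift p').comp (algebraMap (ZMod 2) B)) (zmodHom A)) r }
  (Algebra.TensorProduct.lift F1 F2 (fun _ _ => Commute.all _ _)).toRingHom

theorem lift_comp_i1 [C2 A] (p p' : Pt A) : (lift p p').comp i1 = B.lift p := by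
  apply RingHom.ext
  intro y
  let _ : Algebra (ZMod 2) A := (zmodHom A).toAlgebra
  change Algebra.TensorProduct.lift _ _ (fun _ _ => Commute.all _ _) (y ⊗ₜ[ZMod 2] (1 : B)) = _
  rw [Algebra.TensorProduct.lift_tmul, map_one, mul_one]
  rfl

theorem lift_comp_i2 [C2 A] (p p' : Pt A) : (lift p p').comp i2 = B.lift p' := by
  apply RingHom.ext
  intro y
  let _ : Algebra (ZMod 2) A := (zmodHom A).toAlgebra
  change Algebra.TensorProduct.lift _ _ (fun _ _ => Commute.all _ _) ((1 : B) ⊗ₜ[ZMod 2] y) = _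
  rw [Algebra.TensorProduct.lift_tmul, map_one, one_mul]
  rfl

@[simp] theorem a_map_lift [C2 A] (p p' : Pt A) : a.map (lift p p') = p := by
  rw [a, Pt.map_map, lift_comp_i1, B.univ_map_lift]

@[simp] theorem b_map_lift [C2 A] (p p' : Pt A) : b.map (lift p p') = p' := by
  rw [b, Pt.map_map, lift_comp_i2, B.univ_map_lift]

theorem hom_ext {f g : B2 →+* A} (h1 : a.map f = a.map g) (h2 : b.map f = b.map g) : f = g := by
  have e1 : f.comp i1 = g.comp i1 := B.hom_ext (by rw [← Pt.map_map, ← Pt.map_map]; exact h1)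
  have e2 : f.comp i2 = g.comp i2 := B.hom_ext (by rw [← Pt.map_map, ← Pt.map_map]; exact h2)
  apply RingHom.ext
  intro y
  induction y using TensorProduct.induction_on with
  | zero => simp
  | tmul y z =>
    have : y ⊗ₜ[ZMod 2] z = i1 y * i2 z := by simp [i1, i2]
    rw [this, map_mul, map_mul]
    exact congrArg₂ (· * ·) (congrArg (fun k : _ →+* A => k y) e1)
      (congrArg (fun k : _ →+* A => k z) e2)
  | add y z hy hz => rw [map_add, map_add, hy, hz]

end B2

/-- The coordinate ring of `W`. -/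
def AW : Type := MvPolynomial (Fin 4) B2 ⧸
  Ideal.span (Set.range (rel (B2.a.map C) (B2.b.map C) (X 0) (X 1) (X 2) (X 3)))

/-- The ring `AW`. -/
@[instance_reducible] noncomputable def instCommRingAW : CommRing AW :=
  inferInstanceAs (CommRing (_ ⧸ _))

attribute [local instance] instCommRingAW

/-- The algebra `AW` over the prime field. -/
@[instance_reducible] noncomputable def instAlgebraZModAW : Algebra (ZMod 2) AW :=
  inferInstanceAs (Algebra (ZMod 2) (_ ⧸ _))

/-- The algebra `AW` over `B2`. -/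
@[instance_reducible] noncomputable def instAlgebraB2AW : Algebra B2 AW :=
  inferInstanceAs (Algebra B2 (_ ⧸ _))

attribute [local instance] instAlgebraZModAW instAlgebraB2AW

namespace AW

/-- quotient map -/
noncomputable def mk : MvPolynomial (Fin 4) B2 →+* AW := Ideal.Quotient.mk _

theorem mk_surjective : Function.Surjective mk := Ideal.Quotient.mk_surjective

theorem mk_rel (i : Fin 16) :
    mk (rel (B2.a.map C) (B2.b.map C) (X 0) (X 1) (X 2) (X 3) i) = 0 :=
  Ideal.Quotient.eq_zero_iff_mem.2 (Ideal.subset_span ⟨i, rfl⟩)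

/-- structure map `B ⊗ B → AW` -/
noncomputable def str : B2 →+* AW := mk.comp C

theorem algebraMap_eq : algebraMap B2 AW = str := rfl

/-- source map -/
noncomputable def src : B →+* AW := str.comp B2.i1
/-- target map -/
noncomputable def tgt : B →+* AW := str.comp B2.i2

/-- universal source -/
noncomputable def a : Pt AW := B2.a.map str
/-- universal target -/
noncomputable def b : Pt AW := B2.b.map str

theorem a_eq : a = B.univ.map src := by rw [a, B2.a, Pt.map_map]; rfl
theorem b_eq : b = B.univ.map tgt := by rw [b, B2.b, Pt.map_map]; rfl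

/-- universal arrow -/
noncomputable def arr : Arr a b :=
  Arr.ofRel (mk (X 0)) (mk (X 1)) (mk (X 2)) (mk (X 3)) (fun i => by
    have h := mk_rel i
    rw [map_rel, Pt.map_map, Pt.map_map] at h
    exact h)

variable {A : Type*} [CommRing A]

/-- ring homomorphism attached to an arrow -/
noncomputable def lift [C2 A] {p p' : Pt A} (f : Arr p p') : AW →+* A :=
  Ideal.Quotient.lift _ (eval₂Hom (B2.lift p p') ![f.t, f.M, f.N, f.L]) (by
    intro y hy
    have : Ideal.span (Set.range (rel (B2.a.map C) (B2.b.map C) (X 0) (X 1) (X 2) (X 3))) ≤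
        RingHom.ker (eval₂Hom (B2.lift p p') ![f.t, f.M, f.N, f.L]) := by
      rw [Ideal.span_le]
      rintro _ ⟨i, rfl⟩
      rw [SetLike.mem_coe, RingHom.mem_ker, map_rel, Pt.map_map, Pt.map_map]
      have e1 : (eval₂Hom (B2.lift p p') ![f.t, f.M, f.N, f.L]).comp C = B2.lift p p' := by
        apply RingHom.ext
        intro y
        exact eval₂Hom_C _ _ _
      rw [e1, B2.a_map_lift, B2.b_map_lift]
      simpa using f.rel_eq_zero i
    exact this hy)

theorem lift_comp_str [C2 A] {p p' : Pt A} (f : Arr p p') : (lift f).comp str = B2.lift p p' := by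
  apply RingHom.ext
  intro y
  exact eval₂Hom_C _ _ _

@[simp] theorem a_map_lift [C2 A] {p p' : Pt A} (f : Arr p p') : a.map (lift f) = p := by
  rw [a, Pt.map_map, lift_comp_str, B2.a_map_lift]

@[simp] theorem b_map_lift [C2 A] {p p' : Pt A} (f : Arr p p') : b.map (lift f) = p' := by
  rw [b, Pt.map_map, lift_comp_str, B2.b_map_lift]

@[simp] theorem lift_t [C2 A] {p p' : Pt A} (f : Arr p p') : lift f arr.t = f.t :=
  eval₂Hom_X' _ _ _
@[simp] theorem lift_M [C2 A] {p p' : Pt A} (f : Arr p p') : lift f arr.M = f.M :=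
  eval₂Hom_X' _ _ _
@[simp] theorem lift_N [C2 A] {p p' : Pt A} (f : Arr p p') : lift f arr.N = f.N :=
  eval₂Hom_X' _ _ _
@[simp] theorem lift_L [C2 A] {p p' : Pt A} (f : Arr p p') : lift f arr.L = f.L :=
  eval₂Hom_X' _ _ _

theorem hom_ext {f g : AW →+* A} (h1 : a.map f = a.map g) (h2 : b.map f = b.map g)
    (ht : f arr.t = g arr.t) (hM : f arr.M = g arr.M) (hN : f arr.N = g arr.N)
    (hL : f arr.L = g arr.L) : f = g := by
  have e : f.comp str = g.comp str := by
    apply B2.hom_ext
    · rw [← Pt.map_map, ← Pt.map_map]; exact h1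
    · rw [← Pt.map_map, ← Pt.map_map]; exact h2
  have h' : f.comp mk = g.comp mk := by
    apply MvPolynomial.ringHom_ext
    · intro y
      exact congrArg (fun k : _ →+* A => k y) e
    · intro i
      fin_cases i
      · exact ht
      · exact hM
      · exact hN
      · exact hL
  ext y
  obtain ⟨y, rfl⟩ := mk_surjective y
  exact congrArg (fun k : _ →+* A => k y) h'

end AW

end Pool.Agent.AFP
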