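/-
MP_911691_ag: pre-arrows and the identities on the open part (certificates found by computer).
-/
import Pool.Agent.AFP.Univ

attribute [local instance] Pool.Agent.AFP.instCommRingAW Pool.Agent.AFP.instAlgebraZModAW
  Pool.Agent.AFP.instAlgebraB2AW

set_option linter.all false

namespace Pool.Agent.AFP


/-- The relations that determine an arrow over the open part. -/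
@[ext] structure PreArr {A : Type*} [CommRing A] (a b : Pt A) where
  t : A
  M : A
  N : A
  L : A
  r1 : t * u a b = m a b
  r2 : t * (q a b * E a b) = n a b
  r3 : u a b * M = b.s * P a b + t * b.x ^ 2 * w a b
  r5 : u a b * L = a.s * P b a + t * a.x ^ 2 * w a b
  r4 : u a b * N = a.s * P a b + t * a.x * b.x * w a b
  r6 : v a b * N = a.c * b.z + t ^ 2 * q a b * (a.s ^ 2 * b.x ^ 2 * w' a b + a.x ^ 2 * b.s ^ 2 * w a b)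
  f2 : a.x * M = b.x * (N + t * a.x * b.x) + t * a.s * b.s ^ 2
  f2s : b.x * L = a.x * N + t * a.s ^ 2 * b.s

namespace PreArr

variable {A : Type*} [CommRing A] [C2 A] {a b : Pt A} (g : PreArr a b)
include g

theorem x_f1 :
    a.x * (b.s * g.N + a.s * g.M) = a.x * (g.t ^ 2 * b.x * w a b) := by
  refine c2_cases C2.two (fun hch => ?_)
  linear_combination (norm := skip) (a.s)*g.f2 + (g.N)*g.r1 + (g.t)*g.r4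
  clear * - hch
  try simp only [m, w, w', u, n, q, P, E, v]
  grind

theorem u_f1 :
    u a b * (b.s * g.N + a.s * g.M) = u a b * (g.t ^ 2 * b.x * w a b) := by
  refine c2_cases C2.two (fun hch => ?_)
  linear_combination (norm := skip) (b.s)*g.r4 + (a.s)*g.r3 + (a.z*b.x*b.z*g.t)*g.r1
  clear * - hch
  try simp only [m, w, w', u, n, q, P, E, v]
  grind

theorem x_f1s :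
    b.x * (a.s * (g.N + g.t * a.x * b.x) + b.s * g.L) = b.x * (g.t ^ 2 * a.x * w a b) := by
  refine c2_cases C2.two (fun hch => ?_)
  linear_combination (norm := skip) (b.s)*g.f2s + (g.N)*g.r1 + (g.t)*g.r4
  clear * - hch
  try simp only [m, w, w', u, n, q, P, E, v]
  grind

theorem u_f1s :
    u a b * (a.s * (g.N + g.t * a.x * b.x) + b.s * g.L) = u a b * (g.t ^ 2 * a.x * w a b) := by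
  refine c2_cases C2.two (fun hch => ?_)
  linear_combination (norm := skip) (a.s)*g.r4 + (b.s)*g.r5 + (a.s*a.x*b.x + a.x*a.z*b.z*g.t)*g.r1
  clear * - hch
  try simp only [m, w, w', u, n, q, P, E, v]
  grind

theorem u_fQ :
    u a b ^ 2 * (g.N * (g.N + g.t * a.x * b.x) + g.M * g.L) = u a b ^ 2 * (g.t ^ 3 * a.s * b.s * w a b) := by
  refine c2_cases C2.two (fun hch => ?_)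
  linear_combination (norm := skip) (a.s^2*b.s^2 + a.s*a.x*b.x^2 + a.x*a.c*b.x*b.c*g.t + a.z*b.z*g.N + a.c*b.c*g.N)*g.r4 +
    (a.s^2*a.x*b.s^2*b.x + a.s^2*a.z*b.s*b.x*b.z*g.t + a.s*a.x^2*b.x^3 +
    a.s*a.x*a.z*b.s^2*b.z*g.t + a.s*a.z^2*b.s*b.z^2*g.t^2 + a.s*a.z*a.c*b.s*b.z*b.c*g.t^2 +
    a.x^2*a.z*b.x^2*b.z*g.t)*g.r1 + (a.z*b.z*g.L + a.c*b.c*g.L)*g.r3 + (a.s*b.s^3 +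
    a.x*b.s*b.x^2 + a.z*b.x^2*b.z*g.t)*g.r5
  clear * - hch
  try simp only [m, w, w', u, n, q, P, E, v]
  grind

theorem x_fQ :
    a.x * b.x * (g.N * (g.N + g.t * a.x * b.x) + g.M * g.L) = a.x * b.x * (g.t ^ 3 * a.s * b.s * w a b) := by
  refine c2_cases C2.two (fun hch => ?_)
  linear_combination (norm := skip) (b.x*g.L)*g.f2 + (a.s*b.s^2*g.t + a.x*b.x^2*g.t + b.x*g.N)*g.f2s + (a.s*b.s*g.t*g.N)*g.r1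
    + (a.s*b.s*g.t^2)*g.r4
  clear * - hch
  try simp only [m, w, w', u, n, q, P, E, v]
  grind

theorem u_f5 :
    u a b ^ 2 * (q a b * (g.N * (g.N + g.t * a.x * b.x) + g.t ^ 3 * a.s * b.s * u a b + q a b * g.t ^ 8 * u a b ^ 4)) = u a b ^ 2 * 1 := by
  refine c2_cases C2.two (fun hch => ?_)
  linear_combination (norm := skip) (a.s^2*a.r*b.s^2*b.r + a.s*a.x*a.r*b.x^2*b.r + a.x*a.c*a.r*b.x*b.c*b.r*g.t +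
    a.z*a.r*b.z*b.r*g.N + a.c*a.r*b.c*b.r*g.N)*g.r4 + (a.s^5*a.r^2*b.x^5*b.r^2*g.t^2 +
    a.s^4*a.x*a.r^2*b.s*b.x^4*b.r^2*g.t^2 + a.s^4*a.z*a.r^2*b.x^4*b.z*b.r^2*g.t^3 +
    a.s^4*a.c*a.r^2*b.x^4*b.c*b.r^2*g.t^3 + a.s^3*a.z^2*a.r^2*b.x^3*b.z^2*b.r^2*g.t^4 +
    a.s^3*a.c^2*a.r^2*b.x^3*b.c^2*b.r^2*g.t^4 + a.s^3*a.r*b.s*b.x^2*b.r +
    a.s^2*a.x*a.z^2*a.r^2*b.s*b.x^2*b.z^2*b.r^2*g.t^4 +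
    a.s^2*a.x*a.c^2*a.r^2*b.s*b.x^2*b.c^2*b.r^2*g.t^4 + a.s^2*a.x*a.r*b.s^2*b.x*b.r +
    a.s^2*a.z^3*a.r^2*b.x^2*b.z^3*b.r^2*g.t^5 +
    a.s^2*a.z^2*a.c*a.r^2*b.x^2*b.z^2*b.c*b.r^2*g.t^5 +
    a.s^2*a.z*a.c^2*a.r^2*b.x^2*b.z*b.c^2*b.r^2*g.t^5 + a.s^2*a.z*a.r*b.s*b.x*b.z*b.r*g.t +
    a.s^2*a.z*a.r*b.x^2*b.c*b.r*g.t + a.s^2*a.c^3*a.r^2*b.x^2*b.c^3*b.r^2*g.t^5 +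
    a.s^2*a.c*a.r*b.s*b.x*b.c*b.r*g.t + a.s^2*a.c*a.r*b.x^2*b.z*b.r*g.t +
    a.s*a.x^4*a.r^2*b.s^4*b.x*b.r^2*g.t^2 + a.s*a.x^2*a.z^2*a.r^2*b.s^2*b.x*b.z^2*b.r^2*g.t^4
    + a.s*a.x^2*a.c^2*a.r^2*b.s^2*b.x*b.c^2*b.r^2*g.t^4 + a.s*a.x^2*a.r*b.s^3*b.r +
    a.s*a.x^2*a.r*b.x^3*b.r + a.s*a.x*a.z*a.r*b.s^2*b.z*b.r*g.t +
    a.s*a.x*a.c*a.r*b.s^2*b.c*b.r*g.t + a.s*a.z^4*a.r^2*b.x*b.z^4*b.r^2*g.t^6 +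
    a.s*a.z^2*a.r*b.s*b.z^2*b.r*g.t^2 + a.s*a.c^4*a.r^2*b.x*b.c^4*b.r^2*g.t^6 +
    a.s*a.c^2*a.r*b.s*b.c^2*b.r*g.t^2 + a.x^5*a.r^2*b.s^5*b.r^2*g.t^2 +
    a.x^4*a.z*a.r^2*b.s^4*b.z*b.r^2*g.t^3 + a.x^4*a.c*a.r^2*b.s^4*b.c*b.r^2*g.t^3 +
    a.x^3*a.z^2*a.r^2*b.s^3*b.z^2*b.r^2*g.t^4 + a.x^3*a.c^2*a.r^2*b.s^3*b.c^2*b.r^2*g.t^4 +
    a.x^2*a.z^3*a.r^2*b.s^2*b.z^3*b.r^2*g.t^5 +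
    a.x^2*a.z^2*a.c*a.r^2*b.s^2*b.z^2*b.c*b.r^2*g.t^5 +
    a.x^2*a.z*a.c^2*a.r^2*b.s^2*b.z*b.c^2*b.r^2*g.t^5 + a.x^2*a.z*a.r*b.s^2*b.c*b.r*g.t +
    a.x^2*a.c^3*a.r^2*b.s^2*b.c^3*b.r^2*g.t^5 + a.x^2*a.c*a.r*b.s^2*b.z*b.r*g.t +
    a.x*a.z^4*a.r^2*b.s*b.z^4*b.r^2*g.t^6 + a.x*a.c^4*a.r^2*b.s*b.c^4*b.r^2*g.t^6 +
    a.z^5*a.r^2*b.z^5*b.r^2*g.t^7 + a.z^4*a.c*a.r^2*b.z^4*b.c*b.r^2*g.t^7 +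
    a.z*a.c^4*a.r^2*b.z*b.c^4*b.r^2*g.t^7 + a.c^5*a.r^2*b.c^5*b.r^2*g.t^7)*g.r1 +
    (a.s^2*a.r*b.x^2*b.z^2*b.r*g.t^2 + a.s^2*a.r*b.x^2*b.c^2*b.r*g.t^2 +
    a.x^2*a.r*b.s^2*b.z^2*b.r*g.t^2 + a.x^2*a.r*b.s^2*b.c^2*b.r*g.t^2 +
    a.x^2*a.r*b.x^2*b.z*b.c*b.r*g.t^2)*a.h1 + (a.s^2*a.r*b.x^2*b.z*b.c*b.r*g.t^2 +
    a.x^2*a.r*b.s^2*b.z*b.c*b.r*g.t^2 + b.z^2 + b.c^2)*a.h2 + (a.s^6*a.r^2*b.x^2*b.r*g.t^2 +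
    a.s^4*a.x^2*a.r^2*b.s^2*b.r*g.t^2 + a.s^3*a.x^3*a.r^2*b.x^2*b.r*g.t^2 +
    a.s*a.x^5*a.r^2*b.s^2*b.r*g.t^2 + a.x^6*a.r^2*b.x^2*b.r*g.t^2)*b.h1 + (a.s^4*a.r +
    a.s^2*a.x^4*a.r^2*b.x^2*b.r*g.t^2 + a.s*a.x^3*a.r + a.x^6*a.r^2*b.s^2*b.r*g.t^2)*b.h2 +
    (a.x^3*a.r*b.x^3*b.r*g.t + a.z*b.c + a.c*b.z)*g.r2
  clear * - hch
  try simp only [m, w, w', u, n, q, P, E, v]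
  grind

theorem v_f5 :
    v a b ^ 2 * (q a b * (g.N * (g.N + g.t * a.x * b.x) + g.t ^ 3 * a.s * b.s * u a b + q a b * g.t ^ 8 * u a b ^ 4)) = v a b ^ 2 * 1 := by
  refine c2_cases C2.two (fun hch => ?_)
  linear_combination (norm := skip) (a.s^2*a.c*a.r^2*b.x^2*b.c*b.r^2*g.t^2 + a.x^3*a.r^2*b.x^3*b.r^2*g.t +
    a.x^2*a.z*a.r^2*b.s^2*b.z*b.r^2*g.t^2 + a.x^2*a.r^2*b.x^2*b.r^2*g.N +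
    a.c*a.r*b.z*b.r)*g.r6 + (a.s^2*a.c*a.r^2*b.x^2*b.c*b.r^2*g.t^2 +
    a.x^2*a.z*a.r^2*b.s^2*b.z*b.r^2*g.t^2 + a.c*a.r*b.z*b.r)*g.r2 +
    (a.s^4*a.c*a.r^3*b.x^4*b.c*b.r^3*g.t^3 + a.s^3*a.x^4*a.r^4*b.x^7*b.r^4*g.t^4 +
    a.s^3*a.x^2*a.r^3*b.s^2*b.x^3*b.r^3*g.t^2 + a.s^2*a.x^5*a.r^4*b.s*b.x^6*b.r^4*g.t^4 +
    a.s^2*a.x^4*a.z*a.r^4*b.x^6*b.z*b.r^4*g.t^5 + a.s^2*a.x^4*a.c*a.r^4*b.x^6*b.c*b.r^4*g.t^5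
    + a.s^2*a.x^3*a.r^3*b.s^3*b.x^2*b.r^3*g.t^2 + a.s^2*a.c*a.r^2*b.x^2*b.z*b.r^2*g.t +
    a.s*a.x^6*a.r^4*b.s^2*b.x^5*b.r^4*g.t^4 + a.s*a.x^4*a.z^2*a.r^4*b.x^5*b.z^2*b.r^4*g.t^6 +
    a.s*a.x^4*a.c^2*a.r^4*b.x^5*b.c^2*b.r^4*g.t^6 + a.s*a.x^4*a.r^3*b.s*b.x^4*b.r^3*g.t^2 +
    a.x^7*a.r^4*b.s^3*b.x^4*b.r^4*g.t^4 + a.x^6*a.z*a.r^4*b.s^2*b.x^4*b.z*b.r^4*g.t^5 +
    a.x^6*a.c*a.r^4*b.s^2*b.x^4*b.c*b.r^4*g.t^5 +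
    a.x^5*a.z^2*a.r^4*b.s*b.x^4*b.z^2*b.r^4*g.t^6 +
    a.x^5*a.c^2*a.r^4*b.s*b.x^4*b.c^2*b.r^4*g.t^6 + a.x^4*a.z^3*a.r^4*b.x^4*b.z^3*b.r^4*g.t^7
    + a.x^4*a.z^2*a.c*a.r^4*b.x^4*b.z^2*b.c*b.r^4*g.t^7 +
    a.x^4*a.z*a.c^2*a.r^4*b.x^4*b.z*b.c^2*b.r^4*g.t^7 + a.x^4*a.z*a.r^3*b.s^4*b.z*b.r^3*g.t^3
    + a.x^4*a.c^3*a.r^4*b.x^4*b.c^3*b.r^4*g.t^7 + a.x^2*a.c*a.r^2*b.s^2*b.z*b.r^2*g.t)*g.r1 +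
    (a.s^4*a.r^3*b.x^4*b.z*b.c*b.r^3*g.t^4 + a.s^2*a.r^2*b.x^2*b.z^2*b.r^2*g.t^2 +
    a.s^2*a.r^2*b.x^2*b.c^2*b.r^2*g.t^2 + a.x^4*a.r^3*b.s^4*b.z*b.c*b.r^3*g.t^4 +
    a.r*b.z*b.c*b.r)*a.h1 + (a.x^2*a.r^2*b.s^2*b.z*b.c*b.r^2*g.t^2)*a.h2 +
    (a.s^4*a.x^4*a.r^4*b.x^4*b.r^3*g.t^4 + a.s^4*a.x^2*a.r^3*b.s^2*b.r^2*g.t^2 +
    a.s*a.x^5*a.r^3*b.s^2*b.r^2*g.t^2 + a.x^8*a.r^4*b.s^4*b.r^3*g.t^4 + a.x^4*a.r^2*b.r)*b.h1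
    + (a.s^2*a.x^4*a.r^3*b.x^2*b.r^2*g.t^2)*b.h2
  clear * - hch
  try simp only [m, w, w', u, n, q, P, E, v]
  grind

theorem u_f3 :
    u a b ^ 2 * (g.N * a.z + a.r * g.L * (g.L + g.t * a.x ^ 2) * b.z) = u a b ^ 2 * (g.t ^ 2 * q a b * a.c * (a.s ^ 2 * b.x ^ 2 * (g.N + g.t * a.x * b.x) + a.x ^ 2 * b.s ^ 2 * g.N)) := by
  refine c2_cases C2.two (fun hch => ?_)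
  linear_combination (norm := skip) (a.s^3*a.c*a.r*b.x^3*b.r*g.t + a.s^2*a.x*a.c*a.r*b.s*b.x^2*b.r*g.t +
    a.s*a.x^2*a.c*a.r*b.s^2*b.x*b.r*g.t + a.x^3*a.c*a.r*b.s^3*b.r*g.t + a.z^2*b.z +
    a.z*a.c*b.c)*g.r4 + (a.s^3*a.r*b.s*b.z + a.s*a.x^2*a.r*b.x*b.z + a.x^2*a.c*a.r*b.z*b.c*g.t
    + a.z*a.r*b.z^2*g.L + a.c*a.r*b.z*b.c*g.L)*g.r5 + (a.s^4*a.x*a.r*b.x*b.z +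
    a.s^3*a.x^2*a.r*b.s*b.z + a.s^3*a.x*a.c*a.r*b.x^4*b.r*g.t +
    a.s^2*a.x^2*a.c*a.r*b.s*b.x^3*b.r*g.t + a.s^2*a.x*a.z*a.c*a.r*b.x^3*b.z*b.r*g.t^2 +
    a.s^2*a.x*a.c^2*a.r*b.x^3*b.c*b.r*g.t^2 + a.s^2*a.z*a.c*a.r*b.x^2*b.z*b.r*g.t*g.N +
    a.s^2*a.c^2*a.r*b.x^2*b.c*b.r*g.t*g.N + a.x^5*a.r*b.x*b.c + a.x^4*a.z*a.r*b.s^4*b.r*g.t +
    a.x^4*a.z*a.r*b.s*b.x^3*b.r*g.t + a.x^4*a.z*a.r*b.z^2*g.t + a.x^4*a.z*a.r*b.c^2*g.t +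
    a.x^2*a.z*a.c*a.r*b.s^2*b.z*b.r*g.t*g.N + a.x^2*a.c^2*a.r*b.s^2*b.c*b.r*g.t*g.N +
    a.x*a.c^2*b.x*b.z)*g.r1 + (a.s^3*a.x*a.r*b.x^4*b.z*b.r*g.t^2 +
    a.s^2*a.x^2*a.r*b.s*b.x^3*b.z*b.r*g.t^2 + a.s*a.x^3*a.r*b.s^2*b.x^2*b.z*b.r*g.t^2 +
    a.s*a.x*b.x^2*b.c + a.x^4*a.r*b.s^4*b.c*b.r*g.t^2 + a.x^4*a.r*b.s^3*b.x*b.z*b.r*g.t^2 +
    a.x^4*a.r*b.s*b.x^3*b.c*b.r*g.t^2 + a.x^4*a.r*b.c^3*g.t^2 + a.x^2*b.s*b.x*b.c)*a.h1 +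
    (a.s^2*b.s^2*b.z + a.s*a.x*b.x^2*b.z + a.x^4*a.r*b.s^4*b.z*b.r*g.t^2 +
    a.x^4*a.r*b.s*b.x^3*b.z*b.r*g.t^2 + a.x^4*a.r*b.z^3*g.t^2 + a.x^4*a.r*b.z*b.c^2*g.t^2 +
    a.x*a.z*b.x*b.z^2*g.t + a.x*a.c*b.x*b.z*b.c*g.t)*a.h2 + (a.x^8*a.r^2*b.z*g.t^2)*b.h1 +
    (a.s^4*a.x^4*a.r^2*b.z*g.t^2 + a.s*a.x^7*a.r^2*b.z*g.t^2 + a.s*a.x^4*a.z*a.r*b.x*g.t +
    a.x^8*a.r^2*b.c*g.t^2 + a.x^5*a.z*a.r*b.s*g.t + a.x^5*a.c*a.r*b.x*g.t +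
    a.x^4*a.c^2*a.r*b.z*g.t^2)*b.h2 + (a.s^2*a.c*b.s^2 + a.x^5*a.r*b.x*b.z*g.t +
    a.x^2*a.c*b.s*b.x)*g.r2
  clear * - hch
  try simp only [m, w, w', u, n, q, P, E, v]
  grind

theorem v_f3 (hf5 : (q a b * (g.N * (g.N + g.t * a.x * b.x) + g.t ^ 3 * a.s * b.s * u a b + q a b * g.t ^ 8 * u a b ^ 4)) = 1) :
    v a b * (g.N * a.z + a.r * g.L * (g.L + g.t * a.x ^ 2) * b.z) = v a b * (g.t ^ 2 * q a b * a.c * (a.s ^ 2 * b.x ^ 2 * (g.N + g.t * a.x * b.x) + a.x ^ 2 * b.s ^ 2 * g.N)) := by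
  refine c2_cases C2.two (fun hch => ?_)
  linear_combination (norm := skip) (a.s^2*a.c*a.r*b.x^2*b.r*g.t^2 + a.x^2*a.c*a.r*b.s^2*b.r*g.t^2 + a.z)*g.r6 +
    (a.s^2*a.x^2*a.r^2*b.s*b.z*b.r*g.t + a.x^4*a.r^2*b.x*b.z*b.r*g.t + a.x^3*a.r^2*b.z*b.r*g.N
    + a.x^2*a.r^2*b.x*b.z*b.r*g.L)*g.f2s + (a.x^4*a.r*b.z)*hf5 +
    (a.s^4*a.c*a.r^2*b.x^4*b.r^2*g.t^3 + a.s^3*a.x^4*a.r^3*b.x^3*b.z*b.r^2*g.t^4 +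
    a.s^2*a.x^5*a.r^3*b.s*b.x^2*b.z*b.r^2*g.t^4 +
    a.s^2*a.x^4*a.z*a.r^3*b.x^2*b.z^2*b.r^2*g.t^5 +
    a.s^2*a.x^4*a.c*a.r^3*b.x^2*b.z*b.c*b.r^2*g.t^5 +
    a.s^2*a.x^2*a.c*a.r^2*b.s^2*b.x^2*b.r^2*g.t^3 + a.s*a.x^6*a.r^3*b.s^2*b.x*b.z*b.r^2*g.t^4
    + a.s*a.x^4*a.z^2*a.r^3*b.x*b.z^3*b.r^2*g.t^6 +
    a.s*a.x^4*a.c^2*a.r^3*b.x*b.z*b.c^2*b.r^2*g.t^6 + a.s*a.x^4*a.r^2*b.s*b.z*b.r*g.t^2 +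
    a.x^7*a.r^3*b.s^3*b.z*b.r^2*g.t^4 + a.x^6*a.z*a.r^3*b.s^2*b.z^2*b.r^2*g.t^5 +
    a.x^6*a.c*a.r^3*b.s^2*b.z*b.c*b.r^2*g.t^5 + a.x^5*a.z^2*a.r^3*b.s*b.z^3*b.r^2*g.t^6 +
    a.x^5*a.c^2*a.r^3*b.s*b.z*b.c^2*b.r^2*g.t^6 + a.x^4*a.z^3*a.r^3*b.z^4*b.r^2*g.t^7 +
    a.x^4*a.z^2*a.c*a.r^3*b.z^3*b.c*b.r^2*g.t^7 +
    a.x^4*a.z*a.c^2*a.r^3*b.z^2*b.c^2*b.r^2*g.t^7 +
    a.x^4*a.c^3*a.r^3*b.z*b.c^3*b.r^2*g.t^7)*g.r1 + (a.s^2*a.c*a.r*b.x^2*b.r*g.t^2)*g.r2 +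
    (a.s^4*a.r^2*b.x^4*b.z*b.r^2*g.t^4 + a.x^4*a.r^2*b.s^4*b.z*b.r^2*g.t^4 + b.z)*a.h1 +
    (a.x^2*a.r*b.s^2*b.z*b.r*g.t^2)*a.h2
  clear * - hch
  try simp only [m, w, w', u, n, q, P, E, v]
  grind

end PreArr

end Pool.Agent.AFP
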