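/-
MP_911691_ag: operations on arrows (swap, conjugation, unit), existence and uniqueness over the
open part.
-/
import Pool.Agent.AFP.IdV

attribute [local instance] Pool.Agent.AFP.instCommRingAW Pool.Agent.AFP.instAlgebraZModAW
  Pool.Agent.AFP.instAlgebraB2AW

set_option linter.all false

namespace Pool.Agent.AFP

section sym

variable {A : Type*} [CommRing A] (a b : Pt A)

theorem m_swap : m b a = m a b := by simp only [m]; ring
theorem w_swap : w b a = w a b := by simp only [w]; ring
theorem w'_swap : w' b a = w' a b := by simp only [w']; ring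
theorem u_swap : u b a = u a b := by simp only [u]; ring
theorem n_swap : n b a = n a b := by simp only [n]; ring
theorem q_swap : q b a = q a b := by simp only [q]; ring
theorem E_swap : E b a = E a b := by simp only [E, m]; ring
theorem v_swap : v b a = v a b := by simp only [v, q]; ring

theorem m_conj : m a.conj b.conj = m a b := rfl
theorem w_conj : w a.conj b.conj = w' a b := rfl
theorem w'_conj : w' a.conj b.conj = w a b := rfl
theorem u_conj : u a.conj b.conj = u a b := by simp only [u, Pt.conj]; ring
theorem n_conj : n a.conj b.conj = n a b := by simp only [n, Pt.conj]; ring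
theorem q_conj : q a.conj b.conj = q a b := rfl
theorem E_conj : E a.conj b.conj = E a b := rfl
theorem v_conj : v a.conj b.conj = v a b := rfl
theorem P_conj : P a.conj b.conj = P a b := rfl

end sym

namespace PreArr

variable {A : Type*} [CommRing A] [C2 A] {a b : Pt A}

/-- reversed pre-arrow -/
@[simps] def swap (g : PreArr a b) : PreArr b a where
  t := g.t
  M := g.L
  N := g.N + g.t * a.x * b.x
  L := g.M
  r1 := by
      refine c2_cases C2.two (fun hch => ?_)
      linear_combination (norm := skip) g.r1
      clear * - hch
      try simp only [m, w, w', u, n, q, P, E, v]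
      grind
  r2 := by
      refine c2_cases C2.two (fun hch => ?_)
      linear_combination (norm := skip) g.r2
      clear * - hch
      try simp only [m, w, w', u, n, q, P, E, v]
      grind
  r3 := by
      refine c2_cases C2.two (fun hch => ?_)
      linear_combination (norm := skip) g.r5
      clear * - hch
      try simp only [m, w, w', u, n, q, P, E, v]
      grind
  r5 := by
      refine c2_cases C2.two (fun hch => ?_)
      linear_combination (norm := skip) g.r3
      clear * - hch
      try simp only [m, w, w', u, n, q, P, E, v]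
      grind
  r4 := by
      refine c2_cases C2.two (fun hch => ?_)
      linear_combination (norm := skip) g.r4 + a.x * b.x * g.r1
      clear * - hch
      try simp only [m, w, w', u, n, q, P, E, v]
      grind
  r6 := by
      refine c2_cases C2.two (fun hch => ?_)
      linear_combination (norm := skip) g.r6 + g.r2 + g.t * q a b * m a b ^ 2 * g.r1
      clear * - hch
      try simp only [m, w, w', u, n, q, P, E, v]
      grind
  f2 := by
      refine c2_cases C2.two (fun hch => ?_)
      linear_combination (norm := skip) g.f2s
      clear * - hch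
      try simp only [m, w, w', u, n, q, P, E, v]
      grind
  f2s := by
      refine c2_cases C2.two (fun hch => ?_)
      linear_combination (norm := skip) g.f2
      clear * - hch
      try simp only [m, w, w', u, n, q, P, E, v]
      grind

/-- conjugate pre-arrow -/
@[simps] def conj (g : PreArr a b) : PreArr a.conj b.conj where
  t := g.t
  M := g.M + g.t * b.x ^ 2
  N := g.N + g.t * a.x * b.x
  L := g.L + g.t * a.x ^ 2
  r1 := by rw [u_conj, m_conj]; exact g.r1
  r2 := by rw [q_conj, E_conj, n_conj]; exact g.r2
  r3 := by
      rw [u_conj, w_conj, P_conj]; simp only [Pt.conj]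
      refine c2_cases C2.two (fun hch => ?_)
      linear_combination (norm := skip) g.r3
      clear * - hch
      try simp only [m, w, w', u, n, q, P, E, v]
      grind
  r5 := by
      rw [u_conj, w_conj, P_conj]; simp only [Pt.conj]
      refine c2_cases C2.two (fun hch => ?_)
      linear_combination (norm := skip) g.r5
      clear * - hch
      try simp only [m, w, w', u, n, q, P, E, v]
      grind
  r4 := by
      rw [u_conj, w_conj, P_conj]; simp only [Pt.conj]
      refine c2_cases C2.two (fun hch => ?_)
      linear_combination (norm := skip) g.r4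
      clear * - hch
      try simp only [m, w, w', u, n, q, P, E, v]
      grind
  r6 := by
    rw [v_conj, w_conj, w'_conj, q_conj]
    simp only [Pt.conj]
    refine c2_cases C2.two (fun hch => ?_)
    linear_combination (norm := skip) g.r6 + g.r2 + g.t * q a b * m a b ^ 2 * g.r1
    clear * - hch
    try simp only [m, w, w', u, n, q, P, E, v]
    grind
  f2 := by
      simp only [Pt.conj]
      refine c2_cases C2.two (fun hch => ?_)
      linear_combination (norm := skip) g.f2
      clear * - hch
      try simp only [m, w, w', u, n, q, P, E, v]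
      grind
  f2s := by
      simp only [Pt.conj]
      refine c2_cases C2.two (fun hch => ?_)
      linear_combination (norm := skip) g.f2s
      clear * - hch
      try simp only [m, w, w', u, n, q, P, E, v]
      grind

/-- pre-arrows exist as soon as one can divide simultaneously by `u, v`, by `u, x`, by `u, X`. -/
theorem exists_of_kos (t : A) (r1 : t * u a b = m a b) (r2 : t * (q a b * E a b) = n a b)
    (K1 : ∀ α β : A, u a b * β = v a b * α → ∃ y, u a b * y = α ∧ v a b * y = β)
    (K2 : ∀ α β : A, u a b * β = a.x * α → ∃ y, u a b * y = α ∧ a.x * y = β)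
    (K3 : ∀ α β : A, u a b * β = b.x * α → ∃ y, u a b * y = α ∧ b.x * y = β) :
    ∃ g : PreArr a b, g.t = t := by
  obtain ⟨N, r4, r6⟩ := K1 (a.s * P a b + t * a.x * b.x * w a b)
    (a.c * b.z + t ^ 2 * q a b * (a.s ^ 2 * b.x ^ 2 * w' a b + a.x ^ 2 * b.s ^ 2 * w a b)) (by
      refine c2_cases C2.two (fun hch => ?_)
      linear_combination (norm := skip) (b.z^2 + b.c^2)*a.h1 + (a.x^4*a.r)*b.h2 + (a.s^2*a.c*a.r*b.x^2*b.c*b.r*t +
        a.s*a.x^2*a.r*b.s^2*b.x*b.r + a.x^3*a.r*b.s^3*b.r + a.x^3*a.r*b.x^3*b.r +
        a.x^2*a.z*a.r*b.s^2*b.z*b.r*t)*r1 + (a.c*b.c)*r2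
      clear * - hch
      try simp only [m, w, w', u, n, q, P, E, v]
      grind)
  obtain ⟨M, r3, f2⟩ := K2 (b.s * P a b + t * b.x ^ 2 * w a b)
    (b.x * (N + t * a.x * b.x) + t * a.s * b.s ^ 2) (by
      refine c2_cases C2.two (fun hch => ?_)
      linear_combination (norm := skip) (a.s*b.s^2 + a.x*b.x^2)*r1 + b.x*r4
      clear * - hch
      try simp only [m, w, w', u, n, q, P, E, v]
      grind)
  obtain ⟨L, r5, f2s⟩ := K3 (a.s * P b a + t * a.x ^ 2 * w a b)
    (a.x * N + t * a.s ^ 2 * b.s) (by
      refine c2_cases C2.two (fun hch => ?_)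
      linear_combination (norm := skip) (a.s^2*b.s)*r1 + a.x*r4
      clear * - hch
      try simp only [m, w, w', u, n, q, P, E, v]
      grind)
  exact ⟨⟨t, M, N, L, r1, r2, r3, r5, r4, r6, f2, f2s⟩, rfl⟩

end PreArr

/-- `u` and `v` have no common torsion. -/
def Faith {A : Type*} [CommRing A] (a b : Pt A) : Prop :=
  ∀ y : A, (∃ k : ℕ, u a b ^ k * y = 0) → (∃ k : ℕ, v a b ^ k * y = 0) → y = 0

theorem Faith.swap {A : Type*} [CommRing A] {a b : Pt A} (h : Faith a b) : Faith b a := by
  intro y h1 h2
  rw [u_swap] at h1
  rw [v_swap] at h2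
  exact h y h1 h2

theorem Faith.conj {A : Type*} [CommRing A] {a b : Pt A} (h : Faith a b) :
    Faith a.conj b.conj := by
  intro y h1 h2
  rw [u_conj] at h1
  rw [v_conj] at h2
  exact h y h1 h2

theorem Faith.eq {A : Type*} [CommRing A] {a b : Pt A} (h : Faith a b) {y z : A} (k l : ℕ)
    (h1 : u a b ^ k * y = u a b ^ k * z) (h2 : v a b ^ l * y = v a b ^ l * z) : y = z := by
  rw [← sub_eq_zero]
  exact h _ ⟨k, by rw [mul_sub, h1, sub_self]⟩ ⟨l, by rw [mul_sub, h2, sub_self]⟩

theorem Faith.of_isUnit_u {A : Type*} [CommRing A] {a b : Pt A} (h : IsUnit (u a b)) :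
    Faith a b := by
  intro y h1 _
  obtain ⟨k, hk⟩ := h1
  exact (h.pow k).mul_right_eq_zero.1 hk

theorem Faith.of_isUnit_v {A : Type*} [CommRing A] {a b : Pt A} (h : IsUnit (v a b)) :
    Faith a b := by
  intro y _ h1
  obtain ⟨k, hk⟩ := h1
  exact (h.pow k).mul_right_eq_zero.1 hk

theorem mul_eq_of_eq_mul {A : Type*} [CommRing A] {v e d y z : A} (hv : v = e * d)
    (h : d * y = d * z) : v * y = v * z := by
  rw [hv, mul_assoc, h, mul_assoc]

namespace PreArr

variable {A : Type*} [CommRing A] [C2 A] {a b : Pt A}

theorem f5_of (g : PreArr a b) (H : Faith a b) :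
    q a b * (g.N * (g.N + g.t * a.x * b.x) + g.t ^ 3 * a.s * b.s * u a b +
      q a b * g.t ^ 8 * u a b ^ 4) = 1 :=
  H.eq 2 2 g.u_f5 g.v_f5

theorem f3_of (g : PreArr a b) (H : Faith a b) :
    g.N * a.z + a.r * g.L * (g.L + g.t * a.x ^ 2) * b.z =
    g.t ^ 2 * q a b * a.c * (a.s ^ 2 * b.x ^ 2 * (g.N + g.t * a.x * b.x) +
      a.x ^ 2 * b.s ^ 2 * g.N) :=
  H.eq 2 1 g.u_f3 (by simpa using g.v_f3 (g.f5_of H))

theorem f1_of (g : PreArr a b) (H : Faith a b) :
    b.s * g.N + a.s * g.M = g.t ^ 2 * b.x * w a b :=
  H.eq 1 1 (by simpa using g.u_f1) (by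
    have e : v a b = (q a b * a.x * b.x ^ 2) * a.x := by simp only [v]; ring
    rw [pow_one]
    exact mul_eq_of_eq_mul e g.x_f1)

theorem f1s_of (g : PreArr a b) (H : Faith a b) :
    a.s * (g.N + g.t * a.x * b.x) + b.s * g.L = g.t ^ 2 * a.x * w a b :=
  H.eq 1 1 (by simpa using g.u_f1s) (by
    have e : v a b = (q a b * a.x ^ 2 * b.x) * b.x := by simp only [v]; ring
    rw [pow_one]
    exact mul_eq_of_eq_mul e g.x_f1s)

theorem fQ_of (g : PreArr a b) (H : Faith a b) :
    g.N * (g.N + g.t * a.x * b.x) + g.M * g.L = g.t ^ 3 * a.s * b.s * w a b :=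
  H.eq 2 1 g.u_fQ (by
    have e : v a b = (q a b * a.x * b.x) * (a.x * b.x) := by simp only [v]; ring
    rw [pow_one]
    exact mul_eq_of_eq_mul e g.x_fQ)

/-- a pre-arrow is an arrow if `u, v` have no common torsion -/
@[simps] def toArr (g : PreArr a b) (H : Faith a b) : Arr a b where
  t := g.t
  M := g.M
  N := g.N
  L := g.L
  r1 := g.r1
  r2 := g.r2
  r3 := g.r3
  r5 := g.r5
  r4 := g.r4
  r6 := g.r6
  f2 := g.f2
  f2s := g.f2s
  f1 := g.f1_of H
  f1s := g.f1s_of H
  fQ := g.fQ_of H
  f5 := g.f5_of H
  f3 := g.f3_of H
  f4 := by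
    have h := g.conj.f3_of H.conj
    rw [q_conj] at h
    simp only [conj_t, conj_N, conj_L, Pt.conj] at h
    refine c2_cases C2.two (fun hch => ?_)
    linear_combination (norm := skip) h
    clear * - hch
    try simp only [m, w, w', u, n, q, P, E, v]
    grind
  f3s := by
    have h := g.swap.f3_of H.swap
    rw [q_swap] at h
    simp only [swap_t, swap_N, swap_L] at h
    refine c2_cases C2.two (fun hch => ?_)
    linear_combination (norm := skip) h
    clear * - hch
    try simp only [m, w, w', u, n, q, P, E, v]
    grind
  f4s := by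
    have h := g.swap.conj.f3_of H.swap.conj
    rw [q_conj, q_swap] at h
    simp only [swap_t, swap_N, swap_L, conj_t, conj_N, conj_L, Pt.conj] at h
    refine c2_cases C2.two (fun hch => ?_)
    linear_combination (norm := skip) h
    clear * - hch
    try simp only [m, w, w', u, n, q, P, E, v]
    grind

/-- uniqueness of pre-arrows -/
theorem ext_of (H : Faith a b) (g g' : PreArr a b) : g = g' := by
  have hE : v a b ^ 3 * g.t = v a b ^ 3 * g'.t := by
    have h1 := g.r1
    have h2 := g'.r1
    have h3 : u a b * g.t = u a b * g'.t := by rw [mul_comm, h1, ← h2, mul_comm]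
    have h4 : q a b * E a b * g.t = q a b * E a b * g'.t := by
      rw [mul_comm, g.r2, ← g'.r2, mul_comm]
    have h5 : m a b * g.t = m a b * g'.t := by
      linear_combination (-g.t) * h2 + g'.t * h3 + g'.t * h2
    have h6 : a.x ^ 3 * b.x ^ 3 * (q a b * g.t) = a.x ^ 3 * b.x ^ 3 * (q a b * g'.t) := by
      have : E a b = m a b ^ 3 + a.x ^ 3 * b.x ^ 3 := rfl
      rw [this] at h4
      linear_combination h4 - q a b * m a b ^ 2 * h5
    have : v a b ^ 3 = (q a b ^ 2 * a.x ^ 3 * b.x ^ 3) * (a.x ^ 3 * b.x ^ 3 * q a b) := by
      simp only [v]; ring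
    rw [this]
    linear_combination (q a b ^ 2 * a.x ^ 3 * b.x ^ 3) * h6
  have ht : g.t = g'.t := H.eq 1 3 (by
    rw [pow_one, mul_comm, g.r1, mul_comm, g'.r1]) hE
  have hN : g.N = g'.N := H.eq 1 1 (by
    rw [pow_one, g.r4, g'.r4, ht]) (by rw [pow_one, g.r6, g'.r6, ht])
  have hM : g.M = g'.M := H.eq 1 1 (by
    rw [pow_one, g.r3, g'.r3, ht]) (by
    have e : v a b = (q a b * a.x * b.x ^ 2) * a.x := by simp only [v]; ring
    rw [pow_one]
    exact mul_eq_of_eq_mul e (by rw [g.f2, g'.f2, ht, hN]))
  have hL : g.L = g'.L := H.eq 1 1 (by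
    rw [pow_one, g.r5, g'.r5, ht]) (by
    have e : v a b = (q a b * a.x ^ 2 * b.x) * b.x := by simp only [v]; ring
    rw [pow_one]
    exact mul_eq_of_eq_mul e (by rw [g.f2s, g'.f2s, ht, hN]))
  exact PreArr.ext ht hM hN hL

end PreArr

namespace Arr

variable {A : Type*} [CommRing A] {a b : Pt A}

/-- forget -/
@[simps] def toPre (g : Arr a b) : PreArr a b where
  t := g.t
  M := g.M
  N := g.N
  L := g.L
  r1 := g.r1
  r2 := g.r2
  r3 := g.r3
  r5 := g.r5
  r4 := g.r4
  r6 := g.r6
  f2 := g.f2
  f2s := g.f2s

theorem ext_of [C2 A] (H : Faith a b) (g g' : Arr a b) : g = g' := by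
  have h := PreArr.ext_of H g.toPre g'.toPre
  exact Arr.ext (congrArg PreArr.t h) (congrArg PreArr.M h) (congrArg PreArr.N h)
    (congrArg PreArr.L h)

/-- the inverse arrow -/
@[simps] def swap [C2 A] (g : Arr a b) : Arr b a where
  t := g.t
  M := g.L
  N := g.N + g.t * a.x * b.x
  L := g.M
  r1 := g.toPre.swap.r1
  r2 := g.toPre.swap.r2
  r3 := g.toPre.swap.r3
  r5 := g.toPre.swap.r5
  r4 := g.toPre.swap.r4
  r6 := g.toPre.swap.r6
  f2 := g.toPre.swap.f2
  f2s := g.toPre.swap.f2s
  f1 := by
      refine c2_cases C2.two (fun hch => ?_)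
      linear_combination (norm := skip) g.f1s
      clear * - hch
      try simp only [m, w, w', u, n, q, P, E, v]
      grind
  f1s := by
      refine c2_cases C2.two (fun hch => ?_)
      linear_combination (norm := skip) g.f1
      clear * - hch
      try simp only [m, w, w', u, n, q, P, E, v]
      grind
  fQ := by
      refine c2_cases C2.two (fun hch => ?_)
      linear_combination (norm := skip) g.fQ
      clear * - hch
      try simp only [m, w, w', u, n, q, P, E, v]
      grind
  f5 := by
      refine c2_cases C2.two (fun hch => ?_)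
      linear_combination (norm := skip) g.f5
      clear * - hch
      try simp only [m, w, w', u, n, q, P, E, v]
      grind
  f3 := by
      refine c2_cases C2.two (fun hch => ?_)
      linear_combination (norm := skip) g.f3s
      clear * - hch
      try simp only [m, w, w', u, n, q, P, E, v]
      grind
  f4 := by
      refine c2_cases C2.two (fun hch => ?_)
      linear_combination (norm := skip) g.f4s
      clear * - hch
      try simp only [m, w, w', u, n, q, P, E, v]
      grind
  f3s := by
      refine c2_cases C2.two (fun hch => ?_)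
      linear_combination (norm := skip) g.f3
      clear * - hch
      try simp only [m, w, w', u, n, q, P, E, v]
      grind
  f4s := by
      refine c2_cases C2.two (fun hch => ?_)
      linear_combination (norm := skip) g.f4
      clear * - hch
      try simp only [m, w, w', u, n, q, P, E, v]
      grind

/-- the unit arrow -/
@[simps] def one [C2 A] (a : Pt A) : Arr a a where
  t := 0
  M := a.ri
  N := a.ri
  L := a.ri
  r1 := by
      refine c2_cases C2.two (fun hch => ?_)
      linear_combination (norm := skip)
      clear * - hch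
      try simp only [m, w, w', u, n, q, P, E, v]
      grind
  r2 := by
      refine c2_cases C2.two (fun hch => ?_)
      linear_combination (norm := skip)
      clear * - hch
      try simp only [m, w, w', u, n, q, P, E, v]
      grind
  r3 := by
      refine c2_cases C2.two (fun hch => ?_)
      linear_combination (norm := skip) a.ri * a.h2 + (a.s ^ 4 + a.s * a.x ^ 3) * a.hr
      clear * - hch
      try simp only [m, w, w', u, n, q, P, E, v]
      grind
  r5 := by
      refine c2_cases C2.two (fun hch => ?_)
      linear_combination (norm := skip) a.ri * a.h2 + (a.s ^ 4 + a.s * a.x ^ 3) * a.hr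
      clear * - hch
      try simp only [m, w, w', u, n, q, P, E, v]
      grind
  r4 := by
      refine c2_cases C2.two (fun hch => ?_)
      linear_combination (norm := skip) a.ri * a.h2 + (a.s ^ 4 + a.s * a.x ^ 3) * a.hr
      clear * - hch
      try simp only [m, w, w', u, n, q, P, E, v]
      grind
  r6 := by
      refine c2_cases C2.two (fun hch => ?_)
      linear_combination (norm := skip) a.h1 + a.r * a.x ^ 4 * a.hr
      clear * - hch
      try simp only [m, w, w', u, n, q, P, E, v]
      grind
  f2 := by
      refine c2_cases C2.two (fun hch => ?_)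
      linear_combination (norm := skip)
      clear * - hch
      try simp only [m, w, w', u, n, q, P, E, v]
      grind
  f2s := by
      refine c2_cases C2.two (fun hch => ?_)
      linear_combination (norm := skip)
      clear * - hch
      try simp only [m, w, w', u, n, q, P, E, v]
      grind
  f1 := by
      refine c2_cases C2.two (fun hch => ?_)
      linear_combination (norm := skip)
      clear * - hch
      try simp only [m, w, w', u, n, q, P, E, v]
      grind
  f1s := by
      refine c2_cases C2.two (fun hch => ?_)
      linear_combination (norm := skip)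
      clear * - hch
      try simp only [m, w, w', u, n, q, P, E, v]
      grind
  fQ := by
      refine c2_cases C2.two (fun hch => ?_)
      linear_combination (norm := skip)
      clear * - hch
      try simp only [m, w, w', u, n, q, P, E, v]
      grind
  f5 := by
      refine c2_cases C2.two (fun hch => ?_)
      linear_combination (norm := skip) (a.r * a.ri + 1) * a.hr
      clear * - hch
      try simp only [m, w, w', u, n, q, P, E, v]
      grind
  f3 := by
      refine c2_cases C2.two (fun hch => ?_)
      linear_combination (norm := skip) a.z * a.ri * a.hr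
      clear * - hch
      try simp only [m, w, w', u, n, q, P, E, v]
      grind
  f4 := by
      refine c2_cases C2.two (fun hch => ?_)
      linear_combination (norm := skip) a.c * a.ri * a.hr
      clear * - hch
      try simp only [m, w, w', u, n, q, P, E, v]
      grind
  f3s := by
      refine c2_cases C2.two (fun hch => ?_)
      linear_combination (norm := skip) a.z * a.ri * a.hr
      clear * - hch
      try simp only [m, w, w', u, n, q, P, E, v]
      grind
  f4s := by
      refine c2_cases C2.two (fun hch => ?_)
      linear_combination (norm := skip) a.c * a.ri * a.hr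
      clear * - hch
      try simp only [m, w, w', u, n, q, P, E, v]
      grind

end Arr

end Pool.Agent.AFP
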