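/-
MP_911691_ag: the adjunction between `Spec` and global sections, in the form used in `Comp.lean`.
-/
import Mathlib

set_option linter.all false

open CategoryTheory Limits AlgebraicGeometry

namespace Pool.Agent.AFP

universe u

/-- the ring homomorphism of a morphism to an affine scheme -/
noncomputable def gam {X : Scheme.{u}} {C : Type u} [CommRing C] (f : X ⟶ Spec (CommRingCat.of C)) :
    C →+* Γ(X, ⊤) :=
  ((Scheme.ΓSpecIso (CommRingCat.of C)).inv ≫ f.appTop).hom

section

variable {X Y : Scheme.{u}} {C D : Type u} [CommRing C] [CommRing D]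

theorem gam_comp (h : Y ⟶ X) (f : X ⟶ Spec (CommRingCat.of C)) :
    gam (h ≫ f) = h.appTop.hom.comp (gam f) := by
  simp only [gam, Scheme.Hom.comp_appTop]
  rw [← CommRingCat.hom_comp, Category.assoc]

theorem gam_SpecMap (f : X ⟶ Spec (CommRingCat.of D)) (φ : C →+* D) :
    gam (f ≫ Spec.map (CommRingCat.ofHom φ)) = (gam f).comp φ := by
  simp only [gam, Scheme.Hom.comp_appTop]
  rw [← CommRingCat.hom_ofHom φ, ← CommRingCat.hom_comp, ← Category.assoc,
    ← Scheme.ΓSpecIso_inv_naturality, Category.assoc]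

theorem gam_inj {f g : X ⟶ Spec (CommRingCat.of C)} (h : gam f = gam g) : f = g := by
  apply ext_of_isAffine
  have h1 : (Scheme.ΓSpecIso (CommRingCat.of C)).inv ≫ f.appTop
      = (Scheme.ΓSpecIso (CommRingCat.of C)).inv ≫ g.appTop := CommRingCat.hom_ext h
  exact (cancel_epi _).1 h1

/-- the morphism of a ring homomorphism -/
noncomputable def ofGam (ψ : C →+* Γ(X, ⊤)) : X ⟶ Spec (CommRingCat.of C) :=
  X.toSpecΓ ≫ Spec.map (CommRingCat.ofHom ψ)

theorem gam_ofGam (ψ : C →+* Γ(X, ⊤)) : gam (ofGam ψ) = ψ := by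
  have h1 : gam (C := Γ(X, ⊤)) (X := X) X.toSpecΓ = RingHom.id _ := by
    simp only [gam]
    rw [Scheme.toSpecΓ_appTop]
    simp
  change gam (X.toSpecΓ ≫ Spec.map (CommRingCat.ofHom ψ)) = ψ
  rw [gam_SpecMap (D := Γ(X, ⊤)), h1, RingHom.id_comp]

theorem mem_preimage_D (f : X ⟶ Spec (CommRingCat.of C)) (c : C) (x : X) :
    f x ∈ (PrimeSpectrum.basicOpen c : (Spec (CommRingCat.of C)).Opens) ↔
      x ∈ X.basicOpen (gam f c) := by
  have h := Scheme.preimage_basicOpen_top f ((Scheme.ΓSpecIso (CommRingCat.of C)).inv c)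
  rw [basicOpen_eq_of_affine] at h
  have h' : x ∈ f ⁻¹ᵁ (PrimeSpectrum.basicOpen c : (Spec (CommRingCat.of C)).Opens) ↔
      x ∈ X.basicOpen (gam f c) := by
    rw [h]
    rfl
  exact h'

theorem gam_flat [IsAffine X] (f : X ⟶ Spec (CommRingCat.of C)) [Flat f] : (gam f).Flat := by
  have h1 := f.flat_appTop
  have h2 : ((Scheme.ΓSpecIso (CommRingCat.of C)).inv.hom).Flat :=
    RingHom.Flat.of_bijective (ConcreteCategory.bijective_of_isIso _)
  simp only [gam, CommRingCat.hom_comp]
  exact RingHom.Flat.comp h2 h1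

end

end Pool.Agent.AFP
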