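/-
MP_911691_ag, module M-FIELD: arrows over fields.
-/
import Pool.Agent.AFP.Arrow

attribute [local instance] Pool.Agent.AFP.instCommRingAW Pool.Agent.AFP.instAlgebraZModAW
  Pool.Agent.AFP.instAlgebraB2AW

set_option linter.all false

namespace Pool.Agent.AFP

section ring

variable {A : Type*} [CommRing A] [C2 A]

/-- `u n = q m E` -/
theorem u_mul_n (a b : Pt A) : u a b * n a b = q a b * m a b * E a b := by
  refine c2_cases C2.two (fun hch => ?_)
  linear_combination (norm := skip) (b.z ^ 2 + b.c ^ 2) * a.h1 + b.z * b.c * a.h2 +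
    a.r * (a.s ^ 4 + a.s * a.x ^ 3) * b.h1 + a.r * a.x ^ 4 * b.h2
  clear * - hch
  simp only [u, n, q, m, E]
  grind

/-- `u^2 + n^2 = q h H` -/
theorem u_sq_add_n_sq (a b : Pt A) : u a b ^ 2 + n a b ^ 2 =
    q a b * (a.s ^ 4 + a.s * a.x ^ 3) * (b.s ^ 4 + b.s * b.x ^ 3) := by
  refine c2_cases C2.two (fun hch => ?_)
  linear_combination (norm := skip) (b.z ^ 2 + b.c ^ 2) * a.h2 +
    a.r * (a.s ^ 4 + a.s * a.x ^ 3) * b.h2
  clear * - hch
  simp only [u, n, q]
  grind

variable {K : Type*} [Field K] [C2 K] {a b : Pt K}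

/-- at a field-valued point with `s = x = 0` also `z = c = 0` -/
theorem Pt.zc_zero (p : Pt K) (hs : p.s = 0) (hx : p.x = 0) : p.z = 0 ∧ p.c = 0 := by
  have h1 := p.h1
  have h2 := p.h2
  rw [hx] at h1 h2
  rw [hs] at h2
  have h3 : p.z * p.c = 0 := by rw [h1]; ring
  have h4 : p.z ^ 2 + p.c ^ 2 = 0 := by rw [h2]; ring
  rcases mul_eq_zero.1 h3 with h | h
  · refine ⟨h, ?_⟩
    rw [h] at h4
    have : p.c ^ 2 = 0 := by linear_combination h4
    exact pow_eq_zero_iff (two_ne_zero) |>.1 this
  · refine ⟨?_, h⟩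
    rw [h] at h4
    have : p.z ^ 2 = 0 := by linear_combination h4
    exact pow_eq_zero_iff (two_ne_zero) |>.1 this

/-- an arrow over a field starting in `Z` ends in `Z` -/
theorem Arr.closed (f : Arr a b) (hs : a.s = 0) (hx : a.x = 0) : b.s = 0 ∧ b.x = 0 := by
  obtain ⟨hz, hc⟩ := a.zc_zero hs hx
  have hN : f.N ≠ 0 := by
    intro h
    have h5 := f.f5
    rw [h, hs, hx] at h5
    simp [u, hz, hc] at h5
  have h1 := f.f1
  have h2 := f.f2
  constructor
  · have : b.s * f.N = 0 := by
      rw [hs] at h1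
      simp only [w, hz] at h1
      linear_combination h1
    exact (mul_eq_zero.1 this).resolve_right hN
  · have : b.x * f.N = 0 := by
      rw [hs, hx] at h2
      linear_combination -h2
    exact (mul_eq_zero.1 this).resolve_right hN

/-- an arrow over a field ending in `Z` starts in `Z` -/
theorem Arr.closed' (f : Arr a b) (hs : b.s = 0) (hx : b.x = 0) : a.s = 0 ∧ a.x = 0 := by
  have := f.swap.closed hs hx
  exact this

/-- two points of `U` over a field together with a value of `t`: `u` or `v E` does not vanish -/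
theorem u_or_vE (t : K) (r1 : t * u a b = m a b) (r2 : t * (q a b * E a b) = n a b)
    (ha : a.s ≠ 0 ∨ a.x ≠ 0) (hb : b.s ≠ 0 ∨ b.x ≠ 0) : u a b ≠ 0 ∨ v a b * E a b ≠ 0 := by
  by_contra hcon
  push Not at hcon
  obtain ⟨h1, h2⟩ := hcon
  have hra : a.r ≠ 0 := fun h => by have := a.hr; rw [h] at this; simp at this
  have hrb : b.r ≠ 0 := fun h => by have := b.hr; rw [h] at this; simp at this
  have hq : q a b ≠ 0 := mul_ne_zero hra hrb
  have hm : m a b = 0 := by rw [← r1, h1, mul_zero]
  have hxx : a.x * b.x = 0 := by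
    by_contra hne
    have hv : v a b ≠ 0 := by
      simp only [v]
      have ha := left_ne_zero_of_mul hne
      have hb := right_ne_zero_of_mul hne
      exact mul_ne_zero (mul_ne_zero hq (pow_ne_zero _ ha)) (pow_ne_zero _ hb)
    have hE : E a b ≠ 0 := by
      simp only [E, hm]
      have : (0 : K) ^ 3 + a.x ^ 3 * b.x ^ 3 = (a.x * b.x) ^ 3 := by ring
      rw [this]
      exact pow_ne_zero _ hne
    exact mul_ne_zero hv hE h2
  have hE0 : E a b = 0 := by
    simp only [E, hm]
    linear_combination (a.x * b.x) ^ 2 * hxx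
  have hn : n a b = 0 := by rw [← r2, hE0]; ring
  have hsq := u_sq_add_n_sq a b
  rw [h1, hn] at hsq
  have hxs : a.x = 0 ∧ b.x = 0 := by
    simp only [m] at hm
    rcases mul_eq_zero.1 hxx with h | h
    · refine ⟨h, ?_⟩
      rw [h] at hm
      have h' : a.s * b.x = 0 := by linear_combination hm
      rcases ha with ha | ha
      · exact (mul_eq_zero.1 h').resolve_left ha
      · exact absurd h ha
    · refine ⟨?_, h⟩
      rw [h] at hm
      have h' : a.x * b.s = 0 := by linear_combination hm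
      rcases hb with hb | hb
      · exact (mul_eq_zero.1 h').resolve_right hb
      · exact absurd h hb
  obtain ⟨hxa, hxb⟩ := hxs
  have hsa : a.s ≠ 0 := ha.resolve_right (by simp [hxa])
  have hsb : b.s ≠ 0 := hb.resolve_right (by simp [hxb])
  rw [hxa, hxb] at hsq
  have : q a b * (a.s ^ 4 * b.s ^ 4) = 0 := by linear_combination -hsq
  exact mul_ne_zero hq (mul_ne_zero (pow_ne_zero _ hsa) (pow_ne_zero _ hsb)) this

/-- `u ≠ 0` or `v ≠ 0` implies that both points are in `U` -/
theorem U_of_u (h : u a b ≠ 0 ∨ v a b ≠ 0) : (a.s ≠ 0 ∨ a.x ≠ 0) ∧ (b.s ≠ 0 ∨ b.x ≠ 0) := by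
  constructor
  · by_contra hcon
    push Not at hcon
    obtain ⟨hz, hc⟩ := a.zc_zero hcon.1 hcon.2
    rcases h with h | h
    · exact h (by simp [u, hz, hc])
    · exact h (by simp [v, hcon.2])
  · by_contra hcon
    push Not at hcon
    obtain ⟨hz, hc⟩ := b.zc_zero hcon.1 hcon.2
    rcases h with h | h
    · exact h (by simp [u, hz, hc])
    · exact h (by simp [v, hcon.2])

end ring

end Pool.Agent.AFP
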