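/-
MP_911691_ag: the addition law for the parameter `t` (certificates found by computer).
-/
import Pool.Agent.AFP.Arrow

attribute [local instance] Pool.Agent.AFP.instCommRingAW Pool.Agent.AFP.instAlgebraZModAW
  Pool.Agent.AFP.instAlgebraB2AW

set_option linter.all false

namespace Pool.Agent.AFP

section

variable {A : Type*} [CommRing A]

/-- the numerator of the addition law -/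
def addT {a b c : Pt A} (g : Arr a b) (g' : Arr b c) : A := b.r * (g.M * g'.t + g'.L * g.t)

/-- the denominator of the addition law -/
def ups {a b c : Pt A} (g : Arr a b) (g' : Arr b c) : A :=
  1 + a.r * b.r ^ 2 * c.r * g.t ^ 2 * g'.t ^ 2 *
    (m a b ^ 2 * m b c ^ 2 + a.x * b.x ^ 4 * c.x * m a c)

/-- `u_12^2 * M_12` -/
def tM (a b : Pt A) : A := b.s * P a b * u a b + m a b * b.x ^ 2 * w a b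
/-- `u_12^2 * L_12` -/
def tL (a b : Pt A) : A := a.s * P b a * u a b + m a b * a.x ^ 2 * w a b

/-- `u_12^2 u_23^2 addT` -/
def cT (a b c : Pt A) : A := b.r * (tM a b * m b c * u b c + tL b c * m a b * u a b)

/-- `u_12^2 u_23^2 ups` -/
def cU (a b c : Pt A) : A :=
  u a b ^ 2 * u b c ^ 2 + a.r * b.r ^ 2 * c.r * m a b ^ 2 * m b c ^ 2 *
    (m a b ^ 2 * m b c ^ 2 + a.x * b.x ^ 4 * c.x * m a c)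

variable [C2 A] {a b c : Pt A} (g : Arr a b) (g' : Arr b c)

theorem cT_eq : u a b ^ 2 * u b c ^ 2 * addT g g' = cT a b c := by
  have h1 : u a b ^ 2 * g.M = tM a b := by
    have h := g.r3
    have h' := g.r1
    simp only [tM]
    linear_combination u a b * h + b.x ^ 2 * w a b * h'
  have h2 : u b c ^ 2 * g'.L = tL b c := by
    have h := g'.r5
    have h' := g'.r1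
    simp only [tL]
    linear_combination u b c * h + b.x ^ 2 * w b c * h'
  simp only [cT, addT]
  linear_combination b.r * u b c ^ 2 * g'.t * h1 + b.r * tM a b * u b c * g'.r1 +
    b.r * u a b ^ 2 * g.t * h2 + b.r * tL b c * u a b * g.r1

theorem cU_eq : u a b ^ 2 * u b c ^ 2 * ups g g' = cU a b c := by
  have h1 : u a b ^ 2 * g.t ^ 2 = m a b ^ 2 := by rw [← g.r1]; ring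
  have h2 : u b c ^ 2 * g'.t ^ 2 = m b c ^ 2 := by rw [← g'.r1]; ring
  simp only [cU, ups]
  linear_combination (a.r * b.r ^ 2 * c.r * g'.t ^ 2 * u b c ^ 2 *
    (m a b ^ 2 * m b c ^ 2 + a.x * b.x ^ 4 * c.x * m a c)) * h1 +
    (a.r * b.r ^ 2 * c.r * m a b ^ 2 *
    (m a b ^ 2 * m b c ^ 2 + a.x * b.x ^ 4 * c.x * m a c)) * h2

theorem cT_u (a b c : Pt A) : cT a b c * u a c = cU a b c * m a c := by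
  simp only [cT, cU, tM, tL]
  refine c2_cases C2.two (fun hch => ?_)
  linear_combination (norm := skip) (a.s*b.s^4*b.z*b.c*b.r*c.x*c.z*c.c + a.s*b.s^4*b.c^2*b.r*c.x*c.c^2 +
    a.s*b.s*b.x^3*b.c^2*b.r*c.x*c.c^2 + a.s*b.x^4*b.z*b.c*b.r*c.s*c.z*c.c +
    a.s*b.z^2*b.c^2*c.x*c.z^2 + a.s*b.c^4*c.x*c.c^2 + a.x*b.s^4*b.z*b.c*b.r*c.s*c.z*c.c +
    a.x*b.s^4*b.c^2*b.r*c.s*c.c^2 + a.x*b.s^2*b.x^2*b.z*b.c*b.r*c.x*c.z*c.c +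
    a.x*b.s*b.x^3*b.c^2*b.r*c.s*c.c^2 + a.x*b.z^2*b.c^2*c.s*c.z^2 + a.x*b.c^4*c.s*c.c^2)*a.h2
    + (a.s*b.s^4*b.z^2*b.r*c.x*c.z*c.c + a.s*b.s^4*b.z*b.c*b.r*c.x*c.z^2 +
    a.s*b.s^4*b.z*b.c*b.r*c.x*c.c^2 + a.s*b.s^4*b.c^2*b.r*c.x*c.z*c.c +
    a.s*b.s*b.x^3*b.z^2*b.r*c.x*c.z*c.c + a.s*b.s*b.x^3*b.c^2*b.r*c.x*c.z*c.c +
    a.s*b.x^4*b.z*b.c*b.r*c.s*c.z^2 + a.s*b.x^4*b.z*b.c*b.r*c.s*c.c^2 +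
    a.x*b.s^4*b.z^2*b.r*c.s*c.z*c.c + a.x*b.s^4*b.z*b.c*b.r*c.s*c.z^2 +
    a.x*b.s^4*b.z*b.c*b.r*c.s*c.c^2 + a.x*b.s^4*b.c^2*b.r*c.s*c.z*c.c +
    a.x*b.s^2*b.x^2*b.z*b.c*b.r*c.x*c.z^2 + a.x*b.s^2*b.x^2*b.z*b.c*b.r*c.x*c.c^2 +
    a.x*b.s*b.x^3*b.z^2*b.r*c.s*c.z*c.c + a.x*b.s*b.x^3*b.c^2*b.r*c.s*c.z*c.c)*a.h1 +
    (a.s^5*a.r*b.s^4*b.r*c.x*c.z*c.c + a.s^5*a.r*b.x^4*b.r*c.s*c.z*c.c +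
    a.s^5*a.r*b.x^4*b.r*c.x*c.z^2 + a.s^5*a.r*b.x^4*b.r*c.x*c.c^2 +
    a.s^5*a.r*b.z*b.c*c.x*c.z^2 + a.s^5*a.r*b.z*b.c*c.x*c.c^2 +
    a.s^4*a.x*a.r*b.s^4*b.r*c.s*c.z*c.c + a.s^4*a.x*a.r*b.s^2*b.x^2*b.r*c.x*c.z*c.c +
    a.s^4*a.x*a.r*b.x^4*b.r*c.s*c.z^2 + a.s^4*a.x*a.r*b.x^4*b.r*c.s*c.c^2 +
    a.s^4*a.x*a.r*b.z*b.c*c.s*c.z^2 + a.s^4*a.x*a.r*b.z*b.c*c.s*c.c^2 +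
    a.s^2*a.x^3*a.r*b.s^4*b.r*c.x*c.z*c.c + a.s^2*a.x^3*a.r*b.x^4*b.r*c.s*c.z*c.c +
    a.s^2*a.x^3*a.r*b.x^4*b.r*c.x*c.z^2 + a.s^2*a.x^3*a.r*b.x^4*b.r*c.x*c.c^2 +
    a.s^2*a.x^3*a.r*b.z*b.c*c.x*c.z^2 + a.s^2*a.x^3*a.r*b.z*b.c*c.x*c.c^2 +
    a.s*a.x^4*a.r*b.s^4*b.r*c.s*c.z*c.c + a.s*a.x^4*a.r*b.s^4*b.r*c.x*c.z^2 +
    a.s*a.x^4*a.r*b.s^4*b.r*c.x*c.c^2 + a.s*a.x^4*a.r*b.s^2*b.x^2*b.r*c.x*c.z*c.c +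
    a.s*a.x^4*a.r*b.z*b.c*c.s*c.z^2 + a.s*a.x^4*a.r*b.z*b.c*c.s*c.c^2 +
    a.x^5*a.r*b.s^4*b.r*c.s*c.z^2 + a.x^5*a.r*b.s^4*b.r*c.s*c.c^2 +
    a.x^5*a.r*b.s^2*b.x^2*b.r*c.x*c.z^2 + a.x^5*a.r*b.s^2*b.x^2*b.r*c.x*c.c^2)*b.h1 +
    (a.s^5*a.r*b.c^2*c.x*c.c^2 + a.s^4*a.x*a.r*b.c^2*c.s*c.c^2 +
    a.s^2*a.x^3*a.r*b.c^2*c.x*c.c^2 + a.s*a.x^4*a.r*b.s^4*b.r*c.x*c.z*c.c +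
    a.s*a.x^4*a.r*b.s*b.x^3*b.r*c.x*c.z*c.c + a.s*a.x^4*a.r*b.c^2*c.s*c.c^2 +
    a.s*a.z^2*b.z^2*c.x*c.z^2 + a.s*a.z^2*b.c^2*c.x*c.c^2 + a.x^5*a.r*b.s^4*b.r*c.s*c.z*c.c +
    a.x^5*a.r*b.s*b.x^3*b.r*c.s*c.z*c.c + a.x*a.z^2*b.z^2*c.s*c.z^2 +
    a.x*a.z^2*b.c^2*c.s*c.c^2)*b.h2 + (a.s^5*a.r*b.s^4*b.x^4*b.r^2*c.x +
    a.s^5*a.r*b.x^8*b.r^2*c.s + a.s^4*a.x*a.r*b.s^4*b.x^4*b.r^2*c.s +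
    a.s^4*a.x*a.r*b.s^2*b.x^6*b.r^2*c.x + a.s^2*a.x^3*a.r*b.s^4*b.x^4*b.r^2*c.x +
    a.s^2*a.x^3*a.r*b.x^8*b.r^2*c.s + a.s*a.x^4*a.r*b.s^8*b.r^2*c.x +
    a.s*a.x^4*a.r*b.s^4*b.x^4*b.r^2*c.s + a.x^5*a.r*b.s^8*b.r^2*c.s +
    a.x^5*a.r*b.s^2*b.x^6*b.r^2*c.s)*c.h1 + (a.s^5*a.r*b.x^8*b.r^2*c.x +
    a.s^4*a.x*a.r*b.x^8*b.r^2*c.s + a.s^2*a.x^3*a.r*b.x^8*b.r^2*c.x +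
    a.s*a.x^4*a.r*b.s^4*b.x^4*b.r^2*c.x + a.x^5*a.r*b.s^4*b.x^4*b.r^2*c.s +
    a.x^5*a.r*b.s^2*b.x^6*b.r^2*c.x)*c.h2
  clear * - hch
  try simp only [m, w, w', u, n, q, P, E, v]
  grind

theorem cT_E (a b c : Pt A) : cT a b c * (q a c * E a c) = cU a b c * n a c := by
  simp only [cT, cU, tM, tL]
  refine c2_cases C2.two (fun hch => ?_)
  linear_combination (norm := skip) (a.z*b.z^4*c.z^2*c.c + a.z*b.z^2*b.c^2*c.c^3 + a.c*b.z^2*b.c^2*c.z^3 +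
    a.c*b.c^4*c.z*c.c^2)*a.h2 + (a.z*b.z^4*c.z^3 + a.z*b.z^2*b.c^2*c.z^3 +
    a.z*b.z^2*b.c^2*c.z*c.c^2 + a.z*b.c^4*c.z*c.c^2 + a.c*b.z^4*c.z^2*c.c +
    a.c*b.z^2*b.c^2*c.z^2*c.c + a.c*b.z^2*b.c^2*c.c^3 + a.c*b.c^4*c.c^3)*a.h1 +
    (a.s^4*a.z*a.r*b.z^2*c.z^2*c.c + a.s^4*a.c*a.r*b.s^4*b.r*c.x^4*c.c*c.r +
    a.s^4*a.c*a.r*b.s^4*b.r*c.z*c.c^2 + a.s^4*a.c*a.r*b.s*b.x^3*b.r*c.x^4*c.c*c.r +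
    a.s^4*a.c*a.r*b.s*b.x^3*b.r*c.z*c.c^2 + a.s^4*a.c*a.r*b.c^2*c.z*c.c^2 +
    a.s*a.x^3*a.z*a.r*b.z^2*c.z^2*c.c + a.s*a.x^3*a.c*a.r*b.s^4*b.r*c.x^4*c.c*c.r +
    a.s*a.x^3*a.c*a.r*b.s^4*b.r*c.z*c.c^2 + a.s*a.x^3*a.c*a.r*b.s*b.x^3*b.r*c.x^4*c.c*c.r +
    a.s*a.x^3*a.c*a.r*b.s*b.x^3*b.r*c.z*c.c^2 + a.s*a.x^3*a.c*a.r*b.c^2*c.z*c.c^2 +
    a.x^4*a.z*a.r*b.s^4*b.r*c.z*c.c^2 + a.x^4*a.z*a.r*b.s*b.x^3*b.r*c.z*c.c^2 +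
    a.x^4*a.z*a.r*b.z^2*c.z^3 + a.x^4*a.z*a.r*b.c^2*c.z*c.c^2 +
    a.x^4*a.c*a.r*b.s^4*b.r*c.s^4*c.c*c.r + a.x^4*a.c*a.r*b.s^4*b.r*c.s*c.x^3*c.c*c.r +
    a.x^4*a.c*a.r*b.s^4*b.r*c.c^3 + a.x^4*a.c*a.r*b.s*b.x^3*b.r*c.s^4*c.c*c.r +
    a.x^4*a.c*a.r*b.s*b.x^3*b.r*c.s*c.x^3*c.c*c.r + a.x^4*a.c*a.r*b.s*b.x^3*b.r*c.c^3 +
    a.x^4*a.c*a.r*b.z^2*c.z^2*c.c + a.x^4*a.c*a.r*b.c^2*c.c^3)*b.h2 +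
    (a.s^4*a.z*a.r*b.s^4*b.r*c.x^4*c.c*c.r + a.s^4*a.z*a.r*b.x^4*b.r*c.s*c.x^3*c.c*c.r +
    a.s^4*a.z*a.r*b.x^4*b.r*c.z^2*c.c + a.s^4*a.z*a.r*b.x^4*b.r*c.c^3 +
    a.s^4*a.z*a.r*b.z*b.c*c.z^2*c.c + a.s^4*a.z*a.r*b.z*b.c*c.c^3 +
    a.s^4*a.c*a.r*b.s^4*b.r*c.x^4*c.z*c.r + a.s^4*a.c*a.r*b.x^4*b.r*c.s*c.x^3*c.z*c.r +
    a.s^4*a.c*a.r*b.x^4*b.r*c.z^3 + a.s^4*a.c*a.r*b.x^4*b.r*c.z*c.c^2 +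
    a.s^4*a.c*a.r*b.z*b.c*c.z^3 + a.s^4*a.c*a.r*b.z*b.c*c.z*c.c^2 +
    a.s^3*a.x*a.z*a.r*b.s^2*b.x^2*b.r*c.x^4*c.c*c.r +
    a.s^3*a.x*a.z*a.r*b.x^4*b.r*c.s^2*c.x^2*c.c*c.r +
    a.s^3*a.x*a.c*a.r*b.s^2*b.x^2*b.r*c.x^4*c.z*c.r +
    a.s^3*a.x*a.c*a.r*b.x^4*b.r*c.s^2*c.x^2*c.z*c.r +
    a.s^2*a.x^2*a.z*a.r*b.s^2*b.x^2*b.r*c.s*c.x^3*c.c*c.r +
    a.s^2*a.x^2*a.z*a.r*b.x^4*b.r*c.s^3*c.x*c.c*c.r +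
    a.s^2*a.x^2*a.c*a.r*b.s^2*b.x^2*b.r*c.s*c.x^3*c.z*c.r +
    a.s^2*a.x^2*a.c*a.r*b.x^4*b.r*c.s^3*c.x*c.z*c.r +
    a.s*a.x^3*a.z*a.r*b.s^4*b.r*c.x^4*c.c*c.r +
    a.s*a.x^3*a.z*a.r*b.s^2*b.x^2*b.r*c.s^2*c.x^2*c.c*c.r +
    a.s*a.x^3*a.z*a.r*b.x^4*b.r*c.s^4*c.c*c.r + a.s*a.x^3*a.z*a.r*b.x^4*b.r*c.s*c.x^3*c.c*c.r
    + a.s*a.x^3*a.z*a.r*b.x^4*b.r*c.z^2*c.c + a.s*a.x^3*a.z*a.r*b.x^4*b.r*c.c^3 +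
    a.s*a.x^3*a.z*a.r*b.z*b.c*c.z^2*c.c + a.s*a.x^3*a.z*a.r*b.z*b.c*c.c^3 +
    a.s*a.x^3*a.c*a.r*b.s^4*b.r*c.x^4*c.z*c.r +
    a.s*a.x^3*a.c*a.r*b.s^2*b.x^2*b.r*c.s^2*c.x^2*c.z*c.r +
    a.s*a.x^3*a.c*a.r*b.x^4*b.r*c.s^4*c.z*c.r + a.s*a.x^3*a.c*a.r*b.x^4*b.r*c.s*c.x^3*c.z*c.r
    + a.s*a.x^3*a.c*a.r*b.x^4*b.r*c.z^3 + a.s*a.x^3*a.c*a.r*b.x^4*b.r*c.z*c.c^2 +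
    a.s*a.x^3*a.c*a.r*b.z*b.c*c.z^3 + a.s*a.x^3*a.c*a.r*b.z*b.c*c.z*c.c^2 +
    a.x^4*a.z*a.r*b.s^4*b.r*c.s^4*c.c*c.r + a.x^4*a.z*a.r*b.s^4*b.r*c.s*c.x^3*c.c*c.r +
    a.x^4*a.z*a.r*b.s^2*b.x^2*b.r*c.s^3*c.x*c.c*c.r +
    a.x^4*a.z*a.r*b.s^2*b.x^2*b.r*c.x^4*c.c*c.r + a.x^4*a.c*a.r*b.s^4*b.r*c.s^4*c.z*c.r +
    a.x^4*a.c*a.r*b.s^4*b.r*c.s*c.x^3*c.z*c.r +
    a.x^4*a.c*a.r*b.s^2*b.x^2*b.r*c.s^3*c.x*c.z*c.r +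
    a.x^4*a.c*a.r*b.s^2*b.x^2*b.r*c.x^4*c.z*c.r)*b.h1 + (a.s^4*a.z*a.r*b.x^8*b.r^2*c.c +
    a.s^4*a.c*a.r*b.x^8*b.r^2*c.z + a.s*a.x^3*a.z*a.r*b.x^8*b.r^2*c.c +
    a.s*a.x^3*a.c*a.r*b.x^8*b.r^2*c.z + a.x^4*a.z*a.r*b.s^4*b.z^2*b.r*c.z +
    a.x^4*a.z*a.r*b.s*b.x^3*b.z^2*b.r*c.z + a.x^4*a.c*a.r*b.s^8*b.r^2*c.c +
    a.x^4*a.c*a.r*b.s^4*b.z^2*b.r*c.c + a.x^4*a.c*a.r*b.s^2*b.x^6*b.r^2*c.c +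
    a.x^4*a.c*a.r*b.s*b.x^3*b.z^2*b.r*c.c)*c.h2 + (a.s^4*a.z*a.r*b.s^4*b.z^2*b.r*c.z +
    a.s^4*a.z*a.r*b.s*b.x^3*b.z^2*b.r*c.z + a.s^4*a.c*a.r*b.s^8*b.r^2*c.c +
    a.s^4*a.c*a.r*b.s^4*b.z^2*b.r*c.c + a.s^4*a.c*a.r*b.s^2*b.x^6*b.r^2*c.c +
    a.s^4*a.c*a.r*b.s*b.x^3*b.z^2*b.r*c.c + a.s*a.x^3*a.z*a.r*b.s^4*b.z^2*b.r*c.z +
    a.s*a.x^3*a.z*a.r*b.s*b.x^3*b.z^2*b.r*c.z + a.s*a.x^3*a.c*a.r*b.s^8*b.r^2*c.c +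
    a.s*a.x^3*a.c*a.r*b.s^4*b.z^2*b.r*c.c + a.s*a.x^3*a.c*a.r*b.s^2*b.x^6*b.r^2*c.c +
    a.s*a.x^3*a.c*a.r*b.s*b.x^3*b.z^2*b.r*c.c + a.x^4*a.z*a.r*b.s^8*b.r^2*c.c +
    a.x^4*a.z*a.r*b.s^2*b.x^6*b.r^2*c.c + a.x^4*a.c*a.r*b.s^8*b.r^2*c.z +
    a.x^4*a.c*a.r*b.s^2*b.x^6*b.r^2*c.z)*c.h1
  clear * - hch
  try simp only [m, w, w', u, n, q, P, E, v]
  grind

/-- first addition identity -/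
theorem add_u : u a b ^ 2 * u b c ^ 2 * (addT g g' * u a c) =
    u a b ^ 2 * u b c ^ 2 * (ups g g' * m a c) := by
  rw [← mul_assoc, cT_eq, ← mul_assoc, cU_eq, cT_u]

/-- second addition identity -/
theorem add_E : u a b ^ 2 * u b c ^ 2 * (addT g g' * (q a c * E a c)) =
    u a b ^ 2 * u b c ^ 2 * (ups g g' * n a c) := by
  rw [← mul_assoc _ (addT g g'), cT_eq, ← mul_assoc _ (ups g g'), cU_eq, cT_E]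

end

end Pool.Agent.AFP
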