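/-
MP_911691_ag, module M-HART: division by two elements generating an ideal of grade two;
composition of arrows at the level of rings.
-/
import Pool.Agent.AFP.FieldW
import Pool.Agent.AFP.IdC
import Pool.Agent.AFP.Univ

attribute [local instance] Pool.Agent.AFP.instCommRingAW Pool.Agent.AFP.instAlgebraZModAW
  Pool.Agent.AFP.instAlgebraB2AW

set_option linter.all false

namespace Pool.Agent.AFP

section

variable {A : Type*} [CommRing A]

/-- `(σ, ξ)` is a regular sequence -/
structure Reg2 (σ ξ : A) : Prop where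
  h1 : ∀ y : A, σ * y = 0 → y = 0
  h2 : ∀ y z : A, ξ * y = σ * z → ∃ y', y = σ * y'

theorem reg_cancel {σ : A} (h : ∀ y : A, σ * y = 0 → y = 0) {y z : A} (e : σ * y = σ * z) :
    y = z := by
  have := h (y - z) (by rw [mul_sub, e, sub_self])
  exact sub_eq_zero.1 this

theorem reg_pow {σ : A} (h : ∀ y : A, σ * y = 0 → y = 0) (k : ℕ) :
    ∀ y : A, σ ^ k * y = 0 → y = 0 := by
  induction k with
  | zero => intro y hy; simpa using hy
  | succ k ih =>
    intro y hy
    rw [pow_succ, mul_assoc] at hy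
    exact h _ (ih _ hy)

theorem Reg2.pow_left {σ ξ : A} (R : Reg2 σ ξ) (k : ℕ) :
    ∀ y z : A, ξ * y = σ ^ k * z → ∃ y', y = σ ^ k * y' := by
  induction k with
  | zero => intro y z _; exact ⟨y, by simp⟩
  | succ k ih =>
    intro y z hy
    obtain ⟨y1, rfl⟩ := R.h2 y (σ ^ k * z) (by rw [hy]; ring)
    obtain ⟨y2, rfl⟩ := ih y1 z (by
      apply reg_cancel R.h1
      linear_combination hy)
    exact ⟨y2, by ring⟩

theorem Reg2.pow {σ ξ : A} (R : Reg2 σ ξ) (k l : ℕ) :
    ∀ y z : A, ξ ^ l * y = σ ^ k * z → ∃ y', y = σ ^ k * y' := by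
  induction l with
  | zero => intro y z h; exact ⟨z, by simpa using h⟩
  | succ l ih =>
    intro y z hy
    obtain ⟨z', hz'⟩ := R.pow_left k (ξ ^ l * y) z (by rw [← hy]; ring)
    exact ih y z' hz'

/-- Koszul division: if `σ, ξ` are in the radical of `(g, h)`, simultaneous division by `g, h`. -/
theorem Reg2.kos {σ ξ : A} (R : Reg2 σ ξ) {g h : A} (hσ : σ ∈ (Ideal.span {g, h}).radical)
    (hξ : ξ ∈ (Ideal.span {g, h}).radical) (α β : A) (e : g * β = h * α) :
    ∃ y, g * y = α ∧ h * y = β := by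
  obtain ⟨k, hk⟩ := hσ
  obtain ⟨l, hl⟩ := hξ
  obtain ⟨p, p', hp⟩ := Ideal.mem_span_pair.1 hk
  obtain ⟨r, r', hr⟩ := Ideal.mem_span_pair.1 hl
  have hk' := reg_pow R.h1 k
  have h0 : ξ ^ l * (p * α + p' * β) - σ ^ k * (r * α + r' * β) = 0 := by
    apply hk'
    have e1 : g * (ξ ^ l * (p * α + p' * β) - σ ^ k * (r * α + r' * β)) = 0 := by
      rw [← hp, ← hr]
      linear_combination ((r * g + r' * h) * p' - (p * g + p' * h) * r') * e
    have e2 : h * (ξ ^ l * (p * α + p' * β) - σ ^ k * (r * α + r' * β)) = 0 := by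
      rw [← hp, ← hr]
      linear_combination (-(r * g + r' * h) * p + (p * g + p' * h) * r) * e
    generalize ξ ^ l * (p * α + p' * β) - σ ^ k * (r * α + r' * β) = X at e1 e2
    rw [← hp]
    linear_combination p * e1 + p' * e2
  obtain ⟨y, hy⟩ := R.pow k l (p * α + p' * β) (r * α + r' * β) (sub_eq_zero.1 h0)
  refine ⟨y, ?_, ?_⟩
  · apply reg_cancel hk'
    have : σ ^ k * (g * y) = g * (p * α + p' * β) := by rw [hy]; ring
    rw [this, ← hp]
    linear_combination p' * e
  · apply reg_cancel hk'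
    have : σ ^ k * (h * y) = h * (p * α + p' * β) := by rw [hy]; ring
    rw [this, ← hp]
    linear_combination -p * e

theorem Reg2.tors {σ ξ : A} (R : Reg2 σ ξ) {g h : A} (hσ : σ ∈ (Ideal.span {g, h}).radical)
    (y : A) (h1 : ∃ k : ℕ, g ^ k * y = 0) (h2 : ∃ k : ℕ, h ^ k * y = 0) : y = 0 := by
  have hle : Ideal.span {g, h} ≤ (Ideal.torsionOf A A y).radical := by
    rw [Ideal.span_le]
    rintro x (rfl | rfl)
    · obtain ⟨k, hk⟩ := h1
      exact ⟨k, by simpa [Ideal.mem_torsionOf_iff] using hk⟩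
    · obtain ⟨k, hk⟩ := h2
      exact ⟨k, by simpa [Ideal.mem_torsionOf_iff] using hk⟩
  have hle' : (Ideal.span {g, h}).radical ≤ (Ideal.torsionOf A A y).radical :=
    (Ideal.radical_mono hle).trans (by rw [Ideal.radical_idem])
  obtain ⟨k, hk⟩ := hle' hσ
  rw [Ideal.mem_torsionOf_iff, smul_eq_mul] at hk
  exact reg_pow R.h1 k y hk

theorem Reg2.iff_isWeaklyRegular {σ ξ : A} :
    Reg2 σ ξ ↔ RingTheory.Sequence.IsWeaklyRegular A [σ, ξ] := by
  rw [RingTheory.Sequence.isWeaklyRegular_cons_iff,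
    RingTheory.Sequence.isWeaklyRegular_singleton_iff,
    isSMulRegular_quotient_iff_mem_of_smul_mem]
  constructor
  · intro R
    refine ⟨?_, ?_⟩
    · intro y z h
      exact reg_cancel R.h1 h
    · intro y hy
      rw [Submodule.mem_smul_pointwise_iff_exists] at hy ⊢
      obtain ⟨z, -, hz⟩ := hy
      obtain ⟨y', rfl⟩ := R.h2 y z hz.symm
      exact ⟨y', trivial, rfl⟩
  · rintro ⟨h1, h2⟩
    refine ⟨fun y hy => ?_, fun y z h => ?_⟩
    · apply h1
      simpa using hy
    · have := h2 y (by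
        rw [Submodule.mem_smul_pointwise_iff_exists]
        exact ⟨z, trivial, h.symm⟩)
      rw [Submodule.mem_smul_pointwise_iff_exists] at this
      obtain ⟨y', -, hy'⟩ := this
      exact ⟨y', hy'.symm⟩

/-- flat base change of a regular sequence -/
theorem Reg2.of_flat {A' : Type*} [CommRing A'] {σ ξ : A} (R : Reg2 σ ξ) (φ : A →+* A')
    (hφ : φ.Flat) : Reg2 (φ σ) (φ ξ) := by
  algebraize [φ]
  have := Reg2.iff_isWeaklyRegular.1 R
  exact Reg2.iff_isWeaklyRegular.2 this.of_flat

/-- flat base change of a regular element -/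
theorem reg_of_flat {A' : Type*} [CommRing A'] {σ : A} (R : ∀ y : A, σ * y = 0 → y = 0)
    (φ : A →+* A') (hφ : φ.Flat) : ∀ y : A', φ σ * y = 0 → y = 0 := by
  algebraize [φ]
  have h : IsSMulRegular A σ := fun y z h => reg_cancel R h
  have h' : IsSMulRegular A' (algebraMap A A' σ) := h.of_flat
  intro y hy
  apply h'
  change φ σ * y = φ σ * 0
  rw [hy, mul_zero]

end

/-- Composition of arrows at the level of rings. -/
theorem compRing {A : Type*} [CommRing A] [C2 A] {a b c : Pt A} (g : Arr a b) (g' : Arr b c)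
    (hu : IsUnit (ups g g')) (R : Reg2 b.s b.x) (h12 : ∀ y, u a b * y = 0 → y = 0)
    (h23 : ∀ y, u b c * y = 0 → y = 0) : Nonempty (Arr a c) := by
  obtain ⟨ν, hν⟩ := hu.exists_right_inv
  have hc : ∀ y z : A, u a b ^ 2 * u b c ^ 2 * y = u a b ^ 2 * u b c ^ 2 * z → y = z := by
    intro y z h
    rw [mul_assoc, mul_assoc] at h
    exact reg_cancel (reg_pow h23 2) (reg_cancel (reg_pow h12 2) h)
  have r1 : addT g g' * ν * u a c = m a c := by
    have := hc _ _ (add_u g g')
    calc addT g g' * ν * u a c = ν * (addT g g' * u a c) := by ring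
      _ = (ups g g' * ν) * m a c := by rw [this]; ring
      _ = m a c := by rw [hν, one_mul]
  have r2 : addT g g' * ν * (q a c * E a c) = n a c := by
    have := hc _ _ (add_E g g')
    calc addT g g' * ν * (q a c * E a c) = ν * (addT g g' * (q a c * E a c)) := by ring
      _ = (ups g g' * ν) * n a c := by rw [this]; ring
      _ = n a c := by rw [hν, one_mul]
  have key : ∀ p : Ideal A, p.IsPrime → u a c ∈ p → v a c ∈ p → b.s ∈ p ∧ b.x ∈ p := by
    intro p hp hup hvp
    let φ : A →+* p.ResidueField := algebraMap A p.ResidueField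
    have hφ : ∀ x, φ x = 0 ↔ x ∈ p := fun x => Ideal.algebraMap_residueField_eq_zero
    have : C2 p.ResidueField := C2.ofHom φ
    by_contra hcon
    have hb : (b.map φ).s ≠ 0 ∨ (b.map φ).x ≠ 0 := by
      by_contra hcon'
      push Not at hcon'
      exact hcon ⟨(hφ _).1 hcon'.1, (hφ _).1 hcon'.2⟩
    have ha : (a.map φ).s ≠ 0 ∨ (a.map φ).x ≠ 0 := by
      by_contra hcon'
      push Not at hcon'
      have := (g.map φ).closed hcon'.1 hcon'.2
      rcases hb with hb | hb
      · exact hb this.1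
      · exact hb this.2
    have hcc : (c.map φ).s ≠ 0 ∨ (c.map φ).x ≠ 0 := by
      by_contra hcon'
      push Not at hcon'
      have := (g'.map φ).closed' hcon'.1 hcon'.2
      rcases hb with hb | hb
      · exact hb this.1
      · exact hb this.2
    have r1' := congrArg φ r1
    have r2' := congrArg φ r2
    simp only [map_mul, map_u, map_m, map_q, map_E, map_n] at r1' r2'
    rw [← map_mul] at r1' r2'
    have hu0 : u (a.map φ) (c.map φ) = 0 := by rw [← map_u]; exact (hφ _).2 hup
    have hv0 : v (a.map φ) (c.map φ) = 0 := by rw [← map_v]; exact (hφ _).2 hvp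
    rcases u_or_vE _ r1' r2' ha hcc with h | h
    · exact h hu0
    · exact h (by rw [hv0, zero_mul])
  have rad : ∀ h : A, h ∣ v a c → b.s ∈ (Ideal.span {u a c, h}).radical ∧
      b.x ∈ (Ideal.span {u a c, h}).radical := by
    intro h hh
    have H : ∀ p : Ideal A, p.IsPrime → Ideal.span {u a c, h} ≤ p → b.s ∈ p ∧ b.x ∈ p := by
      intro p hp hle
      have h1 : u a c ∈ p := hle (Ideal.subset_span (by simp))
      have h2 : h ∈ p := hle (Ideal.subset_span (by simp))
      exact key p hp h1 (Ideal.mem_of_dvd p hh h2)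
    constructor
    · rw [Ideal.radical_eq_sInf, Ideal.mem_sInf]
      intro p hp
      exact (H p hp.2 hp.1).1
    · rw [Ideal.radical_eq_sInf, Ideal.mem_sInf]
      intro p hp
      exact (H p hp.2 hp.1).2
  have radv := rad (v a c) dvd_rfl
  have rada := rad a.x ⟨q a c * a.x * c.x ^ 2, by simp only [v]; ring⟩
  have radc := rad c.x ⟨q a c * a.x ^ 2 * c.x, by simp only [v]; ring⟩
  obtain ⟨f, -⟩ := PreArr.exists_of_kos (a := a) (b := c) _ r1 r2
    (fun α β e => R.kos radv.1 radv.2 α β e)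
    (fun α β e => R.kos rada.1 rada.2 α β e)
    (fun α β e => R.kos radc.1 radc.2 α β e)
  exact ⟨f.toArr (fun y h1 h2 => R.tors radv.1 y h1 h2)⟩

end Pool.Agent.AFP
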