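/-
MP_911691_ag: the etale chart near the closed orbit (certificates found by computer).
-/
import Pool.Agent.AFP.Arrow

attribute [local instance] Pool.Agent.AFP.instCommRingAW Pool.Agent.AFP.instAlgebraZModAW
  Pool.Agent.AFP.instAlgebraB2AW

set_option linter.all false

namespace Pool.Agent.AFP

/-- A point of the chart: nine quantities with six relations. -/
@[ext] structure Chart {A : Type*} [CommRing A] (a : Pt A) where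
  S : A
  X : A
  Z : A
  C : A
  R : A
  t : A
  M : A
  N : A
  L : A
  f1 : S * N + a.s * M = t ^ 2 * X * (a.z * Z)
  f2 : a.x * M = X * (N + t * a.x * X) + t * a.s * S ^ 2
  fQ : N * (N + t * a.x * X) + M * L = t ^ 3 * a.s * S * (a.z * Z)
  f3 : N * a.z + a.r * L * (L + t * a.x ^ 2) * Z =
    t ^ 2 * (a.r * R) * a.c * (a.s ^ 2 * X ^ 2 * (N + t * a.x * X) + a.x ^ 2 * S ^ 2 * N)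
  f4 : (N + t * a.x * X) * a.c + a.r * L * (L + t * a.x ^ 2) * C =
    t ^ 2 * (a.r * R) * a.z * (a.s ^ 2 * X ^ 2 * N + a.x ^ 2 * S ^ 2 * (N + t * a.x * X))
  f5 : (a.r * R) * (N * (N + t * a.x * X) + t ^ 3 * a.s * S * (a.z * Z + a.c * C) +
    (a.r * R) * t ^ 8 * (a.z * Z + a.c * C) ^ 4) = 1

namespace Chart

variable {A : Type*} [CommRing A] {a : Pt A} (g : Chart a)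

/-- `m` -/
def m : A := a.s * g.X + a.x * g.S
/-- `u` -/
def u : A := a.z * g.Z + a.c * g.C
/-- `n` -/
def n : A := a.z * g.C + a.c * g.Z
/-- `P` -/
def P : A := a.s * g.S ^ 2 + a.x * g.X ^ 2
/-- `P*` -/
def Ps : A := a.s ^ 2 * g.S + a.x ^ 2 * g.X
/-- `E` -/
def E : A := g.m ^ 3 + a.x ^ 3 * g.X ^ 3
/-- `G` -/
def G : A := a.r * g.L * (g.L + g.t * a.x ^ 2)
/-- `N'` -/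
def N' : A := g.N + g.t * a.x * g.X
/-- `Theta` -/
def Th : A := a.s ^ 2 * g.X ^ 2 * g.N' + a.x ^ 2 * g.S ^ 2 * g.N
/-- conjugate of `Theta` -/
def Tc : A := a.s ^ 2 * g.X ^ 2 * g.N + a.x ^ 2 * g.S ^ 2 * g.N'
/-- defect of `r1` -/
def d1 : A := g.t * g.u + g.m
/-- defect of `r4` -/
def d : A := g.N * g.u + a.s * g.P + g.t * a.x * g.X * (a.z * g.Z)
/-- defect of `r2` -/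
def d2 : A := g.n + (a.r * g.R) * g.t * g.E
/-- defect of `r3` -/
def d3 : A := g.M * g.u + g.S * g.P + g.t * g.X ^ 2 * (a.z * g.Z)
/-- defect of `r5` -/
def d5 : A := g.L * g.u + a.s * g.Ps + g.t * a.x ^ 2 * (a.z * g.Z)
/-- defect of `h1` -/
def e1 : A := g.Z * g.C + g.R * g.X ^ 4
/-- defect of `h2` -/
def e2 : A := g.Z ^ 2 + g.C ^ 2 + g.R * (g.S ^ 4 + g.S * g.X ^ 3)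
/-- defect of `f1s` -/
def e1s : A := a.s * g.N' + g.S * g.L + g.t ^ 2 * a.x * (a.z * g.Z)
/-- defect of `f2s` -/
def e2s : A := a.x * g.N + g.X * g.L + g.t * a.s ^ 2 * g.S
/-- auxiliary relation -/
def E5 : A := a.r * g.R * g.M * (g.M + g.t * g.X ^ 2) * g.L * (g.L + g.t * a.x ^ 2) +
  g.N * g.N' + g.t ^ 4 * (a.r * g.R) ^ 2 * g.Th * g.Tc
/-- defect of `r6` -/
def d6 : A := (a.r * g.R) * a.x ^ 2 * g.X ^ 2 * g.N + a.c * g.Z +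
  g.t ^ 2 * (a.r * g.R) * (a.s ^ 2 * g.X ^ 2 * (a.c * g.C) + a.x ^ 2 * g.S ^ 2 * (a.z * g.Z))
/-- defect of `f3s` -/
def d3s : A := g.N' * g.Z + g.R * g.M * (g.M + g.t * g.X ^ 2) * a.z +
  g.t ^ 2 * (a.r * g.R) * g.C * g.Th
/-- defect of `f4s` -/
def d4s : A := g.N * g.C + g.R * g.M * (g.M + g.t * g.X ^ 2) * a.c +
  g.t ^ 2 * (a.r * g.R) * g.Z * g.Tc


variable [C2 A]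
include g

theorem M_e1s : g.M * g.e1s = 0 := by
  refine c2_cases C2.two (fun hch => ?_)
  linear_combination (norm := skip) (g.S)*g.fQ + (a.x*g.X*g.t + g.N)*g.f1 + (a.z*g.Z*g.t^2)*g.f2
  clear * - hch
  simp only [d1, d, d2, d3, d5, e1, e2, e1s, e2s, E5, d6, d3s, d4s, Th, Tc, N', G,
    E, Ps, P, n, u, m]
  grind

theorem M_e2s : g.M * g.e2s = 0 := by
  refine c2_cases C2.two (fun hch => ?_)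
  linear_combination (norm := skip) (g.X)*g.fQ + (g.N)*g.f2 + (a.s*g.S*g.t)*g.f1
  clear * - hch
  simp only [d1, d, d2, d3, d5, e1, e2, e1s, e2s, E5, d6, d3s, d4s, Th, Tc, N', G,
    E, Ps, P, n, u, m]
  grind

theorem N_d1 : g.N * g.d1 = g.t * g.d := by
  refine c2_cases C2.two (fun hch => ?_)
  linear_combination (norm := skip) (a.x)*g.f1 + (a.s)*g.f2
  clear * - hch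
  simp only [d1, d, d2, d3, d5, e1, e2, e1s, e2s, E5, d6, d3s, d4s, Th, Tc, N', G,
    E, Ps, P, n, u, m]
  grind

theorem G_d (he1s : g.e1s = 0) (he2s : g.e2s = 0) : g.G * g.d =
    a.r * g.t ^ 3 * a.s ^ 2 * a.x ^ 2 * (a.z * g.Z) * g.d1 +
    a.r ^ 2 * g.t ^ 4 * a.s ^ 2 * a.x ^ 6 * g.e1 := by
  refine c2_cases C2.two (fun hch => ?_)
  linear_combination (norm := skip) (a.x*a.z*g.X*g.t + a.z*g.N)*g.f3 + (a.c*g.N)*g.f4 + (a.x*g.X*g.t*g.N + g.N^2)*a.h2 +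
    (a.s^2*a.x^2*a.r*g.X^4*g.R*g.t^4 + a.s^2*a.x^2*a.r*g.Z*g.C*g.t^4)*a.h1 +
    (a.s^3*a.x*a.r*g.X*g.t + a.s^3*a.r*g.N + a.s^2*a.x^2*a.r*g.S*g.t +
    a.s^2*a.x*a.z*a.r*g.Z*g.t^2 + a.s^2*a.r*g.S*g.L)*he1s + (a.s^3*a.x*a.r*g.S*g.t +
    a.s*a.x^3*a.r*g.X*g.t + a.s*a.x^2*a.r*g.N + a.s*a.x*a.r*g.X*g.L)*he2s +
    (a.s^3*a.x^2*a.r*g.t)*g.f1 + (a.s^4*a.x*a.r*g.t)*g.f2
  clear * - hch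
  simp only [d1, d, d2, d3, d5, e1, e2, e1s, e2s, E5, d6, d3s, d4s, Th, Tc, N', G,
    E, Ps, P, n, u, m]
  grind

theorem G_e1 (he1s : g.e1s = 0) (he2s : g.e2s = 0) : g.G ^ 2 * g.e1 =
    g.t ^ 2 * (a.r * g.R) * g.G * (g.m ^ 2 * g.d + a.s ^ 2 * a.x * g.X ^ 3 * g.d1) +
    a.z * a.c * ((a.r * g.R) * (g.t ^ 2 * a.s * g.S * g.N * g.N' + g.t ^ 5 * a.s ^ 2 * g.S ^ 2 * (a.z * g.Z)) * g.d1 +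
      g.t ^ 6 * a.s ^ 2 * g.S ^ 2 * (a.r * g.R) * a.r * a.x ^ 4 * g.e1 +
      (a.r * g.R) ^ 2 * g.N * g.N' * g.t ^ 4 * g.d1 ^ 4) := by
  refine c2_cases C2.two (fun hch => ?_)
  linear_combination (norm := skip) (a.s^2*a.z*a.r*g.X^2*g.R*g.t^2*g.N + a.x^3*a.z*a.r*g.S^2*g.X*g.R*g.t^3 +
    a.x^2*a.z*a.r*g.S^2*g.R*g.t^2*g.N + a.x^2*a.r*g.C*g.t*g.L + a.r*g.C*g.L^2)*g.f3 +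
    (a.z*g.N)*g.f4 + (a.x*a.z*a.c*g.X*g.t*g.N + a.z*a.c*g.N^2)*g.f5 +
    (a.s^2*a.z*a.c*a.r*g.S*g.X*g.R*g.t^2 + a.s*a.x*a.z*a.c*a.r*g.S^2*g.R*g.t^2 +
    a.s*a.z^2*a.c*a.r*g.S*g.Z*g.R*g.t^3 + a.x*a.z*a.c*a.r*g.X*g.R*g.t*g.N +
    a.z*a.c*a.r*g.R*g.M*g.L + a.z*a.c*a.r*g.R*g.N^2)*g.fQ +
    (a.s*a.x^4*a.r^2*g.S^2*g.R*g.t^2*g.L + a.s*a.x^2*a.r^2*g.S^2*g.R*g.t*g.L^2 +
    a.x^5*a.r^2*g.R*g.t*g.M*g.L + a.x^4*a.r^2*g.X*g.R*g.t*g.N*g.L + a.x^3*a.r^2*g.R*g.M*g.L^2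
    + a.x^2*a.r^2*g.X*g.R*g.N*g.L^2 + a.x*a.z*a.c*a.r*g.R*g.t*g.M*g.L)*g.f2 +
    (a.s^2*a.x^2*a.r^2*g.S*g.X^2*g.R*g.t^2*g.L + a.s^2*a.r^2*g.S*g.X^2*g.R*g.t*g.L^2 +
    a.x^4*a.r^2*g.X^3*g.R*g.t^2*g.L + a.x^3*a.r^2*g.X^2*g.R*g.t*g.N*g.L +
    a.x*a.r^2*g.X^2*g.R*g.N*g.L^2 + a.z*a.c*a.r*g.X*g.R*g.t*g.M*g.L +
    a.r^2*g.X^3*g.R*g.L^3)*he2s + (a.s^2*a.z*a.c*a.r*g.S^2*g.Z*g.C*g.R*g.t^6 +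
    a.x^2*a.r*g.X^2*g.R*g.t^2*g.M*g.L + a.x^2*a.r*g.R*g.t*g.M^2*g.L +
    a.r*g.X^2*g.R*g.t*g.M*g.L^2 + a.r*g.R*g.M^2*g.L^2)*a.h1
  clear * - hch
  simp only [d1, d, d2, d3, d5, e1, e2, e1s, e2s, E5, d6, d3s, d4s, Th, Tc, N', G,
    E, Ps, P, n, u, m]
  grind

theorem E5_eq (he1s : g.e1s = 0) (he2s : g.e2s = 0)
    (hd1 : g.d1 = 0) (hep1 : g.e1 = 0) : g.E5 = 0 := by
  refine c2_cases C2.two (fun hch => ?_)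
  linear_combination (norm := skip) (a.x*g.X*g.t*g.N + g.N^2)*g.f5 + (a.s^3*a.x*a.r^2*g.X^4*g.R^2*g.t^5*g.N +
    a.s^3*a.r^2*g.X^3*g.R^2*g.t^4*g.N^2 + a.s^2*a.x^2*a.r^2*g.S*g.X^3*g.R^2*g.t^5*g.N +
    a.s^2*a.x*a.z*a.r^2*g.X^3*g.Z*g.R^2*g.t^6*g.N +
    a.s^2*a.x*a.c*a.r^2*g.X^3*g.C*g.R^2*g.t^6*g.N +
    a.s^2*a.x*a.r^2*g.S*g.X^2*g.R^2*g.t^4*g.N^2 + a.s^2*a.z*a.r^2*g.X^2*g.Z*g.R^2*g.t^5*g.N^2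
    + a.s^2*a.z*a.r*g.S^2*g.Z*g.R*g.t^5 + a.s^2*a.c*a.r^2*g.X^2*g.C*g.R^2*g.t^5*g.N^2 +
    a.s*a.x^3*a.r^2*g.S^2*g.X^2*g.R^2*g.t^5*g.N + a.s*a.x^2*a.r^2*g.S^2*g.X*g.R^2*g.t^4*g.N^2
    + a.s*a.x*a.z^2*a.r^2*g.X^2*g.Z^2*g.R^2*g.t^7*g.N +
    a.s*a.x*a.c^2*a.r^2*g.X^2*g.C^2*g.R^2*g.t^7*g.N + a.s*a.x*a.r*g.S*g.X*g.R*g.t^3*g.N +
    a.s*a.z^2*a.r^2*g.X*g.Z^2*g.R^2*g.t^6*g.N^2 + a.s*a.c^2*a.r^2*g.X*g.C^2*g.R^2*g.t^6*g.N^2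
    + a.s*a.r*g.S*g.R*g.t^2*g.N^2 + a.x^4*a.r^2*g.S^3*g.X*g.R^2*g.t^5*g.N +
    a.x^3*a.z*a.r^2*g.S^2*g.X*g.Z*g.R^2*g.t^6*g.N +
    a.x^3*a.c*a.r^2*g.S^2*g.X*g.C*g.R^2*g.t^6*g.N + a.x^3*a.r^2*g.S^3*g.R^2*g.t^4*g.N^2 +
    a.x^2*a.z^2*a.r^2*g.S*g.X*g.Z^2*g.R^2*g.t^7*g.N +
    a.x^2*a.z*a.r^2*g.S^2*g.Z*g.R^2*g.t^5*g.N^2 +
    a.x^2*a.c^2*a.r^2*g.S*g.X*g.C^2*g.R^2*g.t^7*g.N +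
    a.x^2*a.c*a.r^2*g.S^2*g.C*g.R^2*g.t^5*g.N^2 + a.x*a.z^3*a.r^2*g.X*g.Z^3*g.R^2*g.t^8*g.N +
    a.x*a.z^2*a.c*a.r^2*g.X*g.Z^2*g.C*g.R^2*g.t^8*g.N +
    a.x*a.z^2*a.r^2*g.S*g.Z^2*g.R^2*g.t^6*g.N^2 +
    a.x*a.z*a.c^2*a.r^2*g.X*g.Z*g.C^2*g.R^2*g.t^8*g.N +
    a.x*a.c^3*a.r^2*g.X*g.C^3*g.R^2*g.t^8*g.N + a.x*a.c^2*a.r^2*g.S*g.C^2*g.R^2*g.t^6*g.N^2 +
    a.z^3*a.r^2*g.Z^3*g.R^2*g.t^7*g.N^2 + a.z^2*a.c*a.r^2*g.Z^2*g.C*g.R^2*g.t^7*g.N^2 +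
    a.z*a.c^2*a.r^2*g.Z*g.C^2*g.R^2*g.t^7*g.N^2 + a.c^3*a.r^2*g.C^3*g.R^2*g.t^7*g.N^2)*hd1 +
    (a.s^2*a.x^4*a.r^2*g.S^2*g.R*g.t^6)*hep1 + (a.s^2*a.r*g.S*g.X*g.R*g.t^2 +
    a.s*a.x*a.r*g.S^2*g.R*g.t^2 + a.s*a.z*a.r*g.S*g.Z*g.R*g.t^3 + a.x*a.r*g.X*g.R*g.t*g.N +
    a.r*g.R*g.M*g.L + a.r*g.R*g.N^2)*g.fQ + (a.x*a.r*g.R*g.t*g.M*g.L)*g.f2 +
    (a.r*g.X*g.R*g.t*g.M*g.L)*he2s + (a.s^2*a.r*g.S^2*g.Z*g.C*g.R*g.t^6)*a.h1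
  clear * - hch
  simp only [d1, d, d2, d3, d5, e1, e2, e1s, e2s, E5, d6, d3s, d4s, Th, Tc, N', G,
    E, Ps, P, n, u, m]
  grind

theorem N_d3 : g.N * g.d3 = g.M * g.d := by
  refine c2_cases C2.two (fun hch => ?_)
  linear_combination (norm := skip) (a.s*g.S^2 + a.x*g.X^2)*g.f1 + (a.z*g.X*g.Z*g.t)*g.f2
  clear * - hch
  simp only [d1, d, d2, d3, d5, e1, e2, e1s, e2s, E5, d6, d3s, d4s, Th, Tc, N', G,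
    E, Ps, P, n, u, m]
  grind

theorem M_d5 : g.M * g.d5 = g.N' * g.d + g.t ^ 2 * a.s * g.S * (a.z * g.Z) * g.d1 := by
  refine c2_cases C2.two (fun hch => ?_)
  linear_combination (norm := skip) (a.z*g.Z + a.c*g.C)*g.fQ + (a.s*a.x*g.X + a.x*a.z*g.Z*g.t)*g.f2 + (a.s^2*g.S)*g.f1
  clear * - hch
  simp only [d1, d, d2, d3, d5, e1, e2, e1s, e2s, E5, d6, d3s, d4s, Th, Tc, N', G,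
    E, Ps, P, n, u, m]
  grind

theorem G_d2 (he1s : g.e1s = 0) (he2s : g.e2s = 0)
    (hd1 : g.d1 = 0) (hd : g.d = 0) (hd5 : g.d5 = 0) (hep1 : g.e1 = 0) : g.G * g.d2 = (a.r * g.R) * a.r * g.t ^ 5 * a.x ^ 5 * g.X * g.u * g.d2 := by
  refine c2_cases C2.two (fun hch => ?_)
  linear_combination (norm := skip) (a.z)*g.f4 + (a.c)*g.f3 + (a.s*a.x^4*a.r^2*g.X*g.Z*g.C*g.R*g.t^5 +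
    a.s*a.x*a.z*a.r*g.X^2*g.C*g.R*g.t^4 + a.s*a.x*a.c*a.r*g.X^2*g.Z*g.R*g.t^4 +
    a.x^5*a.r^2*g.S*g.Z*g.C*g.R*g.t^5 + a.x^2*a.z*a.r*g.S*g.X*g.C*g.R*g.t^4 +
    a.x^2*a.c*a.r*g.S*g.X*g.Z*g.R*g.t^4 + a.x*g.X*g.t)*a.h1 + (a.s^2*a.x*a.r*g.X^3*g.R*g.t^3 +
    a.s^2*a.r*g.X^2*g.R*g.t^2*g.N + a.s*a.x*a.z*a.r*g.X^2*g.Z*g.R*g.t^4 +
    a.x^2*a.z*a.r*g.S*g.X*g.Z*g.R*g.t^4 + a.x^2*a.r*g.S^2*g.R*g.t^2*g.N)*a.h2 +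
    (a.x^5*a.r*g.X*g.t)*g.f5 + (a.s^5*a.r^2*g.X*g.R*g.t^2*g.N +
    a.s^4*a.x*a.r^2*g.S*g.R*g.t^2*g.N + a.s^4*a.r^2*g.S*g.X*g.R*g.t^2*g.L +
    a.s^3*a.x*a.r^2*g.S^2*g.R*g.t^2*g.L + a.s^2*a.x^5*a.z*a.r^3*g.X^3*g.Z*g.R^2*g.t^6 +
    a.s^2*a.x^5*a.c*a.r^3*g.X^3*g.C*g.R^2*g.t^6 + a.s^2*a.x^3*a.r^2*g.X*g.R*g.t^2*g.N +
    a.s^2*a.r^2*g.X^2*g.R*g.t*g.L^2 + a.s*a.x^5*a.z^2*a.r^3*g.X^2*g.Z^2*g.R^2*g.t^7 +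
    a.s*a.x^5*a.c^2*a.r^3*g.X^2*g.C^2*g.R^2*g.t^7 + a.s*a.x^5*a.r^2*g.S*g.X*g.R*g.t^3 +
    a.s*a.x^4*a.z*a.r^2*g.X*g.Z*g.R*g.t^4 + a.s*a.x^3*a.r^2*g.S*g.X*g.R*g.t^2*g.L +
    a.s*a.x^2*a.z*a.r^2*g.X*g.Z*g.R*g.t^3*g.L + a.s*a.x*a.z^2*a.r*g.X^2*g.R*g.t^3 +
    a.x^8*a.r^3*g.X^4*g.R^2*g.t^5 + a.x^7*a.z*a.r^3*g.S^2*g.X*g.Z*g.R^2*g.t^6 +
    a.x^7*a.c*a.r^3*g.S^2*g.X*g.C*g.R^2*g.t^6 + a.x^6*a.z^2*a.r^3*g.S*g.X*g.Z^2*g.R^2*g.t^7 +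
    a.x^6*a.c^2*a.r^3*g.S*g.X*g.C^2*g.R^2*g.t^7 + a.x^5*a.z^3*a.r^3*g.X*g.Z^3*g.R^2*g.t^8 +
    a.x^5*a.z^2*a.c*a.r^3*g.X*g.Z^2*g.C*g.R^2*g.t^8 +
    a.x^5*a.z*a.c^2*a.r^3*g.X*g.Z*g.C^2*g.R^2*g.t^8 + a.x^5*a.z*a.r^2*g.S*g.Z*g.R*g.t^4 +
    a.x^5*a.z*a.r^2*g.X*g.C*g.R*g.t^4 + a.x^5*a.c^3*a.r^3*g.X*g.C^3*g.R^2*g.t^8 +
    a.x^5*a.c*a.r^2*g.X*g.Z*g.R*g.t^4 + a.x^4*a.r^2*g.S^2*g.R*g.t^2*g.L +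
    a.x^3*a.z*a.r^2*g.S*g.Z*g.R*g.t^3*g.L + a.x^2*a.z^2*a.r*g.S*g.X*g.R*g.t^3 +
    a.x^2*a.r^2*g.S^2*g.R*g.t*g.L^2)*hd1 + (a.x^5*a.r^2*g.X*g.R*g.t)*g.fQ +
    (a.x^4*a.r^2*g.X*g.R*g.t*g.L)*g.f2 + (a.s^2*a.x^3*a.r^2*g.S*g.X*g.R*g.t^2 +
    a.s*a.x^4*a.r^2*g.S^2*g.R*g.t^2 + a.x^3*a.r^2*g.X^2*g.R*g.t*g.L)*he2s +
    (a.s*a.x^8*a.r^3*g.X*g.R*g.t^5 + a.x^9*a.r^3*g.S*g.R*g.t^5)*hep1 +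
    (a.s^4*a.r^2*g.S*g.X*g.R*g.t^3 + a.s^3*a.x*a.r^2*g.S^2*g.R*g.t^3 +
    a.s^2*a.r^2*g.X^2*g.R*g.t^2*g.L + a.s*a.x^3*a.r^2*g.S*g.X*g.R*g.t^3 +
    a.s*a.x^2*a.z*a.r^2*g.X*g.Z*g.R*g.t^4 + a.x^4*a.r^2*g.S^2*g.R*g.t^3 +
    a.x^3*a.z*a.r^2*g.S*g.Z*g.R*g.t^4 + a.x^2*a.r^2*g.S^2*g.R*g.t^2*g.L)*hd5 +
    (a.s^5*a.r^2*g.X*g.R*g.t^3 + a.s^4*a.x*a.r^2*g.S*g.R*g.t^3 +
    a.s^2*a.x^3*a.r^2*g.X*g.R*g.t^3)*hd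
  clear * - hch
  simp only [d1, d, d2, d3, d5, e1, e2, e1s, e2s, E5, d6, d3s, d4s, Th, Tc, N', G,
    E, Ps, P, n, u, m]
  grind

theorem x_e2
    (hd1 : g.d1 = 0) (hep1 : g.e1 = 0) (hd2 : g.d2 = 0) : a.r * a.x ^ 4 * g.e2 = 0 := by
  refine c2_cases C2.two (fun hch => ?_)
  linear_combination (norm := skip) (a.s^4*a.r + a.s*a.x^3*a.r)*hep1 + (a.s^3*a.r*g.X^3*g.R + a.s^2*a.x*a.r*g.S*g.X^2*g.R +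
    a.s*a.x^2*a.r*g.S^2*g.X*g.R + a.x^3*a.r*g.S^3*g.R + a.x^3*a.r*g.X^3*g.R)*hd1 + (g.Z^2 +
    g.C^2)*a.h1 + (g.Z*g.C)*a.h2 + (a.z*g.Z + a.c*g.C)*hd2
  clear * - hch
  simp only [d1, d, d2, d3, d5, e1, e2, e1s, e2s, E5, d6, d3s, d4s, Th, Tc, N', G,
    E, Ps, P, n, u, m]
  grind

theorem G_d6 (he2s : g.e2s = 0)
    (hd1 : g.d1 = 0) : g.G * g.d6 = 0 := by
  refine c2_cases C2.two (fun hch => ?_)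
  linear_combination (norm := skip) (a.x^2*a.z*a.r*g.S^2*g.R*g.t^2 + a.c)*g.f3 + (a.s^2*a.c*a.r*g.X^2*g.R*g.t^2)*g.f4 +
    (a.s^4*a.r^2*g.X^4*g.R^2*g.t^4*g.N + a.x^4*a.r^2*g.S^4*g.R^2*g.t^4*g.N + g.N)*a.h1 +
    (a.x^2*a.r*g.S^2*g.R*g.t^2*g.N)*a.h2 + (a.s^2*a.x^2*a.r^2*g.S*g.R*g.t*g.N +
    a.x^4*a.r^2*g.X*g.R*g.t*g.N + a.x^3*a.r^2*g.R*g.N^2 + a.x^2*a.r^2*g.X*g.R*g.N*g.L)*he2s +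
    (a.x^4*a.r*g.N)*g.f5 + (a.s^3*a.x^4*a.r^3*g.X^3*g.R^2*g.t^4*g.N +
    a.s^2*a.x^5*a.r^3*g.S*g.X^2*g.R^2*g.t^4*g.N +
    a.s^2*a.x^4*a.z*a.r^3*g.X^2*g.Z*g.R^2*g.t^5*g.N +
    a.s^2*a.x^4*a.c*a.r^3*g.X^2*g.C*g.R^2*g.t^5*g.N +
    a.s*a.x^6*a.r^3*g.S^2*g.X*g.R^2*g.t^4*g.N +
    a.s*a.x^4*a.z^2*a.r^3*g.X*g.Z^2*g.R^2*g.t^6*g.N +
    a.s*a.x^4*a.c^2*a.r^3*g.X*g.C^2*g.R^2*g.t^6*g.N + a.s*a.x^4*a.r^2*g.S*g.R*g.t^2*g.N +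
    a.x^7*a.r^3*g.S^3*g.R^2*g.t^4*g.N + a.x^6*a.z*a.r^3*g.S^2*g.Z*g.R^2*g.t^5*g.N +
    a.x^6*a.c*a.r^3*g.S^2*g.C*g.R^2*g.t^5*g.N + a.x^5*a.z^2*a.r^3*g.S*g.Z^2*g.R^2*g.t^6*g.N +
    a.x^5*a.c^2*a.r^3*g.S*g.C^2*g.R^2*g.t^6*g.N + a.x^4*a.z^3*a.r^3*g.Z^3*g.R^2*g.t^7*g.N +
    a.x^4*a.z^2*a.c*a.r^3*g.Z^2*g.C*g.R^2*g.t^7*g.N +
    a.x^4*a.z*a.c^2*a.r^3*g.Z*g.C^2*g.R^2*g.t^7*g.N +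
    a.x^4*a.c^3*a.r^3*g.C^3*g.R^2*g.t^7*g.N)*hd1
  clear * - hch
  simp only [d1, d, d2, d3, d5, e1, e2, e1s, e2s, E5, d6, d3s, d4s, Th, Tc, N', G,
    E, Ps, P, n, u, m]
  grind

theorem G_d3s (hE : g.E5 = 0) : g.G * g.d3s = 0 := by
  refine c2_cases C2.two (fun hch => ?_)
  linear_combination (norm := skip) (a.x*g.X*g.t + g.N)*g.f3 + (a.s^2*a.x*a.r*g.X^3*g.R*g.t^3 + a.s^2*a.r*g.X^2*g.R*g.t^2*g.N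
    + a.x^2*a.r*g.S^2*g.R*g.t^2*g.N)*g.f4 + (a.z)*hE
  clear * - hch
  simp only [d1, d, d2, d3, d5, e1, e2, e1s, e2s, E5, d6, d3s, d4s, Th, Tc, N', G,
    E, Ps, P, n, u, m]
  grind

theorem G_d4s (hE : g.E5 = 0) : g.G * g.d4s = 0 := by
  refine c2_cases C2.two (fun hch => ?_)
  linear_combination (norm := skip) (g.N)*g.f4 + (a.s^2*a.r*g.X^2*g.R*g.t^2*g.N + a.x^3*a.r*g.S^2*g.X*g.R*g.t^3 +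
    a.x^2*a.r*g.S^2*g.R*g.t^2*g.N)*g.f3 + (a.c)*hE
  clear * - hch
  simp only [d1, d, d2, d3, d5, e1, e2, e1s, e2s, E5, d6, d3s, d4s, Th, Tc, N', G,
    E, Ps, P, n, u, m]
  grind

end Chart

end Pool.Agent.AFP
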