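/-
MP_911691_ag: from a point of the chart to an arrow, once finitely many elements are invertible.
-/
import Pool.Agent.AFP.IdZ

attribute [local instance] Pool.Agent.AFP.instCommRingAW Pool.Agent.AFP.instAlgebraZModAW
  Pool.Agent.AFP.instAlgebraB2AW

set_option linter.all false

namespace Pool.Agent.AFP

namespace Chart

variable {A : Type*} [CommRing A] {a : Pt A} (g : Chart a)

/-- first element to be inverted -/
def D1 : A := g.N * g.G + a.r * g.t ^ 4 * a.s ^ 2 * a.x ^ 2 * (a.z * g.Z)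

/-- auxiliary -/
def kap : A := g.N * a.r ^ 2 * g.t ^ 4 * a.s ^ 2 * a.x ^ 6

/-- second element to be inverted -/
def D2 : A := g.N * g.D1 * g.G ^ 2 -
  (g.t ^ 2 * (a.r * g.R) * g.G * (g.m ^ 2 * g.N * g.kap + a.s ^ 2 * a.x * g.X ^ 3 * g.t * g.kap) +
    a.z * a.c * ((a.r * g.R) * (g.t ^ 2 * a.s * g.S * g.N * g.N' +
      g.t ^ 5 * a.s ^ 2 * g.S ^ 2 * (a.z * g.Z)) * g.t * g.kap +
      g.t ^ 6 * a.s ^ 2 * g.S ^ 2 * (a.r * g.R) * a.r * a.x ^ 4 * (g.N * g.D1) +
      (a.r * g.R) ^ 2 * g.N * g.N' * g.t ^ 4 * g.d1 ^ 3 * g.t * g.kap))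

/-- third element to be inverted -/
def D3 : A := g.G - (a.r * g.R) * a.r * g.t ^ 5 * a.x ^ 5 * g.X * g.u

/-- The product of the elements to be inverted. -/
def DD : A := g.M * g.N * g.G * g.D1 * g.D2 * g.D3

variable [C2 A]

theorem e1s_zero (hM : IsUnit g.M) : g.e1s = 0 := hM.mul_right_eq_zero.1 g.M_e1s
theorem e2s_zero (hM : IsUnit g.M) : g.e2s = 0 := hM.mul_right_eq_zero.1 g.M_e2s

theorem D1_d (h1 : g.e1s = 0) (h2 : g.e2s = 0) : g.D1 * g.d = g.kap * g.e1 := by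
  have hd := g.G_d h1 h2
  have hI := g.N_d1
  refine c2_cases C2.two (fun hch => ?_)
  linear_combination (norm := skip) g.N * hd + a.r * g.t ^ 3 * a.s ^ 2 * a.x ^ 2 * (a.z * g.Z) * hI
  simp only [D1, kap]
  generalize g.d = d
  generalize g.d1 = d1
  generalize g.e1 = e1
  generalize g.G = G
  clear * - hch
  grind

theorem D2_e1 (h1 : g.e1s = 0) (h2 : g.e2s = 0) : g.D2 * g.e1 = 0 := by
  have hd := g.D1_d h1 h2
  have hI := g.N_d1
  have he := g.G_e1 h1 h2
  have hd1 : g.N * g.D1 * g.d1 = g.t * g.kap * g.e1 := by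
    linear_combination g.D1 * hI + g.t * hd
  simp only [D2]
  linear_combination g.N * g.D1 * he +
    g.t ^ 2 * (a.r * g.R) * g.G * (g.m ^ 2 * g.N * hd + a.s ^ 2 * a.x * g.X ^ 3 * hd1) +
    a.z * a.c * ((a.r * g.R) * (g.t ^ 2 * a.s * g.S * g.N * g.N' +
      g.t ^ 5 * a.s ^ 2 * g.S ^ 2 * (a.z * g.Z)) * hd1 +
      (a.r * g.R) ^ 2 * g.N * g.N' * g.t ^ 4 * g.d1 ^ 3 * hd1)

/-- The target point of a chart point. -/
@[simps] def tgt (h1 : g.e1 = 0) (h2 : g.e2 = 0) : Pt A where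
  s := g.S
  x := g.X
  z := g.Z
  c := g.C
  r := g.R
  ri := a.r * (g.N * (g.N + g.t * a.x * g.X) + g.t ^ 3 * a.s * g.S * (a.z * g.Z + a.c * g.C) +
    (a.r * g.R) * g.t ^ 8 * (a.z * g.Z + a.c * g.C) ^ 4)
  hr := by linear_combination g.f5
  h1 := by
      refine c2_cases C2.two (fun hch => ?_)
      linear_combination (norm := skip) h1
      clear * - hch
      simp only [d1, d, d2, d3, d5, e1, e2, e1s, e2s, E5, d6, d3s, d4s, Th, Tc, N', G,
        E, Ps, P, n, u, m]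
      grind
  h2 := by
      refine c2_cases C2.two (fun hch => ?_)
      linear_combination (norm := skip) h2
      clear * - hch
      simp only [d1, d, d2, d3, d5, e1, e2, e1s, e2s, E5, d6, d3s, d4s, Th, Tc, N', G,
        E, Ps, P, n, u, m]
      grind

/-- The arrow of a chart point. -/
theorem exists_arr (hD : IsUnit g.DD) (hx : ∀ y : A, a.x * y = 0 → y = 0) :
    ∃ (b : Pt A) (f : Arr a b), b.s = g.S ∧ b.x = g.X ∧ b.z = g.Z ∧ b.c = g.C ∧ b.r = g.R ∧
      f.t = g.t ∧ f.M = g.M ∧ f.N = g.N ∧ f.L = g.L := by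
  have hD' := hD
  simp only [DD, IsUnit.mul_iff] at hD'
  obtain ⟨⟨⟨⟨⟨hM, hN⟩, hG⟩, hD1⟩, hD2⟩, hD3⟩ := hD'
  have h1s := g.e1s_zero hM
  have h2s := g.e2s_zero hM
  have he1 : g.e1 = 0 := hD2.mul_right_eq_zero.1 (g.D2_e1 h1s h2s)
  have hd : g.d = 0 := hD1.mul_right_eq_zero.1 (by rw [g.D1_d h1s h2s, he1, mul_zero])
  have hd1 : g.d1 = 0 := hN.mul_right_eq_zero.1 (by rw [g.N_d1, hd, mul_zero])
  have hE := g.E5_eq h1s h2s hd1 he1
  have hd3 : g.d3 = 0 := hN.mul_right_eq_zero.1 (by rw [g.N_d3, hd, mul_zero])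
  have hd5 : g.d5 = 0 := hM.mul_right_eq_zero.1 (by rw [g.M_d5, hd, hd1]; ring)
  have hd2 : g.d2 = 0 := hD3.mul_right_eq_zero.1 (by
    have := g.G_d2 h1s h2s hd1 hd hd5 he1
    simp only [D3]
    linear_combination this)
  have hr : IsUnit a.r := IsUnit.of_mul_eq_one _ a.hr
  have hx4 : ∀ (k : ℕ) (y : A), a.x ^ k * y = 0 → y = 0 := by
    intro k
    induction k with
    | zero => intro y hy; simpa using hy
    | succ k ih =>
      intro y hy
      rw [pow_succ, mul_assoc] at hy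
      exact hx y (ih _ hy)
  have he2 : g.e2 = 0 := hx4 4 _ (hr.mul_right_eq_zero.1 (by
    rw [← mul_assoc]; exact g.x_e2 hd1 he1 hd2))
  have hd6 : g.d6 = 0 := hG.mul_right_eq_zero.1 (g.G_d6 h2s hd1)
  have hd3s : g.d3s = 0 := hG.mul_right_eq_zero.1 (g.G_d3s hE)
  have hd4s : g.d4s = 0 := hG.mul_right_eq_zero.1 (g.G_d4s hE)
  refine ⟨g.tgt he1 he2, ⟨g.t, g.M, g.N, g.L, ?_, ?_, ?_, ?_, ?_, ?_, ?_, ?_, ?_, ?_, ?_, ?_, ?_, ?_,
    ?_, ?_⟩, rfl, rfl, rfl, rfl, rfl, rfl, rfl, rfl, rfl⟩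
  all_goals simp only [Pool.Agent.AFP.m, Pool.Agent.AFP.w, Pool.Agent.AFP.w', Pool.Agent.AFP.u,
    Pool.Agent.AFP.n, Pool.Agent.AFP.q, Pool.Agent.AFP.P, Pool.Agent.AFP.E, Pool.Agent.AFP.v, tgt]
  · refine c2_cases C2.two (fun hch => ?_)
    linear_combination (norm := skip) hd1
    clear * - hch
    simp only [d1, d, d2, d3, d5, e1, e2, e1s, e2s, E5, d6, d3s, d4s, Th, Tc, N', G,
      E, Ps, P, n, u, m]
    grind
  · refine c2_cases C2.two (fun hch => ?_)
    linear_combination (norm := skip) hd2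
    clear * - hch
    simp only [d1, d, d2, d3, d5, e1, e2, e1s, e2s, E5, d6, d3s, d4s, Th, Tc, N', G,
      E, Ps, P, n, u, m]
    grind
  · refine c2_cases C2.two (fun hch => ?_)
    linear_combination (norm := skip) hd3
    clear * - hch
    simp only [d1, d, d2, d3, d5, e1, e2, e1s, e2s, E5, d6, d3s, d4s, Th, Tc, N', G,
      E, Ps, P, n, u, m]
    grind
  · refine c2_cases C2.two (fun hch => ?_)
    linear_combination (norm := skip) hd5
    clear * - hch
    simp only [d1, d, d2, d3, d5, e1, e2, e1s, e2s, E5, d6, d3s, d4s, Th, Tc, N', G,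
      E, Ps, P, n, u, m]
    grind
  · refine c2_cases C2.two (fun hch => ?_)
    linear_combination (norm := skip) hd
    clear * - hch
    simp only [d1, d, d2, d3, d5, e1, e2, e1s, e2s, E5, d6, d3s, d4s, Th, Tc, N', G,
      E, Ps, P, n, u, m]
    grind
  · refine c2_cases C2.two (fun hch => ?_)
    linear_combination (norm := skip) hd6
    clear * - hch
    simp only [d1, d, d2, d3, d5, e1, e2, e1s, e2s, E5, d6, d3s, d4s, Th, Tc, N', G,
      E, Ps, P, n, u, m]
    grind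
  · exact g.f2
  · refine c2_cases C2.two (fun hch => ?_)
    linear_combination (norm := skip) h2s
    clear * - hch
    simp only [d1, d, d2, d3, d5, e1, e2, e1s, e2s, E5, d6, d3s, d4s, Th, Tc, N', G,
      E, Ps, P, n, u, m]
    grind
  · exact g.f1
  · refine c2_cases C2.two (fun hch => ?_)
    linear_combination (norm := skip) h1s
    clear * - hch
    simp only [d1, d, d2, d3, d5, e1, e2, e1s, e2s, E5, d6, d3s, d4s, Th, Tc, N', G,
      E, Ps, P, n, u, m]
    grind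
  · exact g.fQ
  · exact g.f5
  · exact g.f3
  · exact g.f4
  · refine c2_cases C2.two (fun hch => ?_)
    linear_combination (norm := skip) hd3s
    clear * - hch
    simp only [d1, d, d2, d3, d5, e1, e2, e1s, e2s, E5, d6, d3s, d4s, Th, Tc, N', G,
      E, Ps, P, n, u, m]
    grind
  · refine c2_cases C2.two (fun hch => ?_)
    linear_combination (norm := skip) hd4s
    clear * - hch
    simp only [d1, d, d2, d3, d5, e1, e2, e1s, e2s, E5, d6, d3s, d4s, Th, Tc, N', G,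
      E, Ps, P, n, u, m]
    grind

end Chart

end Pool.Agent.AFP
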