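/-
MP_911691_ag: gluing two schemes along an open subscheme.
-/
import Mathlib

set_option linter.all false

open CategoryTheory Limits AlgebraicGeometry

universe u

namespace Pool.Agent.AFP

variable {V X Y : Scheme.{u}} (f : V ⟶ X) (g : V ⟶ Y) [IsOpenImmersion f] [IsOpenImmersion g]

theorem pushout_inl_open : IsOpenImmersion (pushout.inl f g) :=
  inferInstanceAs (IsOpenImmersion (colimit.ι (span f g) WalkingSpan.left))

theorem pushout_inr_open : IsOpenImmersion (pushout.inr f g) :=
  inferInstanceAs (IsOpenImmersion (colimit.ι (span f g) WalkingSpan.right))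

theorem pushout_cover (y : ↥(pushout f g)) :
    (∃ x : X, pushout.inl f g x = y) ∨ (∃ x : Y, pushout.inr f g x = y) := by
  have key : ∀ v : V, (colimit.ι (span f g) WalkingSpan.zero) v = pushout.inl f g (f v) := by
    intro v
    rw [← Scheme.Hom.comp_apply]
    exact congrArg (fun k : V ⟶ pushout f g => k v)
      (colimit.w (span f g) WalkingSpan.Hom.fst).symm
  obtain ⟨i, xi, h⟩ := Scheme.IsLocallyDirected.ι_jointly_surjective (span f g) y
  match i, xi, h with
  | none, xi, h =>
    left
    exact ⟨f xi, (key xi).symm.trans h⟩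
  | some WalkingPair.left, xi, h => exact Or.inl ⟨xi, h⟩
  | some WalkingPair.right, xi, h => exact Or.inr ⟨xi, h⟩

theorem pushout_inter (x : X) (y : Y) (h : pushout.inl f g x = pushout.inr f g y) :
    ∃ v : V, f v = x ∧ g v = y := by
  have h' := (Scheme.IsLocallyDirected.ι_eq_ι_iff (span f g) (i := WalkingSpan.left)
    (j := WalkingSpan.right) (xi := x) (xj := y)).1 h
  obtain ⟨k, fi, fj, v, h1, h2⟩ := h'
  match k, fi, fj, v, h1, h2 with
  | none, fi, fj, v, h1, h2 =>
    obtain rfl : fi = WalkingSpan.Hom.fst := Subsingleton.elim _ _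
    obtain rfl : fj = WalkingSpan.Hom.snd := Subsingleton.elim _ _
    exact ⟨v, h1, h2⟩
  | some WalkingPair.left, fi, fj, v, h1, h2 =>
    change WidePushoutShape.Hom _ _ at fj
    cases fj
  | some WalkingPair.right, fi, fj, v, h1, h2 =>
    change WidePushoutShape.Hom _ _ at fi
    cases fi

theorem pushout_isPullback : IsPullback f g (pushout.inl f g) (pushout.inr f g) := by
  have h1 := pushout_inl_open f g
  have h2 := pushout_inr_open f g
  refine IsOpenImmersion.isPullback f g (pushout.inl f g) (pushout.inr f g)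
    pushout.condition.symm ?_
  ext y
  constructor
  · rintro ⟨x, hx⟩
    obtain ⟨v, h1, h2⟩ := pushout_inter f g x y hx
    exact ⟨v, h2⟩
  · rintro ⟨v, rfl⟩
    refine ⟨f v, ?_⟩
    rw [← Scheme.Hom.comp_apply, ← Scheme.Hom.comp_apply, pushout.condition]

end Pool.Agent.AFP
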