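/-
MP_911691_ag: abstract gluing of the groupoid scheme `R = (U × U) ∪ W`.
-/
import Pool.Agent.AFP.Glue

set_option linter.all false

open CategoryTheory Limits AlgebraicGeometry

universe u

namespace Pool.Agent.AFP

variable {S T W : Scheme.{u}}

/-- The open subscheme `U × U` of `T × T`. -/
noncomputable def UU (f : T ⟶ S) (U : T.Opens) : (pullback f f).Opens :=
  (pullback.fst f f) ⁻¹ᵁ U ⊓ (pullback.snd f f) ⁻¹ᵁ U

/-- Gluing data: an affine `T` over `S`, an open `U` of `T`, an affine `W` over `T × T` which over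
`U × U` is an open subscheme; a unit section, an inverse involution and, locally over the complement
of `U`, a composition. -/
structure IsGData (f : T ⟶ S) (U : T.Opens) (φ : W ⟶ pullback f f) : Prop where
  affS : IsAffine S
  affT : IsAffine T
  affW : IsAffine W
  qcU : IsCompact (U : Set T)
  domU : IsSchemeTheoreticallyDominant U.ι
  smU : Smooth (U.ι ≫ f)
  opn : IsOpenImmersion (φ ∣_ UU f U)
  pre1 : (φ ≫ pullback.fst f f) ⁻¹ᵁ U = φ ⁻¹ᵁ UU f U
  pre2 : (φ ≫ pullback.snd f f) ⁻¹ᵁ U = φ ⁻¹ᵁ UU f U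
  smW : Smooth (φ ≫ pullback.fst f f)
  one : ∃ e : T ⟶ W, e ≫ φ = pullback.lift (𝟙 T) (𝟙 T) rfl
  inv : ∃ i : W ⟶ W, i ≫ i = 𝟙 W ∧
    i ≫ φ = φ ≫ pullback.lift (pullback.snd f f) (pullback.fst f f) pullback.condition.symm
  comp : ∀ y : ↥(pullback (φ ≫ pullback.snd f f) (φ ≫ pullback.fst f f)),
    (pullback.fst (φ ≫ pullback.snd f f) (φ ≫ pullback.fst f f) ≫ φ ≫ pullback.snd f f) y ∉ U →
    ∃ V : (pullback (φ ≫ pullback.snd f f) (φ ≫ pullback.fst f f)).Opens, y ∈ V ∧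
      ∃ l : V.toScheme ⟶ W,
        l ≫ φ ≫ pullback.fst f f = V.ι ≫ pullback.fst _ _ ≫ φ ≫ pullback.fst f f ∧
        l ≫ φ ≫ pullback.snd f f = V.ι ≫ pullback.snd _ _ ≫ φ ≫ pullback.snd f f

variable (f : T ⟶ S) (U : T.Opens) (φ : W ⟶ pullback f f)

section

variable [IsOpenImmersion (φ ∣_ UU f U)]

/-- the glued scheme -/
noncomputable def RR : Scheme.{u} := pushout (φ ⁻¹ᵁ UU f U).ι (φ ∣_ UU f U)

/-- the chart `W → R` -/
noncomputable def jW : W ⟶ RR f U φ := pushout.inl _ _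
/-- the chart `U × U → R` -/
noncomputable def jU : (UU f U).toScheme ⟶ RR f U φ := pushout.inr _ _

instance : IsOpenImmersion (jW f U φ) := pushout_inl_open _ _
instance : IsOpenImmersion (jU f U φ) := pushout_inr_open _ _

theorem j_cond : (φ ⁻¹ᵁ UU f U).ι ≫ jW f U φ = (φ ∣_ UU f U) ≫ jU f U φ := pushout.condition

theorem j_isPullback : IsPullback (φ ⁻¹ᵁ UU f U).ι (φ ∣_ UU f U) (jW f U φ) (jU f U φ) :=
  pushout_isPullback _ _

/-- the structure map `R → T × T` -/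
noncomputable def psi : RR f U φ ⟶ pullback f f :=
  pushout.desc φ (UU f U).ι (by rw [morphismRestrict_ι])

@[reassoc (attr := simp)]
theorem jW_psi : jW f U φ ≫ psi f U φ = φ := pushout.inl_desc _ _ _

@[reassoc (attr := simp)]
theorem jU_psi : jU f U φ ≫ psi f U φ = (UU f U).ι := pushout.inr_desc _ _ _

theorem j_cover (y : ↥(RR f U φ)) : (∃ x, jW f U φ x = y) ∨ (∃ x, jU f U φ x = y) :=
  pushout_cover _ _ y

theorem psi_preimage : psi f U φ ⁻¹ᵁ UU f U = (jU f U φ).opensRange := by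
  ext y
  constructor
  · intro hy
    rcases j_cover f U φ y with ⟨x, rfl⟩ | ⟨x, rfl⟩
    · have hx : x ∈ φ ⁻¹ᵁ UU f U := by
        have h : psi f U φ (jW f U φ x) ∈ UU f U := hy
        rw [← Scheme.Hom.comp_apply, jW_psi] at h
        exact h
      refine ⟨(φ ∣_ UU f U) ⟨x, hx⟩, ?_⟩
      exact (congrArg (fun k : (φ ⁻¹ᵁ UU f U).toScheme ⟶ RR f U φ => k ⟨x, hx⟩)
        (j_cond f U φ)).symm
    · exact ⟨x, rfl⟩
  · rintro ⟨x, rfl⟩
    have h : (jU f U φ ≫ psi f U φ) x ∈ UU f U := by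
      rw [jU_psi]
      exact x.2
    rw [Scheme.Hom.comp_apply] at h
    exact h

/-- `R → T × T` is an isomorphism over `U × U`. -/
theorem psi_isPullback : IsPullback (𝟙 _) (jU f U φ) (UU f U).ι (psi f U φ) := by
  refine IsOpenImmersion.isPullback _ _ _ _ ?_ ?_
  · rw [jU_psi, Category.id_comp]
  · rw [Scheme.Opens.opensRange_ι, psi_preimage]

/-- a map to `R` which lands over `U × U` -/
theorem eq_jU {Y : Scheme.{u}} (a : Y ⟶ RR f U φ) (y : Y ⟶ (UU f U).toScheme)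
    (h : a ≫ psi f U φ = y ≫ (UU f U).ι) : a = y ≫ jU f U φ := by
  have h1 := (psi_isPullback f U φ).lift_snd y a h.symm
  have h2 := (psi_isPullback f U φ).lift_fst y a h.symm
  rw [Category.comp_id] at h2
  rw [← h1, h2]

/-- two maps to `R` which agree over `T × T` agree on the part over `U × U` -/
theorem eq_on_UU {Y : Scheme.{u}} (a b : Y ⟶ RR f U φ) (h : a ≫ psi f U φ = b ≫ psi f U φ)
    (hY : (a ≫ psi f U φ) ⁻¹ᵁ UU f U = ⊤) : a = b := by
  have hr : Set.range (a ≫ psi f U φ) ⊆ Set.range (UU f U).ι := by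
    rintro _ ⟨y, rfl⟩
    rw [Scheme.Opens.range_ι]
    have : y ∈ (a ≫ psi f U φ) ⁻¹ᵁ UU f U := by rw [hY]; trivial
    exact this
  have e := IsOpenImmersion.lift_fac (UU f U).ι (a ≫ psi f U φ) hr
  rw [eq_jU f U φ a _ e.symm, eq_jU f U φ b _ (h.symm.trans e.symm)]

end

end Pool.Agent.AFP
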