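/-
MP_911691_ag: the schemes `T = Spec B`, `U`, `W = Spec AW` and the map `phi : W ⟶ T × T`.
-/
import Pool.Agent.AFP.Univ
import Pool.Agent.AFP.Arrow
import Pool.Agent.AFP.RDef

attribute [local instance] Pool.Agent.AFP.instCommRingAW Pool.Agent.AFP.instAlgebraZModAW
  Pool.Agent.AFP.instAlgebraB2AW

set_option linter.all false

open CategoryTheory Limits AlgebraicGeometry

namespace Pool.Agent.AFP

/-- `Spec F_2` -/
noncomputable abbrev S2 : Scheme.{0} := Spec (CommRingCat.of (ZMod 2))
/-- `T = Spec B` -/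
noncomputable abbrev TS : Scheme.{0} := Spec (CommRingCat.of B)
/-- `W = Spec AW` -/
noncomputable abbrev WS : Scheme.{0} := Spec (CommRingCat.of AW)

/-- structure map of `T` -/
noncomputable def fT : TS ⟶ S2 := Spec.map (CommRingCat.ofHom (algebraMap (ZMod 2) B))

/-- `U = D(s) ∪ D(x)` -/
noncomputable def UT : TS.Opens :=
  PrimeSpectrum.basicOpen B.univ.s ⊔ PrimeSpectrum.basicOpen B.univ.x

/-- source map -/
noncomputable def srcS : WS ⟶ TS := Spec.map (CommRingCat.ofHom AW.src)
/-- target map -/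
noncomputable def tgtS : WS ⟶ TS := Spec.map (CommRingCat.ofHom AW.tgt)

theorem srcS_fT : srcS ≫ fT = tgtS ≫ fT := by
  rw [srcS, tgtS, fT, ← Spec.map_comp, ← Spec.map_comp]
  congr 1
  ext x
  exact congrArg (fun k : ZMod 2 →+* AW => k x) (B2.zmod_hom_ext _ _)

/-- the structure map of `W` over `T × T` -/
noncomputable def phi : WS ⟶ pullback fT fT := pullback.lift srcS tgtS srcS_fT

@[reassoc (attr := simp)]
theorem phi_fst : phi ≫ pullback.fst fT fT = srcS := pullback.lift_fst _ _ _
@[reassoc (attr := simp)]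
theorem phi_snd : phi ≫ pullback.snd fT fT = tgtS := pullback.lift_snd _ _ _

/-- the inverse as a ring map -/
noncomputable def AW.sw : AW →+* AW := AW.lift AW.arr.swap

theorem AW.a_map_sw : AW.a.map AW.sw = AW.b := AW.a_map_lift _
theorem AW.b_map_sw : AW.b.map AW.sw = AW.a := AW.b_map_lift _

end Pool.Agent.AFP
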