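/-
MP_911691_ag, module M-REG: regular elements in `B` and `B ⊗ B`.

`B` is flat over `P3 = F_2[s,x,r]`: with `e = z + c` the relations become `e^2 = r h` and
`z^2 + e z + r x^4 = 0`, `h = s^4 + s x^3`, so `B ≅ T2` is a tower of two monic quadratic
extensions of `F_2[s,x,r,r^{-1}]`.  Hence `(s, x)` is a regular sequence in `B`, and `B ⊗ B` is
flat over the domain `P3 ⊗ P3`; `u n = q m E` is the image of a nonzero element of `P3 ⊗ P3`.
-/
import Pool.Agent.AFP.Univ

attribute [local instance] Pool.Agent.AFP.instCommRingAW Pool.Agent.AFP.instAlgebraZModAW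
  Pool.Agent.AFP.instAlgebraB2AW

set_option linter.all false

open TensorProduct MvPolynomial

namespace Pool.Agent.AFP
namespace RegB

open RingTheory.Sequence in
theorem wr_iff {R : Type*} [CommRing R] (s x : R) : IsWeaklyRegular R [s, x] ↔
    (∀ y, s * y = 0 → y = 0) ∧ (∀ y z, x * y = s * z → ∃ y', y = s * y') := by
  rw [isWeaklyRegular_cons_iff, isWeaklyRegular_cons_iff]
  simp only [IsWeaklyRegular.nil, and_true]
  constructor
  · rintro ⟨h1, h2⟩
    refine ⟨fun y hy => h1 (by simpa using hy), fun y z hyz => ?_⟩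
    have h3 : x • (Submodule.Quotient.mk y : QuotSMulTop s R) = x • (0 : QuotSMulTop s R) := by
      rw [smul_zero, ← Submodule.Quotient.mk_smul, Submodule.Quotient.mk_eq_zero]
      rw [Submodule.mem_smul_pointwise_iff_exists]
      exact ⟨z, trivial, by simpa using hyz.symm⟩
    have h4 := h2 h3
    rw [Submodule.Quotient.mk_eq_zero, Submodule.mem_smul_pointwise_iff_exists] at h4
    obtain ⟨y', -, hy'⟩ := h4
    exact ⟨y', by simpa using hy'.symm⟩
  · rintro ⟨h1, h2⟩
    constructor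
    · intro y z hyz
      have : s * (y - z) = 0 := by rw [mul_sub]; exact sub_eq_zero.2 hyz
      exact sub_eq_zero.1 (h1 _ this)
    · intro y z hyz
      induction y using Submodule.Quotient.induction_on with | _ y =>
      induction z using Submodule.Quotient.induction_on with | _ z =>
      have hyz' : x • (Submodule.Quotient.mk y : QuotSMulTop s R) =
        x • (Submodule.Quotient.mk z : QuotSMulTop s R) := hyz
      rw [← Submodule.Quotient.mk_smul, ← Submodule.Quotient.mk_smul, Submodule.Quotient.eq,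
        Submodule.mem_smul_pointwise_iff_exists] at hyz'
      obtain ⟨w, -, hw⟩ := hyz'
      obtain ⟨y', hy'⟩ := h2 (y - z) w (by simpa [mul_sub] using hw.symm)
      rw [Submodule.Quotient.eq, Submodule.mem_smul_pointwise_iff_exists]
      exact ⟨y', trivial, by simpa using hy'.symm⟩

/-! ### the polynomial ring and the tower -/

abbrev P3 : Type := MvPolynomial (Fin 3) (ZMod 2)

abbrev Q3 : Type := Localization.Away (X 2 : P3)

noncomputable def q0 : P3 →+* Q3 := algebraMap P3 Q3

noncomputable def f1 : Polynomial Q3 :=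
  Polynomial.X ^ 2 - Polynomial.C (q0 (X 2 * (X 0 ^ 4 + X 0 * X 1 ^ 3)))

theorem f1_monic : f1.Monic := by
  unfold f1; exact Polynomial.monic_X_pow_sub_C _ (by norm_num)

abbrev T1 : Type := AdjoinRoot f1

noncomputable def e1 : T1 := AdjoinRoot.root f1

noncomputable def q1 : P3 →+* T1 := (AdjoinRoot.of f1).comp q0

theorem e1_sq : e1 ^ 2 = q1 (X 2 * (X 0 ^ 4 + X 0 * X 1 ^ 3)) := by
  have h := AdjoinRoot.eval₂_root f1
  rw [f1, Polynomial.eval₂_sub, Polynomial.eval₂_X_pow, Polynomial.eval₂_C] at h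
  exact sub_eq_zero.1 h

noncomputable def f2 : Polynomial T1 :=
  Polynomial.X ^ 2 + (Polynomial.C e1 * Polynomial.X + Polynomial.C (q1 (X 2 * X 1 ^ 4)))

theorem f2_monic : f2.Monic := by
  unfold f2
  apply Polynomial.monic_X_pow_add
  refine lt_of_le_of_lt (Polynomial.degree_add_le _ _) (max_lt ?_ ?_)
  · exact lt_of_le_of_lt (Polynomial.degree_C_mul_X_le _) (by norm_num)
  · exact lt_of_le_of_lt Polynomial.degree_C_le (by norm_num)

abbrev T2 : Type := AdjoinRoot f2

noncomputable def q2 : P3 →+* T2 := (AdjoinRoot.of f2).comp q1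

noncomputable def z2 : T2 := AdjoinRoot.root f2
noncomputable def e2 : T2 := AdjoinRoot.of f2 e1

theorem z2_sq : z2 ^ 2 + (e2 * z2 + q2 (X 2 * X 1 ^ 4)) = 0 := by
  have h := AdjoinRoot.eval₂_root f2
  rw [f2, Polynomial.eval₂_add, Polynomial.eval₂_X_pow, Polynomial.eval₂_add, Polynomial.eval₂_mul,
    Polynomial.eval₂_C, Polynomial.eval₂_X, Polynomial.eval₂_C] at h
  exact h

theorem e2_sq : e2 ^ 2 = q2 (X 2 * (X 0 ^ 4 + X 0 * X 1 ^ 3)) := by
  rw [e2, ← map_pow, e1_sq]; rfl

instance : C2 T2 := C2.ofHom q2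

noncomputable def ri0 : Q3 := IsLocalization.Away.invSelf (X 2 : P3)

theorem ri0_mul : q0 (X 2) * ri0 = 1 := IsLocalization.Away.mul_invSelf (X 2 : P3)

/-- the point of `T2` -/
noncomputable def pt2 : Pt T2 where
  s := q2 (X 0)
  x := q2 (X 1)
  z := z2
  c := z2 + e2
  r := q2 (X 2)
  ri := AdjoinRoot.of f2 (AdjoinRoot.of f1 ri0)
  hr := by
    rw [show q2 (X 2) = AdjoinRoot.of f2 (AdjoinRoot.of f1 (q0 (X 2))) from rfl, ← map_mul,
      ← map_mul, ri0_mul, map_one, map_one]
  h1 := by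
    have h := z2_sq
    have h2 : (2 : T2) = 0 := C2.two
    simp only [map_mul, map_pow] at h
    linear_combination h - q2 (X 2) * q2 (X 1) ^ 4 * h2
  h2 := by
    have h := e2_sq
    have h2 : (2 : T2) = 0 := C2.two
    simp only [map_mul, map_pow, map_add] at h
    linear_combination h + (z2 ^ 2 + z2 * e2) * h2


/-- `B → T2` -/
noncomputable def toT : B →+* T2 := B.lift pt2

/-- `T2 → B` -/
noncomputable def pB : P3 →+* B := eval₂Hom (algebraMap (ZMod 2) B) ![B.univ.s, B.univ.x, B.univ.r]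

theorem pB_0 : pB (X 0) = B.univ.s := eval₂Hom_X' _ _ _
theorem pB_1 : pB (X 1) = B.univ.x := eval₂Hom_X' _ _ _
theorem pB_2 : pB (X 2) = B.univ.r := eval₂Hom_X' _ _ _

noncomputable def g0 : Q3 →+* B := IsLocalization.Away.lift (X 2 : P3) (g := pB)
  (by rw [pB_2]; exact IsUnit.of_mul_eq_one _ B.univ.hr)

theorem g0_q0 : g0.comp q0 = pB := by
  unfold g0 q0
  exact IsLocalization.Away.lift_comp (X 2 : P3) _

noncomputable def g1 : T1 →+* B := AdjoinRoot.lift g0 (B.univ.z + B.univ.c) (by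
  rw [f1, Polynomial.eval₂_sub, Polynomial.eval₂_X_pow, Polynomial.eval₂_C,
    show g0 (q0 (X 2 * (X 0 ^ 4 + X 0 * X 1 ^ 3))) = (g0.comp q0) _ from rfl, g0_q0]
  simp only [map_mul, map_add, map_pow, pB_0, pB_1, pB_2]
  have h := B.univ.h2
  have h2 : (2 : B) = 0 := C2.two
  linear_combination h + (B.univ.z * B.univ.c) * h2)

theorem g1_q1 : g1.comp q1 = pB := by
  unfold g1 q1
  rw [← RingHom.comp_assoc, AdjoinRoot.lift_comp_of, g0_q0]

theorem g1_e1 : g1 e1 = B.univ.z + B.univ.c := AdjoinRoot.lift_root _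

noncomputable def g2 : T2 →+* B := AdjoinRoot.lift g1 B.univ.z (by
  rw [f2, Polynomial.eval₂_add, Polynomial.eval₂_X_pow, Polynomial.eval₂_add, Polynomial.eval₂_mul,
    Polynomial.eval₂_C, Polynomial.eval₂_X, Polynomial.eval₂_C, g1_e1,
    show g1 (q1 (X 2 * X 1 ^ 4)) = (g1.comp q1) _ from rfl, g1_q1]
  simp only [map_mul, map_pow, pB_1, pB_2]
  have h := B.univ.h1
  have h2 : (2 : B) = 0 := C2.two
  linear_combination h + (B.univ.z ^ 2 + B.univ.r * B.univ.x ^ 4) * h2)

theorem g2_q2 : g2.comp q2 = pB := by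
  unfold g2 q2
  rw [← RingHom.comp_assoc, AdjoinRoot.lift_comp_of, g1_q1]

theorem g2_z2 : g2 z2 = B.univ.z := AdjoinRoot.lift_root _
theorem g2_e2 : g2 e2 = B.univ.z + B.univ.c := by
  rw [e2, g2, AdjoinRoot.lift_of, g1_e1]

theorem g2_toT : g2.comp toT = RingHom.id B := by
  apply B.hom_ext
  rw [← Pt.map_map, toT, B.univ_map_lift, Pt.map_id]
  have h2 : (2 : B) = 0 := C2.two
  apply Pt.ext'
  · show (g2.comp q2) (X 0) = _
    rw [g2_q2, pB_0]
  · show (g2.comp q2) (X 1) = _
    rw [g2_q2, pB_1]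
  · exact g2_z2
  · show g2 (z2 + e2) = _
    rw [map_add, g2_z2, g2_e2]
    linear_combination B.univ.z * h2
  · show (g2.comp q2) (X 2) = _
    rw [g2_q2, pB_2]

theorem toT_pt : B.univ.map toT = pt2 := B.univ_map_lift _

theorem toT_pB : toT.comp pB = q2 := by
  apply MvPolynomial.ringHom_ext
  · intro a
    have : ∀ a : ZMod 2, a = 0 ∨ a = 1 := by decide
    rcases this a with rfl | rfl <;> simp
  · intro i
    fin_cases i
    · show toT (pB (X 0)) = _
      rw [pB_0]; exact congrArg Pt.s toT_pt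
    · show toT (pB (X 1)) = _
      rw [pB_1]; exact congrArg Pt.x toT_pt
    · show toT (pB (X 2)) = _
      rw [pB_2]; exact congrArg Pt.r toT_pt

theorem toT_g2 : toT.comp g2 = RingHom.id T2 := by
  have h2 : (2 : T2) = 0 := C2.two
  apply AdjoinRoot.ringHom_ext
  · apply AdjoinRoot.ringHom_ext
    · apply IsLocalization.ringHom_ext (Submonoid.powers (X 2 : P3))
      show (toT.comp g2).comp q2 = (RingHom.id T2).comp q2
      rw [RingHom.comp_assoc, g2_q2, toT_pB, RingHom.id_comp]
    · show toT (g2 e2) = e2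
      rw [g2_e2, map_add]
      have hz : toT B.univ.z = z2 := congrArg Pt.z toT_pt
      have hc : toT B.univ.c = z2 + e2 := congrArg Pt.c toT_pt
      rw [hz, hc]
      linear_combination z2 * h2
  · show toT (g2 z2) = z2
    rw [g2_z2]
    exact congrArg Pt.z toT_pt

theorem g2_bij : Function.Bijective g2 := by
  rw [Function.bijective_iff_has_inverse]
  exact ⟨toT, fun y => RingHom.congr_fun toT_g2 y, fun y => RingHom.congr_fun g2_toT y⟩

theorem q0_flat : q0.Flat := by
  unfold q0
  rw [RingHom.flat_algebraMap_iff]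
  exact IsLocalization.flat _ (Submonoid.powers (X 2 : P3))

theorem of_flat {R : Type*} [CommRing R] {f : Polynomial R} (hf : f.Monic) :
    (AdjoinRoot.of f).Flat := by
  rw [← AdjoinRoot.algebraMap_eq, RingHom.flat_algebraMap_iff]
  haveI := hf.free_adjoinRoot
  infer_instance

theorem pB_flat : pB.Flat := by
  rw [← g2_q2]
  refine RingHom.Flat.comp ?_ (RingHom.Flat.of_bijective g2_bij)
  unfold q2 q1
  exact (q0_flat.comp (of_flat f1_monic)).comp (of_flat f2_monic)


theorem P3_reg : (∀ y : P3, X 0 * y = 0 → y = 0) ∧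
    (∀ y z : P3, X 1 * y = X 0 * z → ∃ y', y = X 0 * y') := by
  constructor
  · intro y hy
    exact (mul_eq_zero.1 hy).resolve_left (MvPolynomial.X_ne_zero 0)
  · intro y z hyz
    have hd : (X 0 : P3) ∣ X 1 * y := ⟨z, hyz⟩
    rcases MvPolynomial.X_dvd_mul_iff.1 hd with h | h
    · exfalso
      obtain ⟨w, hw⟩ := h
      have := congrArg (MvPolynomial.eval (![0, 1, 0] : Fin 3 → ZMod 2)) hw
      simp at this
    · exact h

theorem flat_reg {R A : Type*} [CommRing R] [IsDomain R] [CommRing A] {f : R →+* A} (hf : f.Flat)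
    (d : R) (hd : d ≠ 0) (y : A) (h : f d * y = 0) : y = 0 := by
  letI : Algebra R A := f.toAlgebra
  haveI : Module.Flat R A := hf
  have h1 : IsSMulRegular R d := by
    intro a b hab
    exact mul_left_cancel₀ hd hab
  have h2 : IsSMulRegular A (algebraMap R A d) := h1.of_flat (S := A)
  refine h2 ?_
  show f d * y = f d * 0
  rw [h, mul_zero]

theorem flat_left {R A A' S : Type*} [CommRing R] [CommRing A] [CommRing A'] [CommRing S]
    [Algebra R A] [Algebra R A'] [Algebra R S] (f : A →ₐ[R] A') (hf : f.toRingHom.Flat) :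
    (Algebra.TensorProduct.map f (AlgHom.id R S)).toRingHom.Flat := by
  letI : Algebra A A' := f.toRingHom.toAlgebra
  haveI : Module.Flat A A' := hf
  haveI : IsScalarTower R A A' := IsScalarTower.of_algebraMap_eq' f.comp_algebraMap.symm
  letI : Algebra (A ⊗[R] S) (A' ⊗[R] S) :=
    (Algebra.TensorProduct.map f (AlgHom.id R S)).toRingHom.toAlgebra
  haveI : IsScalarTower A (A ⊗[R] S) (A' ⊗[R] S) := by
    apply IsScalarTower.of_algebraMap_eq'
    apply RingHom.ext
    intro a
    show (f a) ⊗ₜ[R] (1 : S) = Algebra.TensorProduct.map f (AlgHom.id R S) (a ⊗ₜ[R] (1 : S))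
    simp
  have hp : Algebra.IsPushout A A' (A ⊗[R] S) (A' ⊗[R] S) := by
    apply Algebra.IsPushout.tensorProduct_tensorProduct R S A A'
    apply RingHom.ext
    intro s
    show Algebra.TensorProduct.map f (AlgHom.id R S) ((1 : A) ⊗ₜ[R] s) = (1 : A') ⊗ₜ[R] s
    simp
  have hq : Algebra.IsPushout A (A ⊗[R] S) A' (A' ⊗[R] S) := hp.symm
  exact Module.Flat.isBaseChange A (A ⊗[R] S) A' (A' ⊗[R] S) hq.out

theorem flat_right {R A A' S : Type*} [CommRing R] [CommRing A] [CommRing A'] [CommRing S]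
    [Algebra R A] [Algebra R A'] [Algebra R S] (f : A →ₐ[R] A') (hf : f.toRingHom.Flat) :
    (Algebra.TensorProduct.map (AlgHom.id R S) f).toRingHom.Flat := by
  have h : (Algebra.TensorProduct.map (AlgHom.id R S) f).toRingHom =
      ((Algebra.TensorProduct.comm R A' S).toAlgHom.toRingHom.comp
        (Algebra.TensorProduct.map f (AlgHom.id R S)).toRingHom).comp
          (Algebra.TensorProduct.comm R S A).toAlgHom.toRingHom := by
    apply RingHom.ext
    intro y
    induction y using TensorProduct.induction_on with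
    | zero => simp
    | tmul y z => simp
    | add y z hy hz => rw [map_add, map_add, hy, hz]
  rw [h]
  refine RingHom.Flat.comp (RingHom.Flat.of_bijective (Algebra.TensorProduct.comm R S A).bijective)
    (RingHom.Flat.comp (flat_left f hf)
      (RingHom.Flat.of_bijective (Algebra.TensorProduct.comm R A' S).bijective))

theorem flat_map {R A A' C C' : Type*} [CommRing R] [CommRing A] [CommRing A'] [CommRing C]
    [CommRing C'] [Algebra R A] [Algebra R A'] [Algebra R C] [Algebra R C'] (f : A →ₐ[R] A')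
    (g : C →ₐ[R] C') (hf : f.toRingHom.Flat) (hg : g.toRingHom.Flat) :
    (Algebra.TensorProduct.map f g).toRingHom.Flat := by
  have h : (Algebra.TensorProduct.map f g).toRingHom =
      (Algebra.TensorProduct.map (AlgHom.id R A') g).toRingHom.comp
        (Algebra.TensorProduct.map f (AlgHom.id R C)).toRingHom := by
    apply RingHom.ext
    intro y
    induction y using TensorProduct.induction_on with
    | zero => simp
    | tmul y z => simp
    | add y z hy hz => rw [map_add, map_add, hy, hz]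
  rw [h]
  exact (flat_left f hf).comp (flat_right g hg)

noncomputable def pBa : P3 →ₐ[ZMod 2] B :=
  { toRingHom := pB
    commutes' := fun r => RingHom.congr_fun
      (B2.zmod_hom_ext (pB.comp (algebraMap (ZMod 2) P3)) (algebraMap (ZMod 2) B)) r }

abbrev PP : Type := P3 ⊗[ZMod 2] P3

instance : IsDomain PP :=
  (MvPolynomial.algebraTensorAlgEquiv (ZMod 2) P3 (σ := Fin 3)).toMulEquiv.isDomain _

noncomputable def pp : PP →+* B2 := (Algebra.TensorProduct.map pBa pBa).toRingHom

theorem pp_flat : pp.Flat := flat_map pBa pBa pB_flat pB_flat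

noncomputable def j1 : P3 →+* PP := (Algebra.TensorProduct.includeLeft : P3 →ₐ[ZMod 2] PP).toRingHom
noncomputable def j2 : P3 →+* PP := (Algebra.TensorProduct.includeRight : P3 →ₐ[ZMod 2] PP).toRingHom

theorem pp_j1 : pp.comp j1 = B2.i1.comp pB := by
  apply RingHom.ext
  intro y
  show Algebra.TensorProduct.map pBa pBa (y ⊗ₜ[ZMod 2] (1 : P3)) = (pB y) ⊗ₜ[ZMod 2] (1 : B)
  rw [Algebra.TensorProduct.map_tmul, map_one]
  rfl

theorem pp_j2 : pp.comp j2 = B2.i2.comp pB := by
  apply RingHom.ext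
  intro y
  show Algebra.TensorProduct.map pBa pBa ((1 : P3) ⊗ₜ[ZMod 2] y) = (1 : B) ⊗ₜ[ZMod 2] (pB y)
  rw [Algebra.TensorProduct.map_tmul, map_one]
  rfl

noncomputable def mP : PP := j1 (X 0) * j2 (X 1) + j1 (X 1) * j2 (X 0)
noncomputable def dP : PP :=
  (j1 (X 2) * j2 (X 2)) * mP * (mP ^ 3 + j1 (X 1) ^ 3 * j2 (X 1) ^ 3)

theorem pp_1 (i : Fin 3) : pp (j1 (X i)) = B2.i1 (pB (X i)) := RingHom.congr_fun pp_j1 _
theorem pp_2 (i : Fin 3) : pp (j2 (X i)) = B2.i2 (pB (X i)) := RingHom.congr_fun pp_j2 _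

theorem pp_dP : pp dP = q B2.a B2.b * m B2.a B2.b * E B2.a B2.b := by
  unfold dP mP
  simp only [map_mul, map_add, map_pow, pp_1, pp_2, pB_0, pB_1, pB_2]
  rfl

theorem dP_ne : dP ≠ 0 := by
  intro h
  let F : PP →+* ZMod 2 := (Algebra.TensorProduct.lift (aeval ![1, 0, 1] : P3 →ₐ[ZMod 2] ZMod 2)
    (aeval ![0, 1, 1] : P3 →ₐ[ZMod 2] ZMod 2) (fun _ _ => Commute.all _ _)).toRingHom
  have F1 (i : Fin 3) : F (j1 (X i)) = ![1, 0, 1] i := by
    show Algebra.TensorProduct.lift _ _ (fun _ _ => Commute.all _ _) ((X i) ⊗ₜ[ZMod 2] (1 : P3)) = _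
    rw [Algebra.TensorProduct.lift_tmul, map_one, mul_one, aeval_X]
  have F2 (i : Fin 3) : F (j2 (X i)) = ![0, 1, 1] i := by
    show Algebra.TensorProduct.lift _ _ (fun _ _ => Commute.all _ _) ((1 : P3) ⊗ₜ[ZMod 2] (X i)) = _
    rw [Algebra.TensorProduct.lift_tmul, map_one, one_mul, aeval_X]
  have := congrArg F h
  unfold dP mP at this
  simp only [map_mul, map_add, map_pow, F1, F2, map_zero] at this
  revert this
  decide

theorem u_mul_n' {A : Type*} [CommRing A] [C2 A] (a b : Pt A) :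
    u a b * n a b = q a b * m a b * E a b := by
  have h2 : (2 : A) = 0 := C2.two
  refine c2_cases h2 (fun hch => ?_)
  linear_combination (norm := skip) (b.z ^ 2 + b.c ^ 2) * a.h1 + b.z * b.c * a.h2 +
    a.r * (a.s ^ 4 + a.s * a.x ^ 3) * b.h1 + a.r * a.x ^ 4 * b.h2
  clear * - hch
  simp only [u, n, q, m, E]
  grind

end RegB

open RegB

theorem B.s_reg (y : B) (h : B.univ.s * y = 0) : y = 0 := by
  rw [← pB_0] at h
  exact flat_reg pB_flat _ (MvPolynomial.X_ne_zero 0) y h

theorem B.x_reg (y : B) (h : B.univ.x * y = 0) : y = 0 := by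
  rw [← pB_1] at h
  exact flat_reg pB_flat _ (MvPolynomial.X_ne_zero 1) y h

theorem B.sx_reg (y z : B) (h : B.univ.x * y = B.univ.s * z) : ∃ y', y = B.univ.s * y' := by
  have hf := pB_flat
  letI : Algebra P3 B := pB.toAlgebra
  haveI : Module.Flat P3 B := hf
  have h1 := (wr_iff (X 0 : P3) (X 1)).2 P3_reg
  have h2 := h1.of_flat (S := B)
  have h3 := (wr_iff _ _).1 h2
  obtain ⟨y', hy'⟩ := h3.2 y z (by
    show pB (X 1) * y = pB (X 0) * z
    rw [pB_0, pB_1]
    exact h)
  refine ⟨y', ?_⟩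
  rw [hy']
  show pB (X 0) * y' = _
  rw [pB_0]

theorem B2.u_reg (y : B2) (h : u B2.a B2.b * y = 0) : y = 0 := by
  have h1 : pp dP * y = 0 := by
    rw [pp_dP, ← u_mul_n', mul_assoc, mul_comm (n B2.a B2.b), ← mul_assoc, h, zero_mul]
  exact flat_reg pp_flat dP dP_ne y h1

end Pool.Agent.AFP
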