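/-
MP_911691_ag, module M-CHART: `AW` is smooth over `B` (source map) near the closed orbit.

Plan.  Universal chart ring `A00 = MvPolynomial (Fin 9) B ⧸ (6 relations of Chart)` (variables
`S X Z C R L t M N`), with the naive presentation (`PreSubmersivePresentation.naive`)
whose relations are matched with the variables as
`f1 ↔ S, f2 ↔ X, f3 ↔ Z, f4 ↔ C, f5 ↔ R, fQ ↔ L`.  Let `J` be its Jacobian and `D = DD * J`.
* `A00[1/D]` is (standard) smooth over `B`, hence flat, so `x` is a nonzerodivisor there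
  (`B.x_reg`); by `Chart.exists_arr` it carries an arrow, so there is `AW → A00[1/D]`
  (`AW.lift`), and conversely `A00 → AW` (an arrow is a chart point: `Arr.toChart` below).
  Let `d` be the image of `D` in `AW`; the two maps give `A00[1/D] ≃ AW[1/d]` over `B`
  (`AW.hom_ext` and the universal property of `A00`).
* At a point `y` of `Spec AW` with `s, x` in the prime: `z, c` are in the prime
  (`zc = r x^4`, `z^2+c^2 = r(s^4+s x^3)`), so f5 gives `r R N^2 = 1`, fQ gives `M L = N^2`,
  f1, f2 give `S, X` in the prime, f3, f4 give `Z, C` in the prime, hence `DD = M N G (N G) (N (N G) G^2) G`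
  with `G = r L^2`, and the Jacobian matrix is diagonal `(N, N, G, G, r N^2, M)`: `d` is not in
  the prime.
-/
import Pool.Agent.AFP.ChartArr
import Pool.Agent.AFP.RegB
import Pool.Agent.AFP.Model
import Pool.Agent.AFP.FieldW

attribute [local instance] Pool.Agent.AFP.instCommRingAW Pool.Agent.AFP.instAlgebraZModAW
  Pool.Agent.AFP.instAlgebraB2AW

set_option linter.all false

open CategoryTheory Limits AlgebraicGeometry MvPolynomial

namespace Pool.Agent.AFP

/-- An arrow is in particular a chart point. -/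
@[simps] def Arr.toChart {A : Type*} [CommRing A] {a b : Pt A} (f : Arr a b) : Chart a where
  S := b.s
  X := b.x
  Z := b.z
  C := b.c
  R := b.r
  t := f.t
  M := f.M
  N := f.N
  L := f.L
  f1 := f.f1
  f2 := f.f2
  fQ := f.fQ
  f3 := f.f3
  f4 := f.f4
  f5 := f.f5

section rels

variable {A A' : Type*} [CommRing A] [CommRing A']

/-- The six chart relations (difference of the two sides), in the order
`f1, f2, f3, f4, f5, fQ`. -/
def chRel (a : Pt A) (S X Z C R L t M N : A) : Fin 6 → A := ![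
  S * N + a.s * M - t ^ 2 * X * (a.z * Z),
  a.x * M - (X * (N + t * a.x * X) + t * a.s * S ^ 2),
  N * a.z + a.r * L * (L + t * a.x ^ 2) * Z -
    t ^ 2 * (a.r * R) * a.c * (a.s ^ 2 * X ^ 2 * (N + t * a.x * X) + a.x ^ 2 * S ^ 2 * N),
  (N + t * a.x * X) * a.c + a.r * L * (L + t * a.x ^ 2) * C -
    t ^ 2 * (a.r * R) * a.z * (a.s ^ 2 * X ^ 2 * N + a.x ^ 2 * S ^ 2 * (N + t * a.x * X)),
  (a.r * R) * (N * (N + t * a.x * X) + t ^ 3 * a.s * S * (a.z * Z + a.c * C) +
    (a.r * R) * t ^ 8 * (a.z * Z + a.c * C) ^ 4) - 1,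
  N * (N + t * a.x * X) + M * L - t ^ 3 * a.s * S * (a.z * Z)]

theorem map_chRel (f : A →+* A') (a : Pt A) (S X Z C R L t M N : A) (i : Fin 6) :
    f (chRel a S X Z C R L t M N i) =
      chRel (a.map f) (f S) (f X) (f Z) (f C) (f R) (f L) (f t) (f M) (f N) i := by
  fin_cases i <;> simp [chRel]

theorem Chart.rel_eq_zero {a : Pt A} (g : Chart a) (i : Fin 6) :
    chRel a g.S g.X g.Z g.C g.R g.L g.t g.M g.N i = 0 := by
  fin_cases i
  · exact sub_eq_zero.2 g.f1
  · exact sub_eq_zero.2 g.f2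
  · exact sub_eq_zero.2 g.f3
  · exact sub_eq_zero.2 g.f4
  · exact sub_eq_zero.2 g.f5
  · exact sub_eq_zero.2 g.fQ

/-- a chart point from vanishing of the relations -/
@[simps] def Chart.ofRel {a : Pt A} (S X Z C R L t M N : A)
    (h : ∀ i, chRel a S X Z C R L t M N i = 0) : Chart a where
  S := S
  X := X
  Z := Z
  C := C
  R := R
  t := t
  M := M
  N := N
  L := L
  f1 := sub_eq_zero.1 (h 0)
  f2 := sub_eq_zero.1 (h 1)
  f3 := sub_eq_zero.1 (h 2)
  f4 := sub_eq_zero.1 (h 3)
  f5 := sub_eq_zero.1 (h 4)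
  fQ := sub_eq_zero.1 (h 5)

/-- base change of chart points -/
@[simps!] def Chart.map {a : Pt A} (f : A →+* A') (g : Chart a) : Chart (a.map f) :=
  Chart.ofRel (f g.S) (f g.X) (f g.Z) (f g.C) (f g.R) (f g.L) (f g.t) (f g.M) (f g.N)
    (fun i => by rw [← map_chRel, g.rel_eq_zero, map_zero])

theorem Chart.map_DD {a : Pt A} (f : A →+* A') (g : Chart a) : (g.map f).DD = f g.DD := by
  simp only [Chart.DD, Chart.D1, Chart.D2, Chart.D3, Chart.G, Chart.N', Chart.m, Chart.u,
    Chart.kap, Chart.d1, Chart.E, Chart.map_S, Chart.map_X, Chart.map_Z, Chart.map_C, Chart.map_R,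
    Chart.map_t, Chart.map_M, Chart.map_N, Chart.map_L, map_mul, map_add, map_sub, map_pow,
    Pt.map_s, Pt.map_x, Pt.map_z, Pt.map_c, Pt.map_r]

end rels

/-- the relations of the universal chart -/
noncomputable def relC : Fin 6 → MvPolynomial (Fin 9) B :=
  chRel (B.univ.map (MvPolynomial.C : B →+* MvPolynomial (Fin 9) B))
    (X 0) (X 1) (X 2) (X 3) (X 4) (X 5) (X 6) (X 7) (X 8)

/-- the ring of the universal chart -/
abbrev A00 : Type := MvPolynomial (Fin 9) B ⧸ Ideal.span (Set.range relC)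

/-- quotient map -/
noncomputable def mkC : MvPolynomial (Fin 9) B →+* A00 := Ideal.Quotient.mk _

theorem mkC_surjective : Function.Surjective mkC := Ideal.Quotient.mk_surjective

theorem mkC_rel (i : Fin 6) : mkC (relC i) = 0 :=
  Ideal.Quotient.eq_zero_iff_mem.2 (Ideal.subset_span ⟨i, rfl⟩)

/-- the universal chart point -/
noncomputable def g0 : Chart (B.univ.map (algebraMap B A00)) :=
  Chart.ofRel (mkC (X 0)) (mkC (X 1)) (mkC (X 2)) (mkC (X 3)) (mkC (X 4)) (mkC (X 5)) (mkC (X 6))
    (mkC (X 7)) (mkC (X 8)) (fun i => by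
      have h : mkC (chRel (B.univ.map (MvPolynomial.C : B →+* MvPolynomial (Fin 9) B))
        (X 0) (X 1) (X 2) (X 3) (X 4) (X 5) (X 6) (X 7) (X 8) i) = 0 := mkC_rel i
      rw [map_chRel, Pt.map_map] at h
      exact h)

/-- hom out of `A00` -/
noncomputable def A00.lift {A : Type*} [CommRing A] [C2 A] {a : Pt A} (g : Chart a) : A00 →+* A :=
  Ideal.Quotient.lift _ (eval₂Hom (B.lift a) ![g.S, g.X, g.Z, g.C, g.R, g.L, g.t, g.M, g.N]) (by
    intro y hy
    have : Ideal.span (Set.range relC) ≤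
        RingHom.ker (eval₂Hom (B.lift a) ![g.S, g.X, g.Z, g.C, g.R, g.L, g.t, g.M, g.N]) := by
      rw [Ideal.span_le]
      rintro _ ⟨i, rfl⟩
      rw [SetLike.mem_coe, RingHom.mem_ker]
      unfold relC
      rw [map_chRel, Pt.map_map]
      have e1 : (eval₂Hom (B.lift a) ![g.S, g.X, g.Z, g.C, g.R, g.L, g.t, g.M, g.N]).comp
          MvPolynomial.C = B.lift a := by
        apply RingHom.ext
        intro y
        exact eval₂Hom_C _ _ _
      rw [e1, B.univ_map_lift]
      simpa using g.rel_eq_zero i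
    exact this hy)

theorem A00.lift_comp {A : Type*} [CommRing A] [C2 A] {a : Pt A} (g : Chart a) :
    (A00.lift g).comp (algebraMap B A00) = B.lift a := by
  apply RingHom.ext
  intro y
  exact eval₂Hom_C _ _ _

theorem A00.lift_mkC_X {A : Type*} [CommRing A] [C2 A] {a : Pt A} (g : Chart a) (i : Fin 9) :
    A00.lift g (mkC (X i)) = ![g.S, g.X, g.Z, g.C, g.R, g.L, g.t, g.M, g.N] i :=
  eval₂Hom_X' _ _ _

theorem jac_naive {R σ ι : Type*} [CommRing R] [Fintype ι] [DecidableEq ι]
    (v : ι → MvPolynomial σ R) (a : ι → σ) (ha : Function.Injective a) :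
    (Algebra.PreSubmersivePresentation.naive (v := v) a ha).jacobian =
      Ideal.Quotient.mk _ (Matrix.det (Matrix.of fun i j => pderiv (a i) (v j))) := by
  rw [Algebra.PreSubmersivePresentation.jacobian_eq_jacobiMatrix_det]
  have h : (Algebra.PreSubmersivePresentation.naive (v := v) a ha).jacobiMatrix =
      Matrix.of fun i j => pderiv (a i) (v j) := by
    ext1 i j
    exact Algebra.PreSubmersivePresentation.jacobiMatrix_naive _ _ _ _ _ _
  rw [h]
  rfl

/-- matching of the relations with the variables -/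
def rmap : Fin 6 → Fin 9 := Fin.castLE (by norm_num)

theorem rmap_inj : Function.Injective rmap := Fin.castLE_injective _

/-- the naive presentation -/
noncomputable def P0 : Algebra.PreSubmersivePresentation B A00 (Fin 9) (Fin 6) :=
  Algebra.PreSubmersivePresentation.naive (v := relC) rmap rmap_inj

theorem P0_jac : P0.jacobian =
    mkC (Matrix.det (Matrix.of fun i j : Fin 6 => pderiv (rmap i) (relC j))) :=
  jac_naive relC rmap rmap_inj

/-- localisation at a multiple of the Jacobian is standard smooth -/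
theorem isStandardSmooth_of_jac {R S T ι σ : Type*} [CommRing R] [CommRing S] [CommRing T]
    [Algebra R S] [Algebra S T] [Algebra R T] [IsScalarTower R S T] [Finite ι] [Finite σ]
    (P : Algebra.PreSubmersivePresentation R S ι σ) (D : S) [IsLocalization.Away D T]
    (h : IsUnit (algebraMap S T P.jacobian)) : Algebra.IsStandardSmooth R T := by
  let Q := (Algebra.PreSubmersivePresentation.localizationAway T D).comp P
  have hQ : IsUnit Q.jacobian := by
    rw [Algebra.PreSubmersivePresentation.comp_jacobian_eq_jacobian_smul_jacobian,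
      Algebra.PreSubmersivePresentation.localizationAway_jacobian, Algebra.smul_def]
    exact h.mul (IsLocalization.Away.algebraMap_isUnit D)
  exact (⟨Q, hQ⟩ : Algebra.SubmersivePresentation R T _ _).isStandardSmooth

theorem rmap_0 : rmap 0 = 0 := rfl
theorem rmap_1 : rmap 1 = 1 := rfl
theorem rmap_2 : rmap 2 = 2 := rfl
theorem rmap_3 : rmap 3 = 3 := rfl
theorem rmap_4 : rmap 4 = 4 := rfl
theorem rmap_5 : rmap 5 = 5 := rfl

/-- the Jacobian at a point over the closed orbit -/
theorem jac_at {K : Type*} [Field K] (h : MvPolynomial (Fin 9) B →+* K)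
    (hs : h (MvPolynomial.C B.univ.s) = 0) (hx : h (MvPolynomial.C B.univ.x) = 0)
    (hz : h (MvPolynomial.C B.univ.z) = 0) (hc : h (MvPolynomial.C B.univ.c) = 0)
    (h0 : h (X 0) = 0) (h1 : h (X 1) = 0) (h2 : h (X 2) = 0) (h3 : h (X 3) = 0) :
    h (Matrix.det (Matrix.of fun i j : Fin 6 => pderiv (rmap i) (relC j))) =
      Matrix.det (Matrix.diagonal ![h (X 8), -h (X 8),
        h (MvPolynomial.C B.univ.r) * h (X 5) * h (X 5),
        h (MvPolynomial.C B.univ.r) * h (X 5) * h (X 5),
        h (MvPolynomial.C B.univ.r) * (h (X 8) * h (X 8)), h (X 7)]) := by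
  rw [RingHom.map_det]
  congr 1
  ext i j
  rw [RingHom.mapMatrix_apply, Matrix.map_apply, Matrix.of_apply]
  fin_cases i <;> fin_cases j <;>
    simp [relC, chRel, rmap_0, rmap_1, rmap_2, rmap_3, rmap_4, rmap_5, Derivation.leibniz,
      Derivation.leibniz_pow, pderiv_X_of_ne, hs, hx, hz, hc, h0, h1, h2, h3, mul_assoc]

instance : C2 A00 := C2.ofHom (algebraMap B A00)

/-- the elements to be inverted, in the universal chart -/
noncomputable def D0 : A00 := g0.DD * P0.jacobian

/-- the chart point of an arrow, as a ring map -/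
noncomputable def e0 : A00 →+* AW := A00.lift AW.arr.toChart

theorem e0_comp : e0.comp (algebraMap B A00) = AW.src := by
  unfold e0
  rw [A00.lift_comp]
  apply B.hom_ext
  rw [B.univ_map_lift, AW.a_eq]

theorem e0_X (i : Fin 9) : e0 (mkC (X i)) =
    ![AW.b.s, AW.b.x, AW.b.z, AW.b.c, AW.b.r, AW.arr.L, AW.arr.t, AW.arr.M, AW.arr.N] i := by
  unfold e0
  rw [A00.lift_mkC_X]
  rfl

/-- two charts on the same ring, over equal base points -/
theorem Chart.DD_congr {A : Type*} [CommRing A] {a a' : Pt A} (h : a = a') (g : Chart a)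
    (g' : Chart a') (hS : g.S = g'.S) (hX : g.X = g'.X) (hZ : g.Z = g'.Z) (hC : g.C = g'.C)
    (hR : g.R = g'.R) (hL : g.L = g'.L) (ht : g.t = g'.t) (hM : g.M = g'.M) (hN : g.N = g'.N) :
    g.DD = g'.DD := by
  subst h
  have : g = g' := Chart.ext hS hX hZ hC hR ht hM hN hL
  rw [this]

theorem e0_DD : e0 g0.DD = AW.arr.toChart.DD := by
  rw [← Chart.map_DD]
  refine Chart.DD_congr ?_ _ _ ?_ ?_ ?_ ?_ ?_ ?_ ?_ ?_ ?_
  · rw [Pt.map_map, e0_comp, AW.a_eq]
  · exact e0_X 0
  · exact e0_X 1
  · exact e0_X 2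
  · exact e0_X 3
  · exact e0_X 4
  · exact e0_X 5
  · exact e0_X 6
  · exact e0_X 7
  · exact e0_X 8

section point

variable {K : Type*} [Field K] [C2 K] {a b : Pt K}

theorem Arr.NML (f : Arr a b) (hs : a.s = 0) (hx : a.x = 0) :
    f.N ≠ 0 ∧ f.M ≠ 0 ∧ f.L ≠ 0 ∧ a.r ≠ 0 := by
  obtain ⟨hz, hc⟩ := a.zc_zero hs hx
  have hN : f.N ≠ 0 := by
    intro h
    have h5 := f.f5
    rw [h, hs, hx] at h5
    simp [u, hz, hc] at h5
  have hQ := f.fQ
  rw [hs, hx] at hQ
  have hML : f.M * f.L = -(f.N * f.N) := by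
    linear_combination hQ
  have h0 : f.M * f.L ≠ 0 := by
    rw [hML]
    exact neg_ne_zero.2 (mul_ne_zero hN hN)
  refine ⟨hN, left_ne_zero_of_mul h0, right_ne_zero_of_mul h0, ?_⟩
  intro h
  have := a.hr
  rw [h] at this
  simp at this

theorem Arr.DD_ne_zero (f : Arr a b) (hs : a.s = 0) (hx : a.x = 0) : f.toChart.DD ≠ 0 := by
  obtain ⟨hz, hc⟩ := a.zc_zero hs hx
  obtain ⟨hN, hM, hL, hr⟩ := f.NML hs hx
  have hG : f.toChart.G = a.r * f.L * f.L := by
    simp only [Chart.G, Arr.toChart, hx]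
    ring
  have hG0 : f.toChart.G ≠ 0 := by
    rw [hG]
    exact mul_ne_zero (mul_ne_zero hr hL) hL
  have hN0 : f.toChart.N ≠ 0 := hN
  have hM0 : f.toChart.M ≠ 0 := hM
  have hD1 : f.toChart.D1 = f.toChart.N * f.toChart.G := by
    simp only [Chart.D1, hs]
    ring
  have hD2 : f.toChart.D2 = f.toChart.N * f.toChart.D1 * f.toChart.G ^ 2 := by
    simp only [Chart.D2, Chart.kap, hs, hz]
    ring
  have hD3 : f.toChart.D3 = f.toChart.G := by
    simp only [Chart.D3, hx]
    ring
  unfold Chart.DD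
  rw [hD3, hD2, hD1]
  refine mul_ne_zero (mul_ne_zero (mul_ne_zero (mul_ne_zero (mul_ne_zero hM0 hN0) hG0) ?_) ?_) hG0
  · exact mul_ne_zero hN0 hG0
  · exact mul_ne_zero (mul_ne_zero hN0 (mul_ne_zero hN0 hG0)) (pow_ne_zero 2 hG0)

/-- `D` does not vanish at points over the closed orbit -/
theorem D0_ne_zero (f : AW →+* K) (hs : f AW.a.s = 0) (hx : f AW.a.x = 0) : f (e0 D0) ≠ 0 := by
  have hs' : (AW.a.map f).s = 0 := hs
  have hx' : (AW.a.map f).x = 0 := hx
  obtain ⟨hz, hc⟩ := (AW.a.map f).zc_zero hs' hx'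
  obtain ⟨hbs, hbx⟩ := (AW.arr.map f).closed hs' hx'
  obtain ⟨hbz, hbc⟩ := (AW.b.map f).zc_zero hbs hbx
  obtain ⟨hN, hM, hL, hr⟩ := (AW.arr.map f).NML hs' hx'
  unfold D0
  rw [map_mul, map_mul, e0_DD, ← Chart.map_DD]
  refine mul_ne_zero ?_ ?_
  · have h := (AW.arr.map f).DD_ne_zero hs' hx'
    intro h0
    apply h
    rw [← h0]
    exact Chart.DD_congr rfl _ _ rfl rfl rfl rfl rfl rfl rfl rfl rfl
  · rw [P0_jac]
    have hC : ∀ y : B, (f.comp (e0.comp mkC)) (MvPolynomial.C y) = f (AW.src y) := by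
      intro y
      rw [← e0_comp]
      rfl
    have hX : ∀ i : Fin 9, (f.comp (e0.comp mkC)) (X i) = f (![AW.b.s, AW.b.x, AW.b.z, AW.b.c,
        AW.b.r, AW.arr.L, AW.arr.t, AW.arr.M, AW.arr.N] i) := by
      intro i
      rw [← e0_X]
      rfl
    have ea : AW.a = B.univ.map AW.src := AW.a_eq
    have h := jac_at (f.comp (e0.comp mkC)) (by rw [hC]; rw [ea] at hs; exact hs)
      (by rw [hC]; rw [ea] at hx; exact hx)
      (by rw [hC]; rw [ea] at hz; exact hz) (by rw [hC]; rw [ea] at hc; exact hc)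
      (by rw [hX]; exact hbs) (by rw [hX]; exact hbx) (by rw [hX]; exact hbz)
      (by rw [hX]; exact hbc)
    change (f.comp (e0.comp mkC)) _ ≠ 0
    rw [h, Matrix.det_diagonal, Fin.prod_univ_six]
    have hr' : (f.comp (e0.comp mkC)) (MvPolynomial.C B.univ.r) ≠ 0 := by
      rw [hC]
      rw [ea] at hr
      exact hr
    have hL' : (f.comp (e0.comp mkC)) (X 5) ≠ 0 := by rw [hX]; exact hL
    have hM' : (f.comp (e0.comp mkC)) (X 7) ≠ 0 := by rw [hX]; exact hM
    have hN' : (f.comp (e0.comp mkC)) (X 8) ≠ 0 := by rw [hX]; exact hN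
    generalize (f.comp (e0.comp mkC)) (MvPolynomial.C B.univ.r) = r at *
    generalize (f.comp (e0.comp mkC)) (X 5) = L at *
    generalize (f.comp (e0.comp mkC)) (X 7) = M at *
    generalize (f.comp (e0.comp mkC)) (X 8) = N at *
    simp [hr', hL', hM', hN']

end point

/-- the localised universal chart -/
abbrev A1 : Type := Localization.Away D0

theorem smooth_comp {R S T ι σ : Type*} [CommRing R] [CommRing S] [CommRing T]
    [Algebra R S] [Algebra S T] [Finite ι] [Finite σ]
    (P : Algebra.PreSubmersivePresentation R S ι σ) (D : S) [IsLocalization.Away D T]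
    (h : IsUnit (algebraMap S T P.jacobian)) :
    ((algebraMap S T).comp (algebraMap R S)).Smooth := by
  letI : Algebra R T := ((algebraMap S T).comp (algebraMap R S)).toAlgebra
  haveI : IsScalarTower R S T := IsScalarTower.of_algebraMap_eq' rfl
  haveI := isStandardSmooth_of_jac (T := T) P D h
  exact (inferInstance : Algebra.Smooth R T)

theorem isUnit_both {S T : Type*} [CommRing S] [CommRing T] (f : S →+* T) (x y : S)
    (h : IsUnit (f (x * y))) : IsUnit (f x) ∧ IsUnit (f y) := by
  rw [map_mul, IsUnit.mul_iff] at h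
  exact h

theorem isUnit_DD_J : IsUnit (algebraMap A00 A1 g0.DD) ∧
    IsUnit (algebraMap A00 A1 P0.jacobian) :=
  isUnit_both (algebraMap A00 A1) g0.DD P0.jacobian (IsLocalization.Away.algebraMap_isUnit D0)

/-- structure map -/
noncomputable def j1 : B →+* A1 := (algebraMap A00 A1).comp (algebraMap B A00)

theorem smooth_j1 : j1.Smooth := smooth_comp (T := A1) P0 D0 isUnit_DD_J.2

theorem reg_of_smooth_flat {R S : Type*} [CommRing R] [CommRing S] (f : R →+* S) (hf : f.Smooth)
    (x : R) (hx : ∀ y : R, x * y = 0 → y = 0) (y : S) (hy : f x * y = 0) : y = 0 := by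
  letI := f.toAlgebra
  haveI : Algebra.Smooth R S := hf
  have h1 : IsSMulRegular R x := by
    intro a b hab
    have : x * (a - b) = 0 := by
      rw [mul_sub]
      exact sub_eq_zero.2 hab
    exact sub_eq_zero.1 (hx _ this)
  have h2 : IsSMulRegular S (algebraMap R S x) := h1.of_flat
  apply h2
  change f x * y = f x * 0
  rw [hy, mul_zero]

/-- the chart point of `A1` -/
noncomputable def g1 : Chart (B.univ.map j1) :=
  (Chart.map (algebraMap A00 A1) g0 : Chart ((B.univ.map (algebraMap B A00)).map (algebraMap A00 A1)))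

theorem g1_DD : IsUnit g1.DD := by
  have h : g1.DD = algebraMap A00 A1 g0.DD := Chart.map_DD _ _
  rw [h]
  exact isUnit_DD_J.1

theorem C2.ofHom' {A A' : Type*} [CommRing A] [CommRing A'] [C2 A] (f : A →+* A') : C2 A' :=
  C2.ofHom f

theorem exists_psi : ∃ ψ : AW →+* A1, ψ.comp e0 = algebraMap A00 A1 ∧ ψ.comp AW.src = j1 := by
  haveI : C2 A1 := C2.ofHom (algebraMap A00 A1)
  obtain ⟨b, f, hs, hx, hz, hc, hr, ht, hM, hN, hL⟩ := g1.exists_arr g1_DD
    (fun y hy => reg_of_smooth_flat j1 smooth_j1 B.univ.x B.x_reg y hy)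
  have h2 : (AW.lift f).comp AW.src = j1 := by
    apply B.hom_ext
    rw [← Pt.map_map, ← AW.a_eq, AW.a_map_lift]
  refine ⟨AW.lift f, ?_, h2⟩
  apply Ideal.Quotient.ringHom_ext
  apply MvPolynomial.ringHom_ext
  · intro y
    have h3 := RingHom.congr_fun h2 y
    rw [← e0_comp] at h3
    exact h3
  · intro i
    have hb : AW.b.map (AW.lift f) = b := AW.b_map_lift f
    have h4 : ((AW.lift f).comp e0) (mkC (X i)) = AW.lift f (![AW.b.s, AW.b.x, AW.b.z, AW.b.c,
        AW.b.r, AW.arr.L, AW.arr.t, AW.arr.M, AW.arr.N] i) := by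
      rw [← e0_X]
      rfl
    refine h4.trans ?_
    fin_cases i
    · exact (congrArg Pt.s hb).trans hs
    · exact (congrArg Pt.x hb).trans hx
    · exact (congrArg Pt.z hb).trans hz
    · exact (congrArg Pt.c hb).trans hc
    · exact (congrArg Pt.r hb).trans hr
    · exact (AW.lift_L f).trans hL
    · exact (AW.lift_t f).trans ht
    · exact (AW.lift_M f).trans hM
    · exact (AW.lift_N f).trans hN

/-- two maps out of `AW` which agree on the image of `e0` and of the source agree -/
theorem AW_ext {A : Type*} [CommRing A] {f g : AW →+* A} (h1 : f.comp AW.src = g.comp AW.src)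
    (h2 : f.comp e0 = g.comp e0) : f = g := by
  have hX : ∀ i : Fin 9, f (![AW.b.s, AW.b.x, AW.b.z, AW.b.c,
        AW.b.r, AW.arr.L, AW.arr.t, AW.arr.M, AW.arr.N] i) = g (![AW.b.s, AW.b.x, AW.b.z, AW.b.c,
        AW.b.r, AW.arr.L, AW.arr.t, AW.arr.M, AW.arr.N] i) := by
    intro i
    rw [← e0_X]
    exact RingHom.congr_fun h2 (mkC (X i))
  apply AW.hom_ext
  · rw [AW.a_eq, Pt.map_map, Pt.map_map, h1]
  · exact Pt.ext' (hX 0) (hX 1) (hX 2) (hX 3) (hX 4)
  · exact hX 6
  · exact hX 7
  · exact hX 8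
  · exact hX 5

/-- smoothness of the source map near the closed orbit -/
theorem smooth_near (p : PrimeSpectrum AW) (hs : AW.a.s ∈ p.asIdeal) (hx : AW.a.x ∈ p.asIdeal) :
    ∃ d : AW, d ∉ p.asIdeal ∧
      ((algebraMap AW (Localization.Away d)).comp AW.src).Smooth := by
  refine ⟨e0 D0, ?_, ?_⟩
  · intro hmem
    let f : AW →+* p.asIdeal.ResidueField := algebraMap AW _
    have hf : ∀ y, f y = 0 ↔ y ∈ p.asIdeal := fun y => Ideal.algebraMap_residueField_eq_zero
    haveI : C2 p.asIdeal.ResidueField := C2.ofHom f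
    exact D0_ne_zero f ((hf _).2 hs) ((hf _).2 hx) ((hf _).2 hmem)
  · obtain ⟨ψ, hψ, hψs⟩ := exists_psi
    have hu : IsUnit (((algebraMap AW (Localization.Away (e0 D0))).comp e0) D0) :=
      IsLocalization.Away.algebraMap_isUnit (e0 D0)
    let φ' : A1 →+* Localization.Away (e0 D0) :=
      IsLocalization.Away.lift D0 (g := (algebraMap AW (Localization.Away (e0 D0))).comp e0) hu
    have hφ' : φ'.comp (algebraMap A00 A1) =
      (algebraMap AW (Localization.Away (e0 D0))).comp e0 := IsLocalization.Away.lift_comp _ _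
    have hv : IsUnit (ψ (e0 D0)) := by
      have : ψ (e0 D0) = algebraMap A00 A1 D0 := RingHom.congr_fun hψ D0
      rw [this]
      exact IsLocalization.Away.algebraMap_isUnit D0
    let ψ' : Localization.Away (e0 D0) →+* A1 := IsLocalization.Away.lift (e0 D0) (g := ψ) hv
    have hψ' : ψ'.comp (algebraMap AW (Localization.Away (e0 D0))) = ψ :=
      IsLocalization.Away.lift_comp _ _
    have h1 : ψ'.comp φ' = RingHom.id A1 := by
      apply IsLocalization.ringHom_ext (Submonoid.powers D0)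
      rw [RingHom.comp_assoc, hφ', ← RingHom.comp_assoc, hψ', hψ, RingHom.id_comp]
    have hsrc : φ'.comp j1 = (algebraMap AW (Localization.Away (e0 D0))).comp AW.src := by
      unfold j1
      rw [← RingHom.comp_assoc, hφ', RingHom.comp_assoc, e0_comp]
    have h3 : φ'.comp ψ = algebraMap AW (Localization.Away (e0 D0)) := by
      apply AW_ext
      · rw [RingHom.comp_assoc, hψs, hsrc]
      · rw [RingHom.comp_assoc, hψ, hφ']
    have h2 : φ'.comp ψ' = RingHom.id _ := by
      apply IsLocalization.ringHom_ext (Submonoid.powers (e0 D0))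
      rw [RingHom.comp_assoc, hψ', h3, RingHom.id_comp]
    have hbij : Function.Bijective φ' := by
      refine ⟨?_, ?_⟩
      · exact Function.LeftInverse.injective (g := ψ') (fun y => RingHom.congr_fun h1 y)
      · exact Function.RightInverse.surjective (g := ψ') (fun y => RingHom.congr_fun h2 y)
    rw [← hsrc]
    exact smooth_j1.comp (RingHom.Smooth.of_bijective hbij)

end Pool.Agent.AFP
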