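/-
MP_911691_ag, module M-OPEN: over `U × U` the map `phi : W ⟶ T × T` is an open immersion.
-/
import Pool.Agent.AFP.Model
import Pool.Agent.AFP.FieldW

attribute [local instance] Pool.Agent.AFP.instCommRingAW Pool.Agent.AFP.instAlgebraZModAW
  Pool.Agent.AFP.instAlgebraB2AW

set_option linter.all false

open CategoryTheory Limits AlgebraicGeometry

namespace Pool.Agent.AFP

/-! ### arrows when `u` or `v E` is a unit -/

section arrows

variable {A : Type*} [CommRing A] [C2 A] {a b : Pt A}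

theorem kos_of_isUnit_left {g h : A} (hg : IsUnit g) (α β : A) (e : g * β = h * α) :
    ∃ y, g * y = α ∧ h * y = β := by
  obtain ⟨g', hg'⟩ := hg.exists_right_inv
  refine ⟨g' * α, by rw [← mul_assoc, hg', one_mul], ?_⟩
  linear_combination (-g') * e + β * hg'

theorem kos_of_isUnit_right {g h : A} (hh : IsUnit h) (α β : A) (e : g * β = h * α) :
    ∃ y, g * y = α ∧ h * y = β := by
  obtain ⟨y, h1, h2⟩ := kos_of_isUnit_left hh β α e.symm
  exact ⟨y, h2, h1⟩

theorem exists_arr_of_u (h : IsUnit (u a b)) : Nonempty (Arr a b) := by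
  obtain ⟨u', hu'⟩ := h.exists_right_inv
  obtain ⟨f, -⟩ := PreArr.exists_of_kos (a := a) (b := b) (m a b * u')
    (by linear_combination m a b * hu')
    (by linear_combination (-u') * u_mul_n a b + n a b * hu')
    (fun α β e => kos_of_isUnit_left h α β e)
    (fun α β e => kos_of_isUnit_left h α β e)
    (fun α β e => kos_of_isUnit_left h α β e)
  exact ⟨f.toArr (Faith.of_isUnit_u h)⟩

theorem exists_arr_of_vE (h : IsUnit (v a b * E a b)) : Nonempty (Arr a b) := by
  have hv : IsUnit (v a b) := isUnit_of_mul_isUnit_left h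
  have hE : IsUnit (E a b) := isUnit_of_mul_isUnit_right h
  have hq : IsUnit (q a b) := by
    simp only [v] at hv
    exact isUnit_of_mul_isUnit_left (isUnit_of_mul_isUnit_left hv)
  have hax : IsUnit a.x := by
    simp only [v] at hv
    exact (isUnit_pow_iff two_ne_zero).1
      (isUnit_of_mul_isUnit_right (isUnit_of_mul_isUnit_left hv))
  have hbx : IsUnit b.x := by
    simp only [v] at hv
    exact (isUnit_pow_iff two_ne_zero).1 (isUnit_of_mul_isUnit_right hv)
  obtain ⟨e', he'⟩ := (hq.mul hE).exists_right_inv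
  obtain ⟨f, -⟩ := PreArr.exists_of_kos (a := a) (b := b) (n a b * e')
    (by linear_combination e' * u_mul_n a b + m a b * he')
    (by linear_combination n a b * he')
    (fun α β e => kos_of_isUnit_right hv α β e)
    (fun α β e => kos_of_isUnit_right hax α β e)
    (fun α β e => kos_of_isUnit_right hbx α β e)
  exact ⟨f.toArr (Faith.of_isUnit_v hv)⟩

theorem Arr.eq_of_faith {p q p' q' : Pt A} (f : Arr p q) (f' : Arr p' q') (hp : p = p')
    (hq : q = q') (H : Faith p q) : f.t = f'.t ∧ f.M = f'.M ∧ f.N = f'.N ∧ f.L = f'.L := by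
  subst hp
  subst hq
  rw [Arr.ext_of H f f']
  exact ⟨rfl, rfl, rfl, rfl⟩

end arrows

theorem AW.hom_ext_of_faith {A : Type*} [CommRing A] [C2 A] (ρ ρ' : AW →+* A)
    (h : ρ.comp AW.str = ρ'.comp AW.str) (H : Faith (AW.a.map ρ) (AW.b.map ρ)) : ρ = ρ' := by
  have ha : AW.a.map ρ = AW.a.map ρ' := by
    rw [AW.a, Pt.map_map, Pt.map_map, h]
  have hb : AW.b.map ρ = AW.b.map ρ' := by
    rw [AW.b, Pt.map_map, Pt.map_map, h]
  obtain ⟨h1, h2, h3, h4⟩ := Arr.eq_of_faith (AW.arr.map ρ) (AW.arr.map ρ') ha hb H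
  exact AW.hom_ext ha hb h1 h2 h3 h4

/-! ### localisation of a ring map which becomes an isomorphism -/

section loc

variable {A A' : Type} [CommRing A] [CommRing A'] (ψ : A →+* A') (g : A)

/-- `A → A'` becomes bijective after inverting `g`: then `Spec A'_g ⟶ Spec A` is an open
immersion. -/
theorem open_of_section (σ : A' →+* Localization.Away g)
    (h1 : σ.comp ψ = algebraMap A (Localization.Away g))
    (h2 : ∀ ρ ρ' : A' →+* Localization.Away (ψ g), ρ.comp ψ = ρ'.comp ψ →
      IsUnit (ρ (ψ g)) → ρ = ρ') :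
    IsOpenImmersion (Spec.map (CommRingCat.ofHom
      ((algebraMap A' (Localization.Away (ψ g))).comp ψ))) := by
  obtain ⟨τ, hτ⟩ : ∃ τ : Localization.Away g →+* Localization.Away (ψ g),
      τ.comp (algebraMap A (Localization.Away g)) =
      (algebraMap A' (Localization.Away (ψ g))).comp ψ :=
    ⟨IsLocalization.Away.lift (S := Localization.Away g) g
      (g := (algebraMap A' (Localization.Away (ψ g))).comp ψ)
      (IsLocalization.Away.algebraMap_isUnit (ψ g)), IsLocalization.Away.lift_comp _ _⟩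
  have hσu : IsUnit (σ (ψ g)) := by
    have : σ (ψ g) = algebraMap A (Localization.Away g) g :=
      congrArg (fun k : A →+* Localization.Away g => k g) h1
    rw [this]
    exact IsLocalization.Away.algebraMap_isUnit g
  obtain ⟨σ', hσ'⟩ : ∃ σ' : Localization.Away (ψ g) →+* Localization.Away g,
      σ'.comp (algebraMap A' (Localization.Away (ψ g))) = σ :=
    ⟨IsLocalization.Away.lift (S := Localization.Away (ψ g)) (ψ g) (g := σ) hσu,
      IsLocalization.Away.lift_comp _ _⟩
  have e1 : τ.comp σ' = RingHom.id _ := by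
    apply IsLocalization.ringHom_ext (R := A') (Submonoid.powers (ψ g))
    rw [RingHom.id_comp, RingHom.comp_assoc, hσ']
    symm
    apply h2
    · rw [RingHom.comp_assoc, h1, hτ]
    · exact IsLocalization.Away.algebraMap_isUnit (ψ g)
  have e2 : σ'.comp τ = RingHom.id _ := by
    apply IsLocalization.ringHom_ext (R := A) (Submonoid.powers g)
    rw [RingHom.id_comp, RingHom.comp_assoc, hτ, ← RingHom.comp_assoc, hσ', h1]
  have hiso : IsIso (Spec.map (CommRingCat.ofHom τ)) := by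
    refine ⟨Spec.map (CommRingCat.ofHom σ'), ?_, ?_⟩
    · rw [← Spec.map_comp, ← CommRingCat.ofHom_comp, e1, CommRingCat.ofHom_id, Spec.map_id]
    · rw [← Spec.map_comp, ← CommRingCat.ofHom_comp, e2, CommRingCat.ofHom_id, Spec.map_id]
  rw [← hτ, CommRingCat.ofHom_comp, Spec.map_comp]
  infer_instance

end loc

/-- the two open sets `D(u)`, `D(v E)` -/
theorem open_of_arr (g : B2) (hF : ∀ (A : Type) [CommRing A] [C2 A] (f : B2 →+* A),
      IsUnit (f g) → Nonempty (Arr (B2.a.map f) (B2.b.map f)) ∧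
        Faith (B2.a.map f) (B2.b.map f)) :
    IsOpenImmersion (Spec.map (CommRingCat.ofHom
      ((algebraMap AW (Localization.Away (AW.str g))).comp AW.str))) := by
  have hC : C2 (Localization.Away g) := C2.ofHom (algebraMap B2 _)
  have hC' : C2 (Localization.Away (AW.str g)) := C2.ofHom (algebraMap AW _)
  obtain ⟨⟨f⟩, -⟩ := hF (Localization.Away g) (algebraMap B2 _)
    (IsLocalization.Away.algebraMap_isUnit g)
  refine open_of_section AW.str g (AW.lift f) ?_ ?_
  · rw [AW.lift_comp_str]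
    exact B2.hom_ext (B2.a_map_lift _ _) (B2.b_map_lift _ _)
  · intro ρ ρ' h hu
    refine AW.hom_ext_of_faith ρ ρ' h ?_
    have := (hF _ (ρ.comp AW.str) hu).2
    rw [← Pt.map_map, ← Pt.map_map] at this
    exact this

theorem open_of_u : IsOpenImmersion (Spec.map (CommRingCat.ofHom
      ((algebraMap AW (Localization.Away (AW.str (u B2.a B2.b)))).comp AW.str))) := by
  refine open_of_arr _ (fun A _ _ f hf => ?_)
  rw [map_u] at hf
  exact ⟨exists_arr_of_u hf, Faith.of_isUnit_u hf⟩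

theorem open_of_vE : IsOpenImmersion (Spec.map (CommRingCat.ofHom
      ((algebraMap AW (Localization.Away (AW.str (v B2.a B2.b * E B2.a B2.b)))).comp AW.str))) := by
  refine open_of_arr _ (fun A _ _ f hf => ?_)
  rw [map_mul, map_v, map_E] at hf
  exact ⟨exists_arr_of_vE hf, Faith.of_isUnit_v (isUnit_of_mul_isUnit_left hf)⟩

/-! ### points -/

theorem mem_UT (y : TS) : y ∈ UT ↔ B.univ.s ∉ y.asIdeal ∨ B.univ.x ∉ y.asIdeal := Iff.rfl

theorem mem_src (x : WS) : x ∈ srcS ⁻¹ᵁ UT ↔ AW.a.s ∉ x.asIdeal ∨ AW.a.x ∉ x.asIdeal := by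
  rw [AW.a_eq]
  exact Iff.rfl

theorem mem_tgt (x : WS) : x ∈ tgtS ⁻¹ᵁ UT ↔ AW.b.s ∉ x.asIdeal ∨ AW.b.x ∉ x.asIdeal := by
  rw [AW.b_eq]
  exact Iff.rfl

theorem mem_UU (x : WS) : x ∈ phi ⁻¹ᵁ UU fT UT ↔ x ∈ srcS ⁻¹ᵁ UT ∧ x ∈ tgtS ⁻¹ᵁ UT := by
  rw [← phi_fst, ← phi_snd]
  exact Iff.rfl

/-- an arrow over a residue field -/
theorem AW.src_iff_tgt (x : PrimeSpectrum AW) :
    (AW.a.s ∉ x.asIdeal ∨ AW.a.x ∉ x.asIdeal) ↔ (AW.b.s ∉ x.asIdeal ∨ AW.b.x ∉ x.asIdeal) := by
  let φ : AW →+* x.asIdeal.ResidueField := algebraMap AW x.asIdeal.ResidueField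
  have hφ : ∀ y, φ y = 0 ↔ y ∈ x.asIdeal := fun y => Ideal.algebraMap_residueField_eq_zero
  have : C2 x.asIdeal.ResidueField := C2.ofHom φ
  simp only [← hφ]
  have h1 := (AW.arr.map φ).closed
  have h2 := (AW.arr.map φ).closed'
  simp only [Pt.map_s, Pt.map_x] at h1 h2
  tauto

theorem AW.u_or_vE (x : PrimeSpectrum AW) (ha : AW.a.s ∉ x.asIdeal ∨ AW.a.x ∉ x.asIdeal) :
    AW.str (u B2.a B2.b) ∉ x.asIdeal ∨ AW.str (v B2.a B2.b * E B2.a B2.b) ∉ x.asIdeal := by
  have hb := (AW.src_iff_tgt x).1 ha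
  let φ : AW →+* x.asIdeal.ResidueField := algebraMap AW x.asIdeal.ResidueField
  have hφ : ∀ y, φ y = 0 ↔ y ∈ x.asIdeal := fun y => Ideal.algebraMap_residueField_eq_zero
  have : C2 x.asIdeal.ResidueField := C2.ofHom φ
  simp only [← hφ] at ha hb ⊢
  have h := Pool.Agent.AFP.u_or_vE _ (AW.arr.map φ).r1 (AW.arr.map φ).r2 ha hb
  rw [map_u, map_mul, map_v, map_E, map_mul, map_u, map_v, map_E]
  exact h

theorem pre1_phi : (phi ≫ pullback.fst fT fT) ⁻¹ᵁ UT = phi ⁻¹ᵁ UU fT UT := by
  rw [phi_fst]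
  ext x
  rw [SetLike.mem_coe, SetLike.mem_coe, mem_UU, mem_src, mem_tgt]
  have := AW.src_iff_tgt x
  tauto

theorem pre2_phi : (phi ≫ pullback.snd fT fT) ⁻¹ᵁ UT = phi ⁻¹ᵁ UU fT UT := by
  rw [phi_snd]
  ext x
  rw [SetLike.mem_coe, SetLike.mem_coe, mem_UU, mem_src, mem_tgt]
  have := AW.src_iff_tgt x
  tauto

/-! ### the open immersion -/

/-- `T × T = Spec (B ⊗ B)` -/
noncomputable def thT : pullback fT fT ≅ Spec (CommRingCat.of B2) :=
  pullbackSpecIso (ZMod 2) B B

theorem phi_thT : phi ≫ thT.hom = Spec.map (CommRingCat.ofHom AW.str) := by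
  rw [← Iso.eq_comp_inv]
  apply pullback.hom_ext
  · rw [phi_fst, Category.assoc]
    erw [pullbackSpecIso_inv_fst (ZMod 2) B B]
    rw [← Spec.map_comp]
    rfl
  · rw [phi_snd, Category.assoc]
    erw [pullbackSpecIso_inv_snd (ZMod 2) B B]
    rw [← Spec.map_comp]
    rfl

theorem mem_range_away {A : Type} [CommRing A] (g : A) (x : Spec (CommRingCat.of A))
    (hx : g ∉ x.asIdeal) :
    x ∈ Set.range (Spec.map (CommRingCat.ofHom (algebraMap A (Localization.Away g)))) := by
  have := PrimeSpectrum.localization_away_comap_range (Localization.Away g) g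
  have hx' : x ∈ (PrimeSpectrum.basicOpen g : Set (PrimeSpectrum A)) := hx
  rw [← this] at hx'
  exact hx'

theorem inj_of_open {A A' : Type} [CommRing A] [CommRing A'] (ψ : A →+* A') (g : A)
    (h : IsOpenImmersion (Spec.map (CommRingCat.ofHom
      ((algebraMap A' (Localization.Away (ψ g))).comp ψ))))
    (x y : Spec (CommRingCat.of A')) (hx : ψ g ∉ x.asIdeal) (hy : ψ g ∉ y.asIdeal)
    (hxy : Spec.map (CommRingCat.ofHom ψ) x = Spec.map (CommRingCat.ofHom ψ) y) : x = y := by
  obtain ⟨x', rfl⟩ := mem_range_away _ x hx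
  obtain ⟨y', rfl⟩ := mem_range_away _ y hy
  have hinj := h.base_open.injective
  have : x' = y' := by
    apply hinj
    rw [CommRingCat.ofHom_comp, Spec.map_comp]
    exact hxy
  rw [this]

theorem open_aux (g : B2) (h : IsOpenImmersion (Spec.map (CommRingCat.ofHom
      ((algebraMap AW (Localization.Away (AW.str g))).comp AW.str)))) (V : WS.Opens) (x : WS)
    (hxV : x ∈ V) (hx : AW.str g ∉ x.asIdeal) :
    ∃ (X : Scheme) (i : X ⟶ V.toScheme) (_ : IsOpenImmersion i),
      ⟨x, hxV⟩ ∈ i.opensRange ∧ IsOpenImmersion (i ≫ V.ι ≫ phi ≫ thT.hom) := by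
  refine ⟨pullback V.ι (Spec.map (CommRingCat.ofHom
    (algebraMap AW (Localization.Away (AW.str g))))), pullback.fst _ _, inferInstance, ?_, ?_⟩
  · obtain ⟨x', hx'⟩ := mem_range_away _ x hx
    obtain ⟨z, hz, -⟩ := Scheme.Pullback.exists_preimage_pullback (f := V.ι)
      (g := Spec.map (CommRingCat.ofHom (algebraMap AW (Localization.Away (AW.str g)))))
      ⟨x, hxV⟩ x' hx'.symm
    exact ⟨z, hz⟩
  · rw [← Category.assoc, pullback.condition, Category.assoc, phi_thT, ← Spec.map_comp,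
      ← CommRingCat.ofHom_comp]
    infer_instance

theorem open_phi : IsOpenImmersion (phi ∣_ UU fT UT) := by
  have key : IsOpenImmersion ((phi ⁻¹ᵁ UU fT UT).ι ≫ phi ≫ thT.hom) := by
    have hmem : ∀ x : (phi ⁻¹ᵁ UU fT UT).toScheme,
        AW.a.s ∉ x.1.asIdeal ∨ AW.a.x ∉ x.1.asIdeal := fun x =>
      (mem_src _).1 ((mem_UU _).1 x.2).1
    refine IsOpenImmersion.of_forall_source_exists _ ?_ ?_
    · intro x y hxy
      rw [phi_thT] at hxy
      have hxy' : Spec.map (CommRingCat.ofHom AW.str) x.1 =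
        Spec.map (CommRingCat.ofHom AW.str) y.1 := hxy
      have hI : ∀ g : B2, AW.str g ∉ x.1.asIdeal → AW.str g ∉ y.1.asIdeal := by
        intro g hg
        have h1 : AW.str g ∈ x.1.asIdeal ↔ AW.str g ∈ y.1.asIdeal := by
          have := congrArg (fun p : PrimeSpectrum B2 => g ∈ p.asIdeal) hxy'
          exact iff_of_eq this
        rwa [← h1]
      apply Subtype.ext
      rcases AW.u_or_vE x.1 (hmem x) with h | h
      · exact inj_of_open AW.str _ open_of_u _ _ h (hI _ h) hxy'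
      · exact inj_of_open AW.str _ open_of_vE _ _ h (hI _ h) hxy'
    · intro x
      rcases AW.u_or_vE x.1 (hmem x) with h | h
      · exact open_aux _ open_of_u _ x.1 x.2 h
      · exact open_aux _ open_of_vE _ x.1 x.2 h
  have key2 : IsOpenImmersion ((phi ∣_ UU fT UT) ≫ (UU fT UT).ι) := by
    rw [morphismRestrict_ι]
    rw [← Category.assoc] at key
    have : (phi ⁻¹ᵁ UU fT UT).ι ≫ phi = (((phi ⁻¹ᵁ UU fT UT).ι ≫ phi) ≫ thT.hom) ≫ thT.inv := by
      rw [Category.assoc, Iso.hom_inv_id, Category.comp_id]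
    rw [this]
    infer_instance
  exact IsOpenImmersion.of_comp _ (UU fT UT).ι

end Pool.Agent.AFP
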