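/-
MP_911691_ag, module M-SMU1: `B[1/x]` and `B[1/h]` are smooth over `F_2`.

Infinitesimal lifting criterion: a point over `Q / I` (with `I ^ 2 = 0`, `2 = 0` in `Q`) at which
`x` (resp. `h`) is a unit lifts to a point over `Q`; one lifts the coordinates arbitrarily,
defines `r` by the first (resp. second) equation and corrects `s` (resp. `z` and `c`) by an element
of `I`.
-/
import Pool.Agent.AFP.Univ

attribute [local instance] Pool.Agent.AFP.instCommRingAW Pool.Agent.AFP.instAlgebraZModAW
  Pool.Agent.AFP.instAlgebraB2AW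

set_option linter.all false

namespace Pool.Agent.AFP

namespace SmBAux

instance fpB : Algebra.FinitePresentation (ZMod 2) B := by
  unfold B
  exact Algebra.FinitePresentation.quotient (Submodule.fg_span (Set.finite_range _))

/-- Two `F_2`-algebra structures agree, so every ring homomorphism is an algebra homomorphism. -/
def toAlg {A A' : Type*} [CommRing A] [CommRing A'] [Algebra (ZMod 2) A] [Algebra (ZMod 2) A']
    (f : A →+* A') : A →ₐ[ZMod 2] A' :=
  { toRingHom := f
    commutes' := fun r => RingHom.congr_fun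
      (B2.zmod_hom_ext (f.comp (algebraMap (ZMod 2) A)) (algebraMap (ZMod 2) A')) r }

/-- Smoothness of a localisation of `B` from the lifting of points. -/
theorem smooth_of_lift (g : B)
    (H : ∀ (Q : Type) [CommRing Q] [Algebra (ZMod 2) Q] (I : Ideal Q), I ^ 2 = ⊥ →
      ∀ p : Pt (Q ⧸ I), IsUnit (B.lift p g) →
        ∃ p' : Pt Q, p'.map (Ideal.Quotient.mk I) = p) :
    Algebra.Smooth (ZMod 2) (Localization.Away g) where
  formallySmooth := by
    refine Algebra.FormallySmooth.of_comp_surjective fun Q _ _ I hI f => ?_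
    have hcomp : B.lift (B.univ.map ((f : Localization.Away g →+* Q ⧸ I).comp
        (algebraMap B (Localization.Away g)))) =
        (f : Localization.Away g →+* Q ⧸ I).comp (algebraMap B (Localization.Away g)) := by
      apply B.hom_ext
      rw [B.univ_map_lift]
    obtain ⟨p', hp'⟩ := H Q I hI (B.univ.map ((f : Localization.Away g →+* Q ⧸ I).comp
        (algebraMap B (Localization.Away g)))) (by
      rw [hcomp]
      exact (IsLocalization.Away.algebraMap_isUnit g).map f)
    have hl : (Ideal.Quotient.mk I).comp (B.lift p') =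
        (f : Localization.Away g →+* Q ⧸ I).comp (algebraMap B (Localization.Away g)) := by
      apply B.hom_ext
      rw [← Pt.map_map, B.univ_map_lift, hp']
    have hu : IsUnit (B.lift p' g) := by
      apply (IsNilpotent.isUnit_quotient_mk_iff (I := I) ⟨2, hI⟩).mp
      have := congrArg (fun k : B →+* Q ⧸ I => k g) hl
      simp only [RingHom.comp_apply] at this
      rw [this]
      exact (IsLocalization.Away.algebraMap_isUnit g).map f
    refine ⟨toAlg (IsLocalization.Away.lift g hu), ?_⟩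
    apply AlgHom.coe_ringHom_injective
    refine IsLocalization.ringHom_ext (Submonoid.powers g) ?_
    rw [← hl]
    ext y
    simp [toAlg]
  finitePresentation := by
    have : Algebra.FinitePresentation B (Localization.Away g) :=
      IsLocalization.Away.finitePresentation g
    exact Algebra.FinitePresentation.trans (ZMod 2) B (Localization.Away g)

section

variable {Q : Type} [CommRing Q] [Algebra (ZMod 2) Q] (I : Ideal Q)

theorem two_eq (Q : Type*) [CommRing Q] [Algebra (ZMod 2) Q] : (2 : Q) = 0 :=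
  (C2.ofAlgebra Q).two

theorem mk_unit (hI : I ^ 2 = ⊥) {y : Q} (h : IsUnit (Ideal.Quotient.mk I y)) : IsUnit y :=
  (IsNilpotent.isUnit_quotient_mk_iff (I := I) ⟨2, hI⟩).mp h

theorem mul_zero_of_mem (hI : I ^ 2 = ⊥) {a b : Q} (ha : a ∈ I) (hb : b ∈ I) : a * b = 0 := by
  have : a * b ∈ I ^ 2 := by
    rw [pow_two]
    exact Ideal.mul_mem_mul ha hb
  rw [hI] at this
  simpa using this

theorem lift_x (hI : I ^ 2 = ⊥) (p : Pt (Q ⧸ I)) (hx : IsUnit p.x) :
    ∃ p' : Pt Q, p'.map (Ideal.Quotient.mk I) = p := by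
  obtain ⟨s, hs⟩ := Ideal.Quotient.mk_surjective p.s
  obtain ⟨x, hxx⟩ := Ideal.Quotient.mk_surjective p.x
  obtain ⟨z, hz⟩ := Ideal.Quotient.mk_surjective p.z
  obtain ⟨c, hc⟩ := Ideal.Quotient.mk_surjective p.c
  have h2 := two_eq Q
  have hxu : IsUnit x := mk_unit I hI (by rw [hxx]; exact hx)
  obtain ⟨xi, hxi⟩ := hxu.exists_right_inv
  set r : Q := z * c * xi ^ 4 with hr
  have hmr : Ideal.Quotient.mk I r = p.r := by
    have h3 : p.x * Ideal.Quotient.mk I xi = 1 := by
      rw [← hxx, ← map_mul, hxi, map_one]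
    rw [hr, map_mul, map_mul, map_pow, hz, hc, p.h1]
    calc p.r * p.x ^ 4 * (Ideal.Quotient.mk I xi) ^ 4 = p.r * (p.x * Ideal.Quotient.mk I xi) ^ 4 := by
          ring
      _ = p.r := by rw [h3]; ring
  have hru : IsUnit r := mk_unit I hI (by
    rw [hmr]
    exact IsUnit.of_mul_eq_one _ p.hr)
  obtain ⟨ri, hri⟩ := hru.exists_right_inv
  set G : Q := z ^ 2 + c ^ 2 - r * (s ^ 4 + s * x ^ 3) with hG
  have hGI : G ∈ I := by
    rw [← Ideal.Quotient.eq_zero_iff_mem, hG]
    simp only [map_sub, map_add, map_mul, map_pow, hs, hxx, hz, hc, hmr]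
    rw [p.h2, sub_self]
  set d : Q := G * (ri * xi ^ 3) with hd
  have hdI : d ∈ I := I.mul_mem_right _ hGI
  have hdd : d * d = 0 := mul_zero_of_mem I hI hdI hdI
  have hmd : Ideal.Quotient.mk I d = 0 := Ideal.Quotient.eq_zero_iff_mem.2 hdI
  refine ⟨⟨s + d, x, z, c, r, ri, hri, ?_, ?_⟩, ?_⟩
  · rw [hr]
    calc z * c = z * c * (x * xi) ^ 4 := by rw [hxi]; ring
      _ = _ := by ring
  · have e1 : (s + d) ^ 4 = s ^ 4 := by
      linear_combination (2 * s ^ 3 * d) * h2 + (6 * s ^ 2 + 4 * s * d + d ^ 2) * hdd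
    have e2 : r * (d * x ^ 3) = G := by
      rw [hd]
      calc r * (G * (ri * xi ^ 3) * x ^ 3) = G * (r * ri) * (x * xi) ^ 3 := by ring
        _ = G := by rw [hri, hxi]; ring
    rw [e1]
    linear_combination -e2 + hG
  · have hmri : Ideal.Quotient.mk I ri = p.ri := by
      have h4 : p.r * Ideal.Quotient.mk I ri = 1 := by rw [← hmr, ← map_mul, hri, map_one]
      calc Ideal.Quotient.mk I ri = (p.r * p.ri) * Ideal.Quotient.mk I ri := by rw [p.hr, one_mul]
        _ = p.ri * (p.r * Ideal.Quotient.mk I ri) := by ring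
        _ = p.ri := by rw [h4, mul_one]
    ext <;> simp [hs, hxx, hz, hc, hmr, hmd, hmri]

theorem lift_h (hI : I ^ 2 = ⊥) (p : Pt (Q ⧸ I)) (hh : IsUnit (p.s ^ 4 + p.s * p.x ^ 3)) :
    ∃ p' : Pt Q, p'.map (Ideal.Quotient.mk I) = p := by
  obtain ⟨s, hs⟩ := Ideal.Quotient.mk_surjective p.s
  obtain ⟨x, hxx⟩ := Ideal.Quotient.mk_surjective p.x
  obtain ⟨z, hz⟩ := Ideal.Quotient.mk_surjective p.z
  obtain ⟨c, hc⟩ := Ideal.Quotient.mk_surjective p.c
  have h2 := two_eq Q
  set h : Q := s ^ 4 + s * x ^ 3 with hhdef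
  have hmh : Ideal.Quotient.mk I h = p.s ^ 4 + p.s * p.x ^ 3 := by
    rw [hhdef]; simp [hs, hxx]
  have hu : IsUnit h := mk_unit I hI (by rw [hmh]; exact hh)
  obtain ⟨hi, hhi⟩ := hu.exists_right_inv
  set r : Q := (z ^ 2 + c ^ 2) * hi with hr
  have hmr : Ideal.Quotient.mk I r = p.r := by
    have h3 : (p.s ^ 4 + p.s * p.x ^ 3) * Ideal.Quotient.mk I hi = 1 := by
      rw [← hmh, ← map_mul, hhi, map_one]
    rw [hr, map_mul, map_add, map_pow, map_pow, hz, hc, p.h2, mul_assoc, h3, mul_one]
  have hru : IsUnit r := mk_unit I hI (by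
    rw [hmr]
    exact IsUnit.of_mul_eq_one _ p.hr)
  obtain ⟨ri, hri⟩ := hru.exists_right_inv
  have hrh : r * h = z ^ 2 + c ^ 2 := by
    rw [hr, mul_assoc, mul_comm hi h, hhi, mul_one]
  have heu : IsUnit (z + c) := by
    have : (z + c) ^ 2 = r * h := by
      rw [hrh]
      linear_combination (z * c) * h2
    have h5 : IsUnit ((z + c) ^ 2) := by rw [this]; exact hru.mul hu
    exact (isUnit_pow_iff two_ne_zero).1 h5
  obtain ⟨ei, hei⟩ := heu.exists_right_inv
  set F : Q := z * c - r * x ^ 4 with hF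
  have hFI : F ∈ I := by
    rw [← Ideal.Quotient.eq_zero_iff_mem, hF]
    simp only [map_sub, map_mul, map_pow, hxx, hz, hc, hmr]
    rw [p.h1, sub_self]
  set d : Q := F * ei with hd
  have hdI : d ∈ I := I.mul_mem_right _ hFI
  have hdd : d * d = 0 := mul_zero_of_mem I hI hdI hdI
  have hmd : Ideal.Quotient.mk I d = 0 := Ideal.Quotient.eq_zero_iff_mem.2 hdI
  have hed : (z + c) * d = F := by
    rw [hd]
    calc (z + c) * (F * ei) = F * ((z + c) * ei) := by ring
      _ = F := by rw [hei, mul_one]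
  refine ⟨⟨s, x, z - d, c - d, r, ri, hri, ?_, ?_⟩, ?_⟩
  · linear_combination -hed + hdd + hF
  · linear_combination -hrh + (-(z * d) - c * d) * h2 + 2 * hdd + r * hhdef
  · have hmri : Ideal.Quotient.mk I ri = p.ri := by
      have h4 : p.r * Ideal.Quotient.mk I ri = 1 := by rw [← hmr, ← map_mul, hri, map_one]
      calc Ideal.Quotient.mk I ri = (p.r * p.ri) * Ideal.Quotient.mk I ri := by rw [p.hr, one_mul]
        _ = p.ri * (p.r * Ideal.Quotient.mk I ri) := by ring
        _ = p.ri := by rw [h4, mul_one]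
    ext <;> simp [hs, hxx, hz, hc, hmr, hmd, hmri]

end

end SmBAux

open SmBAux

/-- `B` localised at `x` is smooth over `F_2` -/
theorem smooth_Bx : Algebra.Smooth (ZMod 2) (Localization.Away B.univ.x) := by
  refine smooth_of_lift _ fun Q _ _ I hI p hp => lift_x I hI p ?_
  have : p.x = B.lift p B.univ.x := (congrArg Pt.x (B.univ_map_lift p)).symm
  rw [this]
  exact hp

/-- `B` localised at `h` is smooth over `F_2` -/
theorem smooth_Bh : Algebra.Smooth (ZMod 2)
    (Localization.Away (B.univ.s ^ 4 + B.univ.s * B.univ.x ^ 3)) := by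
  refine smooth_of_lift _ fun Q _ _ I hI p hp => lift_h I hI p ?_
  have h1 : p.x = B.lift p B.univ.x := (congrArg Pt.x (B.univ_map_lift p)).symm
  have h2 : p.s = B.lift p B.univ.s := (congrArg Pt.s (B.univ_map_lift p)).symm
  rw [h1, h2, ← map_pow, ← map_pow, ← map_mul, ← map_add]
  exact hp

end Pool.Agent.AFP
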