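/-
MP_911691_ag, module M-SMU2: `U` is smooth over `F_2`; density; `U` is not affine.

`U = D(s) ∪ D(x) = D(x) ∪ D(h)`, `h = s^4 + s x^3` (at a point with `x = 0` the function `h` is
`s^4`); `smooth_Bx`, `smooth_Bh` may be used as stated, as well as `B.s_reg`, `B.x_reg`,
`B.sx_reg`.
-/
import Pool.Agent.AFP.Model
import Pool.Agent.AFP.RegB
import Pool.Agent.AFP.SmB

attribute [local instance] Pool.Agent.AFP.instCommRingAW Pool.Agent.AFP.instAlgebraZModAW
  Pool.Agent.AFP.instAlgebraB2AW

set_option linter.all false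

open CategoryTheory Limits AlgebraicGeometry

namespace Pool.Agent.AFP

/-- `D(g) ⟶ Spec F_2` is smooth if `B_g` is -/
theorem sm_basic (g : B) (hg : Algebra.Smooth (ZMod 2) (Localization.Away g)) :
    Smooth (Scheme.Opens.ι (X := TS) (PrimeSpectrum.basicOpen g) ≫ fT) := by
  rw [← basicOpenIsoSpecAway_hom_SpecMap (R := CommRingCat.of B) g, Category.assoc, fT,
    ← Spec.map_comp]
  have : Smooth (Spec.map (CommRingCat.ofHom (algebraMap (ZMod 2) B) ≫
      CommRingCat.ofHom (algebraMap B (Localization.Away g)))) := by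
    rw [HasRingHomProperty.Spec_iff (P := @Smooth)]
    have h2 : (CommRingCat.ofHom (algebraMap (ZMod 2) B) ≫
      CommRingCat.ofHom (algebraMap B (Localization.Away g))).hom =
        algebraMap (ZMod 2) (Localization.Away g) := B2.zmod_hom_ext _ _
    rw [h2]
    exact RingHom.smooth_algebraMap.mpr hg
  exact smooth_comp _ _

theorem sm_restrict (D : TS.Opens) (h : Smooth (D.ι ≫ fT)) :
    Smooth ((UT.ι ⁻¹ᵁ D).ι ≫ UT.ι ≫ fT) := by
  have e : (UT.ι ⁻¹ᵁ D).ι ≫ UT.ι = (UT.ι ∣_ D) ≫ D.ι := (morphismRestrict_ι _ _).symm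
  rw [← Category.assoc, e, Category.assoc]
  exact smooth_comp _ _

theorem smU : Smooth (UT.ι ≫ fT) := by
  let D : Bool → TS.Opens := fun b =>
    cond b (PrimeSpectrum.basicOpen B.univ.x)
      (PrimeSpectrum.basicOpen (B.univ.s ^ 4 + B.univ.s * B.univ.x ^ 3))
  refine IsZariskiLocalAtSource.of_iSup_eq_top (P := @Smooth.{0}) (fun b => UT.ι ⁻¹ᵁ D b) ?_ ?_
  · rw [eq_top_iff]
    rintro p -
    have hp : UT.ι p ∈ UT := by
      exact p.2
    have key : UT.ι p ∈ D true ∨ UT.ι p ∈ D false := by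
      by_contra hcon
      rw [not_or] at hcon
      obtain ⟨h1, h2⟩ := hcon
      set q : PrimeSpectrum B := UT.ι p with hq
      have h1' : B.univ.x ∈ q.asIdeal := by
        by_contra hx
        exact h1 hx
      have h2' : (B.univ.s ^ 4 + B.univ.s * B.univ.x ^ 3) ∈ q.asIdeal := by
        by_contra hx
        exact h2 hx
      have h3 : B.univ.s ∈ q.asIdeal := by
        have h4 : B.univ.s ^ 4 ∈ q.asIdeal := by
          have : B.univ.s ^ 4 = (B.univ.s ^ 4 + B.univ.s * B.univ.x ^ 3) -
            B.univ.s * B.univ.x ^ 3 := by ring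
          rw [this]
          exact Ideal.sub_mem _ h2' (Ideal.mul_mem_left _ _
            (Ideal.pow_mem_of_mem _ h1' 3 (by norm_num)))
        exact q.isPrime.mem_of_pow_mem 4 h4
      rcases hp with hp | hp
      · exact hp h3
      · exact hp h1'
    rcases key with k | k
    · exact TopologicalSpace.Opens.mem_iSup.mpr ⟨true, k⟩
    · exact TopologicalSpace.Opens.mem_iSup.mpr ⟨false, k⟩
  · intro b
    cases b
    · exact sm_restrict _ (sm_basic _ smooth_Bh)
    · exact sm_restrict _ (sm_basic _ smooth_Bx)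

/-- `U` is quasi-compact -/
theorem qcU : IsCompact (UT : Set TS) := by
  have h1 : IsCompact ((PrimeSpectrum.basicOpen B.univ.s : TopologicalSpace.Opens (PrimeSpectrum B)) : Set (PrimeSpectrum B)) := PrimeSpectrum.isCompact_basicOpen _
  have h2 : IsCompact ((PrimeSpectrum.basicOpen B.univ.x : TopologicalSpace.Opens (PrimeSpectrum B)) : Set (PrimeSpectrum B)) := PrimeSpectrum.isCompact_basicOpen _
  exact h1.union h2

section general

variable {R : CommRingCat.{0}}

theorem koszul_a (s x : R) (hsx : ∀ y z, x * y = s * z → ∃ y', y = s * y') :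
    ∀ (m : ℕ) (a z : R), x ^ m * a = s * z → ∃ a', a = s * a' := by
  intro m
  induction m with
  | zero => intro a z h; exact ⟨z, by simpa using h⟩
  | succ m ih =>
    intro a z h
    obtain ⟨y', hy'⟩ := hsx (x ^ m * a) z (by rw [← h]; ring)
    exact ih a y' hy'

theorem koszul_b (s x : R) (hs : ∀ y, s * y = 0 → y = 0)
    (hsx : ∀ y z, x * y = s * z → ∃ y', y = s * y') (m : ℕ) :
    ∀ (n : ℕ) (a b : R), x ^ m * a = s ^ n * b → ∃ a', a = s ^ n * a' ∧ b = x ^ m * a' := by
  intro n
  induction n with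
  | zero => intro a b h; exact ⟨a, by simp, by simpa using h.symm⟩
  | succ n ih =>
    intro a b h
    obtain ⟨a1, ha1⟩ := koszul_a s x hsx m a (s ^ n * b) (by rw [h]; ring)
    have h2 : x ^ m * a1 = s ^ n * b := by
      have := hs (x ^ m * a1 - s ^ n * b) (by
        rw [ha1] at h
        linear_combination h)
      exact sub_eq_zero.mp this
    obtain ⟨a', e1, e2⟩ := ih a1 b h2
    exact ⟨a', by rw [ha1, e1]; ring, e2⟩

/-- restriction of sections on `Spec R` -/
noncomputable def secRes {V W : (Spec R).Opens} (h : V ≤ W) : Γ(Spec R, W) →+* Γ(Spec R, V) :=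
  ((Spec R).presheaf.map (homOfLE h).op).hom

theorem secRes_algebraMap {V W : (Spec R).Opens} (h : V ≤ W) (a : R) :
    secRes h (algebraMap R Γ(Spec R, W) a) = algebraMap R Γ(Spec R, V) a := rfl

theorem secRes_secRes {V W W' : (Spec R).Opens} (h : V ≤ W) (h' : W ≤ W') (t : Γ(Spec R, W')) :
    secRes h (secRes h' t) = secRes (h.trans h') t := by
  change ((Spec R).presheaf.map (homOfLE h).op).hom (((Spec R).presheaf.map (homOfLE h').op).hom t) = _
  rw [← RingHom.comp_apply, ← CommRingCat.hom_comp, ← Functor.map_comp]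
  rfl

theorem exists_section (s x : R) (hs : ∀ y, s * y = 0 → y = 0) (hx : ∀ y, x * y = 0 → y = 0)
    (hsx : ∀ y z, x * y = s * z → ∃ y', y = s * y')
    (t : Γ(Spec R, PrimeSpectrum.basicOpen s ⊔ PrimeSpectrum.basicOpen x)) :
    ∃ a : R, algebraMap R Γ(Spec R, PrimeSpectrum.basicOpen s ⊔ PrimeSpectrum.basicOpen x) a = t := by
  obtain ⟨⟨a, ⟨_, n, rfl⟩⟩, ha⟩ := IsLocalization.surj (Submonoid.powers s)
    (secRes (V := PrimeSpectrum.basicOpen s) le_sup_left t)
  obtain ⟨⟨b, ⟨_, m, rfl⟩⟩, hb⟩ := IsLocalization.surj (Submonoid.powers x)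
    (secRes (V := PrimeSpectrum.basicOpen x) le_sup_right t)
  dsimp only at ha hb
  have l1 : (PrimeSpectrum.basicOpen (s * x) : (Spec R).Opens) ≤ PrimeSpectrum.basicOpen s :=
    PrimeSpectrum.basicOpen_mul_le_left s x
  have l2 : (PrimeSpectrum.basicOpen (s * x) : (Spec R).Opens) ≤ PrimeSpectrum.basicOpen x :=
    PrimeSpectrum.basicOpen_mul_le_right s x
  have e : algebraMap R Γ(Spec R, PrimeSpectrum.basicOpen (s * x)) (x ^ m * a) =
      algebraMap R Γ(Spec R, PrimeSpectrum.basicOpen (s * x)) (s ^ n * b) := by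
    have h1 := congrArg (secRes l1) ha
    have h2 := congrArg (secRes l2) hb
    rw [map_mul, secRes_secRes, secRes_algebraMap, secRes_algebraMap] at h1 h2
    rw [map_mul, map_mul, ← h1, ← h2]
    ring
  have e2 : x ^ m * a = s ^ n * b := by
    obtain ⟨⟨_, k, rfl⟩, hk⟩ := (IsLocalization.eq_iff_exists (Submonoid.powers (s * x)) _).mp e
    dsimp only at hk
    have hsx' : ∀ y, (s * x) * y = 0 → y = 0 := fun y h => hx y (hs _ (by rw [← mul_assoc]; exact h))
    have hk' : ∀ k : ℕ, ∀ y, (s * x) ^ k * y = 0 → y = 0 := by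
      intro k
      induction k with
      | zero => intro y h; simpa using h
      | succ k ih => intro y h; exact hsx' y (ih _ (by rw [← h]; ring))
    exact sub_eq_zero.mp (hk' k _ (by rw [mul_sub, hk, sub_self]))
  obtain ⟨a', e3, e4⟩ := koszul_b s x hs hsx m n a b e2
  refine ⟨a', ?_⟩
  have t1 : secRes (V := PrimeSpectrum.basicOpen s) le_sup_left t = algebraMap R Γ(Spec R, PrimeSpectrum.basicOpen s) a' := by
    have hu : IsUnit (algebraMap R Γ(Spec R, PrimeSpectrum.basicOpen s) (s ^ n)) :=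
      IsLocalization.map_units (M := Submonoid.powers s) _ ⟨s ^ n, n, rfl⟩
    apply hu.mul_right_cancel
    rw [ha, e3, map_mul, mul_comm]
  have t2 : secRes (V := PrimeSpectrum.basicOpen x) le_sup_right t = algebraMap R Γ(Spec R, PrimeSpectrum.basicOpen x) a' := by
    have hu : IsUnit (algebraMap R Γ(Spec R, PrimeSpectrum.basicOpen x) (x ^ m)) :=
      IsLocalization.map_units (M := Submonoid.powers x) _ ⟨x ^ m, m, rfl⟩
    apply hu.mul_right_cancel
    rw [hb, e4, map_mul, mul_comm]
  exact (Spec R).sheaf.eq_of_locally_eq₂ (homOfLE le_sup_left) (homOfLE le_sup_right) le_rfl _ _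
    t1.symm t2.symm

theorem algebraMap_inj (s : R) (hs : ∀ y, s * y = 0 → y = 0) {V : (Spec R).Opens}
    (hV : PrimeSpectrum.basicOpen s ≤ V) :
    Function.Injective (algebraMap R Γ(Spec R, V)) := by
  rw [injective_iff_map_eq_zero]
  intro y hy
  have h1 : algebraMap R Γ(Spec R, PrimeSpectrum.basicOpen s) y = 0 := by
    rw [← secRes_algebraMap hV, hy, map_zero]
  have hk' : ∀ k : ℕ, ∀ y, s ^ k * y = 0 → y = 0 := by
    intro k
    induction k with
    | zero => intro y h; simpa using h
    | succ k ih => intro y h; exact hs y (ih _ (by rw [← h]; ring))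
  obtain ⟨⟨_, k, rfl⟩, hk⟩ := (IsLocalization.map_eq_zero_iff (Submonoid.powers s)
    Γ(Spec R, PrimeSpectrum.basicOpen s) y).mp h1
  exact hk' k _ hk

/-- the pair generates the unit ideal if `D(s) ∪ D(x)` is affine -/
theorem span_of_affine (s x : R) (hs : ∀ y, s * y = 0 → y = 0) (hx : ∀ y, x * y = 0 → y = 0)
    (hsx : ∀ y z, x * y = s * z → ∃ y', y = s * y')
    (haff : IsAffineOpen (X := Spec R) (PrimeSpectrum.basicOpen s ⊔ PrimeSpectrum.basicOpen x)) :
    ∃ a b : R, a * s + b * x = 1 := by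
  let V : (Spec R).Opens := PrimeSpectrum.basicOpen s ⊔ PrimeSpectrum.basicOpen x
  have hb : ∀ g : R, (Spec R).basicOpen (algebraMap R Γ(Spec R, V) g) =
      V ⊓ PrimeSpectrum.basicOpen g := by
    intro g
    rw [← basicOpen_eq_of_affine]
    exact (Spec R).basicOpen_res ((Scheme.ΓSpecIso R).inv g) (homOfLE (le_top (a := V))).op
  have hspan := (haff.self_le_iSup_basicOpen_iff (s := {algebraMap R Γ(Spec R, V) s,
    algebraMap R Γ(Spec R, V) x})).mp (by
      intro p hp
      rcases hp with hp | hp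
      · refine TopologicalSpace.Opens.mem_iSup.mpr ⟨⟨algebraMap R Γ(Spec R, V) s, Or.inl rfl⟩, ?_⟩
        rw [hb]
        exact ⟨Or.inl hp, hp⟩
      · refine TopologicalSpace.Opens.mem_iSup.mpr ⟨⟨algebraMap R Γ(Spec R, V) x, Or.inr rfl⟩, ?_⟩
        rw [hb]
        exact ⟨Or.inr hp, hp⟩)
  have h1 : (1 : Γ(Spec R, V)) ∈ Ideal.span {algebraMap R Γ(Spec R, V) s,
    algebraMap R Γ(Spec R, V) x} := by rw [hspan]; trivial
  obtain ⟨α, β, hαβ⟩ := Ideal.mem_span_pair.mp h1
  obtain ⟨a, rfl⟩ := exists_section s x hs hx hsx α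
  obtain ⟨b, rfl⟩ := exists_section s x hs hx hsx β
  refine ⟨a, b, algebraMap_inj s hs (V := V) le_sup_left ?_⟩
  rw [map_add, map_mul, map_mul, map_one]
  exact hαβ

end general

/-- `U` is schematically dense in `T` (since `s` is regular) -/
theorem domU : IsSchemeTheoreticallyDominant UT.ι := by
  rw [isSchemeTheoreticallyDominant_iff, ← le_bot_iff]
  have hle : (PrimeSpectrum.basicOpen B.univ.s : TS.Opens) ≤ UT := le_sup_left
  refine (Scheme.Hom.le_ker_comp (TS.homOfLE hle) UT.ι).trans ?_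
  rw [Scheme.homOfLE_ι, ← basicOpenIsoSpecAway_hom_SpecMap (R := CommRingCat.of B) B.univ.s,
    Scheme.Hom.ker_comp_of_isIso, Scheme.ker_of_isAffine, le_bot_iff]
  have inj : Function.Injective (algebraMap B (Localization.Away B.univ.s)) := by
    rw [injective_iff_map_eq_zero]
    intro y hy
    have hk' : ∀ k : ℕ, ∀ y, B.univ.s ^ k * y = 0 → y = 0 := by
      intro k
      induction k with
      | zero => intro y h; simpa using h
      | succ k ih => intro y h; exact B.s_reg y (ih _ (by rw [← h]; ring))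
    obtain ⟨⟨_, k, rfl⟩, hk⟩ := (IsLocalization.map_eq_zero_iff (Submonoid.powers B.univ.s)
      (Localization.Away B.univ.s) y).mp hy
    exact hk' k _ hk
  have e : (Spec.map (CommRingCat.ofHom (algebraMap B (Localization.Away B.univ.s)))).appTop =
      (Scheme.ΓSpecIso (CommRingCat.of B)).hom ≫
        CommRingCat.ofHom (algebraMap B (Localization.Away B.univ.s)) ≫
          (Scheme.ΓSpecIso (CommRingCat.of (Localization.Away B.univ.s))).inv := by
    rw [Scheme.ΓSpecIso_inv_naturality, Iso.hom_inv_id_assoc]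
  have k0 : RingHom.ker (Spec.map (CommRingCat.ofHom
      (algebraMap B (Localization.Away B.univ.s)))).appTop.hom = ⊥ := by
    rw [← RingHom.injective_iff_ker_eq_bot, e]
    intro p q hpq
    apply (ConcreteCategory.bijective_of_isIso (Scheme.ΓSpecIso (CommRingCat.of B)).hom).1
    apply inj
    apply (ConcreteCategory.bijective_of_isIso
      (Scheme.ΓSpecIso (CommRingCat.of (Localization.Away B.univ.s))).inv).1
    exact hpq
  refine Scheme.IdealSheafData.ext_of_isAffine ?_
  rw [Scheme.IdealSheafData.ofIdealTop_ideal]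
  erw [k0]
  simp

/-- the point `(0,0,0,0,1)` -/
def ptO : Pt (ZMod 2) where
  s := 0
  x := 0
  z := 0
  c := 0
  r := 1
  ri := 1
  hr := by ring
  h1 := by ring
  h2 := by ring

/-- `U` is not affine: `Γ(U) = B` (by `B.sx_reg`) and `(s, x)` is not the unit ideal (point
`(0,0,0,0,1)`). -/
theorem not_affine_U : ¬ IsAffine UT.toScheme := by
  intro h
  obtain ⟨a, b, hab⟩ := span_of_affine (R := CommRingCat.of B) B.univ.s B.univ.x B.s_reg B.x_reg
    B.sx_reg h
  have h2 := congrArg (B.lift ptO) hab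
  have e1 : B.lift ptO B.univ.s = 0 := congrArg Pt.s (B.univ_map_lift ptO)
  have e2 : B.lift ptO B.univ.x = 0 := congrArg Pt.x (B.univ_map_lift ptO)
  rw [map_add, map_mul, map_mul, map_one, e1, e2] at h2
  revert h2
  simp

end Pool.Agent.AFP
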