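/-
MP_911691_ag, module M-SMW: the source map `W ⟶ T` is smooth; `u` is regular in `AW`.

Plan.  `smW`: cover `W` by `phi ⁻¹ᵁ UU` (there `phi` is an open immersion followed by
`UU ⟶ T`, which is smooth because `snd ⁻¹ᵁ U ⟶ T` is the base change of `U ⟶ S2`, `smU`) and the
basic opens of `smooth_near`.
`u_reg_W`: `AW` is flat over `B`, so `AW.a.s` and `AW.a.x` are regular (`B.s_reg`), in particular
`AW → AW[1/s]` is injective; `Spec AW[1/s] ⟶ Spec B2` is an open immersion, hence flat, so `u` is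
regular in `AW[1/s]` by `B2.u_reg`.
-/
import Pool.Agent.AFP.ChartSm
import Pool.Agent.AFP.OpenW
import Pool.Agent.AFP.SmU
import Pool.Agent.AFP.Hart

attribute [local instance] Pool.Agent.AFP.instCommRingAW Pool.Agent.AFP.instAlgebraZModAW
  Pool.Agent.AFP.instAlgebraB2AW

set_option linter.all false

open CategoryTheory Limits AlgebraicGeometry

namespace Pool.Agent.AFP

theorem smooth_snd_pre : Smooth ((pullback.snd fT fT ⁻¹ᵁ UT).ι ≫ pullback.fst fT fT) := by
  have h1 := (isPullback_morphismRestrict (pullback.snd fT fT) UT).flip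
  have h2 := h1.paste_horiz (IsPullback.of_hasPullback fT fT)
  exact MorphismProperty.of_isPullback h2.flip smU

theorem smooth_UU_fst : Smooth ((UU fT UT).ι ≫ pullback.fst fT fT) := by
  have hle : UU fT UT ≤ pullback.snd fT fT ⁻¹ᵁ UT := inf_le_right
  have h := smooth_snd_pre
  rw [← Scheme.homOfLE_ι _ hle, Category.assoc]
  infer_instance

theorem mem_UT_iff (y : ↥TS) :
    y ∈ UT ↔ B.univ.s ∉ (show PrimeSpectrum B from y).asIdeal ∨
      B.univ.x ∉ (show PrimeSpectrum B from y).asIdeal := by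
  rfl

theorem mem_pre_iff (y : ↥WS) :
    y ∈ srcS ⁻¹ᵁ UT ↔ AW.a.s ∉ (show PrimeSpectrum AW from y).asIdeal ∨
      AW.a.x ∉ (show PrimeSpectrum AW from y).asIdeal := by
  rw [AW.a_eq]
  exact mem_UT_iff _

/-- the basic open of `W` -/
noncomputable def jd (d : AW) : Spec (CommRingCat.of (Localization.Away d)) ⟶ WS :=
  Spec.map (CommRingCat.ofHom (algebraMap AW (Localization.Away d)))

theorem jd_open (d : AW) : IsOpenImmersion (jd d) :=
  inferInstanceAs (IsOpenImmersion (Spec.map (CommRingCat.ofHom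
    (algebraMap AW (Localization.Away d)))))

attribute [local instance] jd_open

theorem mem_range_jd (d : AW) (y : ↥WS) :
    y ∈ (jd d).opensRange ↔ d ∉ (show PrimeSpectrum AW from y).asIdeal := by
  have h := PrimeSpectrum.localization_away_comap_range (Localization.Away d) d
  constructor
  · intro hy
    have : y ∈ Set.range (PrimeSpectrum.comap (algebraMap AW (Localization.Away d))) := hy
    rw [h] at this
    exact this
  · intro hy
    have : y ∈ Set.range (PrimeSpectrum.comap (algebraMap AW (Localization.Away d))) := by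
      rw [h]
      exact hy
    exact this

theorem smW : Smooth srcS := by
  have key : ∀ y : WS, ∃ V : WS.Opens, y ∈ V ∧ Smooth (V.ι ≫ srcS) := by
    intro y
    by_cases hy : y ∈ srcS ⁻¹ᵁ UT
    · have hy' : y ∈ phi ⁻¹ᵁ UU fT UT := by
        rw [← pre1_phi, phi_fst]
        exact hy
      refine ⟨phi ⁻¹ᵁ UU fT UT, hy', ?_⟩
      have h1 : (phi ⁻¹ᵁ UU fT UT).ι ≫ srcS =
          (phi ∣_ UU fT UT) ≫ (UU fT UT).ι ≫ pullback.fst fT fT := by
        rw [← phi_fst, morphismRestrict_ι_assoc]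
      have h2 := smooth_UU_fst
      have h3 := open_phi
      rw [h1]
      infer_instance
    · rw [mem_pre_iff, not_or, not_not, not_not] at hy
      obtain ⟨d, hd, hsm⟩ := smooth_near y hy.1 hy.2
      refine ⟨(jd d).opensRange, (mem_range_jd d y).2 hd, ?_⟩
      rw [← IsOpenImmersion.isoOfRangeEq_inv_fac (jd d) (Scheme.Opens.ι _)
        (congr_arg TopologicalSpace.Opens.carrier (jd d).opensRange.opensRange_ι.symm),
        Category.assoc, MorphismProperty.cancel_left_of_respectsIso @Smooth]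
      have : jd d ≫ srcS = Spec.map (CommRingCat.ofHom
          ((algebraMap AW (Localization.Away d)).comp AW.src)) := by
        rw [jd, srcS, ← Spec.map_comp, ← CommRingCat.ofHom_comp]
      rw [this, HasRingHomProperty.Spec_iff (P := @Smooth)]
      exact hsm
  choose V hV hs using key
  refine IsZariskiLocalAtSource.of_iSup_eq_top (P := @Smooth) V ?_ hs
  rw [eq_top_iff]
  rintro y -
  simp only [TopologicalSpace.Opens.mem_iSup]
  exact ⟨y, hV y⟩

theorem AW.sw_sw : AW.sw.comp AW.sw = RingHom.id AW := by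
  have hh : C2 AW := inferInstance
  apply AW.hom_ext
  · rw [← Pt.map_map, AW.a_map_sw, AW.b_map_sw, Pt.map_id]
  · rw [← Pt.map_map, AW.b_map_sw, AW.a_map_sw, Pt.map_id]
  · change AW.sw (AW.sw AW.arr.t) = AW.arr.t
    have : AW.sw AW.arr.t = AW.arr.t := AW.lift_t _
    rw [this, this]
  · change AW.sw (AW.sw AW.arr.M) = AW.arr.M
    have h1 : AW.sw AW.arr.M = AW.arr.L := AW.lift_M _
    have h2 : AW.sw AW.arr.L = AW.arr.M := AW.lift_L _
    rw [h1, h2]
  · change AW.sw (AW.sw AW.arr.N) = AW.arr.N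
    have h1 : AW.sw AW.arr.N = AW.arr.N + AW.arr.t * AW.a.x * AW.b.x := AW.lift_N _
    have h2 : AW.sw AW.arr.t = AW.arr.t := AW.lift_t _
    have h3 : AW.sw AW.a.x = AW.b.x := congrArg Pt.x AW.a_map_sw
    have h4 : AW.sw AW.b.x = AW.a.x := congrArg Pt.x AW.b_map_sw
    rw [h1, map_add, map_mul, map_mul, h1, h2, h3, h4]
    have := C2.two (A := AW)
    linear_combination (AW.arr.t * AW.a.x * AW.b.x) * this
  · change AW.sw (AW.sw AW.arr.L) = AW.arr.L
    have h1 : AW.sw AW.arr.M = AW.arr.L := AW.lift_M _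
    have h2 : AW.sw AW.arr.L = AW.arr.M := AW.lift_L _
    rw [h2, h1]

theorem AW.sw_src : AW.sw.comp AW.src = AW.tgt := by
  apply B.hom_ext
  rw [← Pt.map_map, ← AW.a_eq, AW.a_map_sw, AW.b_eq]

theorem AW.sw_tgt : AW.sw.comp AW.tgt = AW.src := by
  apply B.hom_ext
  rw [← Pt.map_map, ← AW.b_eq, AW.b_map_sw, AW.a_eq]

/-- the inverse involution of `W` -/
noncomputable def swS : WS ⟶ WS := Spec.map (CommRingCat.ofHom AW.sw)

theorem swS_swS : swS ≫ swS = 𝟙 WS := by
  rw [swS, ← Spec.map_comp, ← CommRingCat.ofHom_comp, AW.sw_sw, CommRingCat.ofHom_id, Spec.map_id]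

theorem swS_src : swS ≫ srcS = tgtS := by
  rw [swS, srcS, tgtS, ← Spec.map_comp, ← CommRingCat.ofHom_comp, AW.sw_src]

theorem swS_tgt : swS ≫ tgtS = srcS := by
  rw [swS, srcS, tgtS, ← Spec.map_comp, ← CommRingCat.ofHom_comp, AW.sw_tgt]

theorem smW' : Smooth tgtS := by
  have h : IsIso swS := ⟨swS, swS_swS, swS_swS⟩
  have := smW
  rw [← swS_src]
  infer_instance

theorem flat_src : AW.src.Flat := by
  have h := smW
  have h2 : Flat srcS := inferInstance
  rw [srcS, Flat.SpecMap_iff] at h2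
  exact h2

theorem flat_tgt : AW.tgt.Flat := by
  have h := smW'
  have h2 : Flat tgtS := inferInstance
  rw [tgtS, Flat.SpecMap_iff] at h2
  exact h2

/-- the isomorphism `T × T = Spec (B ⊗ B)` -/
noncomputable def isoTT : pullback fT fT ≅ Spec (CommRingCat.of B2) :=
  pullbackSpecIso (ZMod 2) B B

theorem phi_isoTT : phi ≫ isoTT.hom = Spec.map (CommRingCat.ofHom AW.str) := by
  rw [← Iso.eq_comp_inv]
  apply pullback.hom_ext
  · rw [phi_fst, Category.assoc]
    have : isoTT.inv ≫ pullback.fst fT fT = Spec.map (CommRingCat.ofHom B2.i1) :=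
      pullbackSpecIso_inv_fst (ZMod 2) B B
    rw [this, ← Spec.map_comp, ← CommRingCat.ofHom_comp]
    rfl
  · rw [phi_snd, Category.assoc]
    have : isoTT.inv ≫ pullback.snd fT fT = Spec.map (CommRingCat.ofHom B2.i2) :=
      pullbackSpecIso_inv_snd (ZMod 2) B B
    rw [this, ← Spec.map_comp, ← CommRingCat.ofHom_comp]
    rfl

theorem flat_away : ((algebraMap AW (Localization.Away AW.a.s)).comp AW.str).Flat := by
  have hr : Set.range (jd AW.a.s) ⊆ Set.range (phi ⁻¹ᵁ UU fT UT).ι := by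
    rintro _ ⟨y, rfl⟩
    rw [Scheme.Opens.range_ι, ← pre1_phi, phi_fst]
    have h1 : jd AW.a.s y ∈ (jd AW.a.s).opensRange := ⟨y, rfl⟩
    exact (mem_pre_iff _).2 (Or.inl ((mem_range_jd _ _).1 h1))
  have e := IsOpenImmersion.lift_fac (phi ⁻¹ᵁ UU fT UT).ι (jd AW.a.s) hr
  have ho : IsOpenImmersion (IsOpenImmersion.lift (phi ⁻¹ᵁ UU fT UT).ι (jd AW.a.s) hr) := by
    have : IsOpenImmersion (IsOpenImmersion.lift (phi ⁻¹ᵁ UU fT UT).ι (jd AW.a.s) hr ≫
        (phi ⁻¹ᵁ UU fT UT).ι) := by
      rw [e]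
      infer_instance
    exact IsOpenImmersion.of_comp _ (phi ⁻¹ᵁ UU fT UT).ι
  have h3 := open_phi
  have e2 : Spec.map (CommRingCat.ofHom ((algebraMap AW (Localization.Away AW.a.s)).comp AW.str)) =
      IsOpenImmersion.lift (phi ⁻¹ᵁ UU fT UT).ι (jd AW.a.s) hr ≫ (phi ∣_ UU fT UT) ≫
        (UU fT UT).ι ≫ isoTT.hom := by
    rw [morphismRestrict_ι_assoc, ← Category.assoc, e, phi_isoTT, jd, ← Spec.map_comp,
      ← CommRingCat.ofHom_comp]
  have h4 : Flat (Spec.map (CommRingCat.ofHom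
      ((algebraMap AW (Localization.Away AW.a.s)).comp AW.str))) := by
    rw [e2]
    infer_instance
  rw [Flat.SpecMap_iff] at h4
  exact h4

theorem s_reg_W (y : AW) (h : AW.a.s * y = 0) : y = 0 := by
  refine reg_of_flat B.s_reg AW.src flat_src y ?_
  rw [AW.a_eq] at h
  exact h

theorem u_reg_W (y : AW) (h : u AW.a AW.b * y = 0) : y = 0 := by
  have h1 := reg_of_flat B2.u_reg _ flat_away (algebraMap AW (Localization.Away AW.a.s) y) (by
    change algebraMap AW (Localization.Away AW.a.s) (AW.str (u B2.a B2.b)) * _ = 0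
    rw [map_u AW.str]
    change algebraMap AW (Localization.Away AW.a.s) (u AW.a AW.b) * _ = 0
    rw [← map_mul, h, map_zero])
  rw [IsLocalization.map_eq_zero_iff (Submonoid.powers AW.a.s)] at h1
  obtain ⟨⟨_, n, rfl⟩, hn⟩ := h1
  exact reg_pow s_reg_W n y hn

end Pool.Agent.AFP
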