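/-
MP_911691_ag, module M-COMP: local composition near the closed orbit.

Plan.  `P = W ×_T W` is affine.  Let `a, b, c` be its three points over `Γ(P)` and `g : Arr a b`,
`g' : Arr b c` its two arrows.  At `y` over `Z` all of `s, x` of the three points vanish
(`Arr.closed`), so `ups g g'` is `1` there; let `V = D(ups g g')`, an affine open neighbourhood of
`y`, and `A = Γ(V)`.  The maps `V ⟶ T` (middle point) and the two maps `V ⟶ W` are flat (`smW`,
`smW'`, base change), so `compRing` applies over `A`: `Reg2 b.s b.x` by `Reg2.of_flat` from `B`,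
`u_12, u_23` regular by flatness from `u_reg_W`.  The resulting arrow is `AW.lift : AW →+* Γ(V)`,
i.e. `V ⟶ Spec AW`.
-/
import Pool.Agent.AFP.SmW
import Pool.Agent.AFP.Hart
import Pool.Agent.AFP.Gam

attribute [local instance] Pool.Agent.AFP.instCommRingAW Pool.Agent.AFP.instAlgebraZModAW
  Pool.Agent.AFP.instAlgebraB2AW

set_option linter.all false

open CategoryTheory Limits AlgebraicGeometry

namespace Pool.Agent.AFP

theorem map_ups {A A' : Type*} [CommRing A] [CommRing A'] (f : A →+* A') {a b c : Pt A}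
    (g : Arr a b) (g' : Arr b c) : f (ups g g') = ups (g.map f) (g'.map f) := by
  simp [ups]

/-- composition, at the level of rings -/
theorem comp_ring {C : Type} [CommRing C] (φ1 φ2 : AW →+* C)
    (h : φ1.comp AW.tgt = φ2.comp AW.src) :
    ∃ r : C, (∀ (K : Type) [Field K] (ev : C →+* K), ev (φ1 (AW.tgt B.univ.s)) = 0 →
        ev (φ1 (AW.tgt B.univ.x)) = 0 → ev r ≠ 0) ∧
      ∀ (A : Type) [CommRing A] (ρ : C →+* A), IsUnit (ρ r) → (ρ.comp φ1).Flat →
        (ρ.comp φ2).Flat → ((ρ.comp φ1).comp AW.tgt).Flat →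
        ∃ l : AW →+* A, l.comp AW.src = (ρ.comp φ1).comp AW.src ∧
          l.comp AW.tgt = (ρ.comp φ2).comp AW.tgt := by
  have hC : C2 C := C2.ofHom φ1
  have e : AW.a.map φ2 = AW.b.map φ1 := by
    rw [AW.a_eq, AW.b_eq, Pt.map_map, Pt.map_map, h]
  obtain ⟨g'⟩ : Nonempty (Arr (AW.b.map φ1) (AW.b.map φ2)) := by
    rw [← e]; exact ⟨AW.arr.map φ2⟩
  let g : Arr (AW.a.map φ1) (AW.b.map φ1) := AW.arr.map φ1
  refine ⟨ups g g', ?_, ?_⟩
  · intro K _ ev hs hx
    have hK : C2 K := C2.ofHom ev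
    have hs' : ((AW.b.map φ1).map ev).s = 0 := by
      rw [AW.b_eq]; exact hs
    have hx' : ((AW.b.map φ1).map ev).x = 0 := by
      rw [AW.b_eq]; exact hx
    have h1 := (g.map ev).closed' hs' hx'
    have h2 := (g'.map ev).closed hs' hx'
    rw [map_ups]
    simp only [ups, m, h1.1, h1.2, h2.1, h2.2, hs', hx']
    simp
  · intro A _ ρ hu f1 f2 f3
    have hA : C2 A := C2.ofHom ρ
    have u1 : ∀ y : A, u ((AW.a.map φ1).map ρ) ((AW.b.map φ1).map ρ) * y = 0 → y = 0 := by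
      have := reg_of_flat u_reg_W _ f1
      rw [map_u, ← Pt.map_map, ← Pt.map_map] at this
      exact this
    have u2 : ∀ y : A, u ((AW.b.map φ1).map ρ) ((AW.b.map φ2).map ρ) * y = 0 → y = 0 := by
      have := reg_of_flat u_reg_W _ f2
      rw [map_u, ← Pt.map_map, ← Pt.map_map, e] at this
      exact this
    have R0 : Reg2 B.univ.s B.univ.x := ⟨B.s_reg, B.sx_reg⟩
    have R : Reg2 ((AW.b.map φ1).map ρ).s ((AW.b.map φ1).map ρ).x := by
      have := R0.of_flat _ f3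
      rw [AW.b_eq]
      exact this
    obtain ⟨f⟩ := compRing (g.map ρ) (g'.map ρ) (by rw [← map_ups]; exact hu) R u1 u2
    refine ⟨AW.lift f, ?_, ?_⟩
    · apply B.hom_ext
      rw [← Pt.map_map, ← AW.a_eq, AW.a_map_lift, ← Pt.map_map, ← AW.a_eq, Pt.map_map]
    · apply B.hom_ext
      rw [← Pt.map_map, ← AW.b_eq, AW.b_map_lift, ← Pt.map_map, ← AW.b_eq, Pt.map_map]

theorem isUnit_of_basicOpen_eq_top {X : Scheme.{0}} (f : Γ(X, ⊤)) (h : X.basicOpen f = ⊤) :
    IsUnit f := by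
  apply X.toLocallyRingedSpace.toRingedSpace.isUnit_of_isUnit_germ ⊤ f
  intro x hx
  have hx' : x ∈ X.basicOpen f := by rw [h]; trivial
  exact (X.toLocallyRingedSpace.toRingedSpace.mem_basicOpen f x hx).1 hx'

theorem isUnit_res_D (P : Scheme.{0}) (r : Γ(P, ⊤)) :
    IsUnit ((P.basicOpen r).ι.appTop.hom r) := by
  apply isUnit_of_basicOpen_eq_top
  have := Scheme.preimage_basicOpen_top (P.basicOpen r).ι r
  rw [Scheme.Opens.ι_preimage_self] at this
  exact this.symm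

theorem comp_scheme {P : Scheme.{0}} [IsAffine P] (p1 p2 : P ⟶ WS)
    (hcond : p1 ≫ tgtS = p2 ≫ srcS) [Flat p1] [Flat p2] [Flat tgtS] (y : P)
    (hy : (p1 ≫ tgtS) y ∉ UT) :
    ∃ V : P.Opens, y ∈ V ∧ ∃ l : V.toScheme ⟶ WS,
      l ≫ srcS = V.ι ≫ p1 ≫ srcS ∧ l ≫ tgtS = V.ι ≫ p2 ≫ tgtS := by
  have hc : (gam p1).comp AW.tgt = (gam p2).comp AW.src := by
    rw [← gam_SpecMap, ← gam_SpecMap]
    exact congrArg gam hcond
  obtain ⟨r, hr1, hr2⟩ := comp_ring (gam p1) (gam p2) hc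
  have hyr : y ∈ P.basicOpen r := by
    have ht : y ∈ (⊤ : P.Opens) := trivial
    refine (Scheme.evaluation_ne_zero_iff_mem_basicOpen P y ht r).1 ?_
    have hy2 : ¬ ((p1 ≫ tgtS) y ∈ (PrimeSpectrum.basicOpen B.univ.s : TS.Opens) ∨
        (p1 ≫ tgtS) y ∈ (PrimeSpectrum.basicOpen B.univ.x : TS.Opens)) := hy
    push Not at hy2
    have e1 : gam (p1 ≫ tgtS) = (gam p1).comp AW.tgt := gam_SpecMap _ _
    have hs := mt (mem_preimage_D (p1 ≫ tgtS) B.univ.s y).2 hy2.1
    have hx := mt (mem_preimage_D (p1 ≫ tgtS) B.univ.x y).2 hy2.2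
    have hs := (Scheme.evaluation_eq_zero_iff_notMem_basicOpen P y ht _).2 hs
    have hx := (Scheme.evaluation_eq_zero_iff_notMem_basicOpen P y ht _).2 hx
    rw [e1] at hs hx
    exact hr1 _ (P.evaluation ⊤ y ht).hom hs hx
  have hV : IsAffine (P.basicOpen r).toScheme := (isAffineOpen_top P).basicOpen r
  refine ⟨P.basicOpen r, hyr, ?_⟩
  have f1 : Flat ((P.basicOpen r).ι ≫ p1) := inferInstance
  have f2 : Flat ((P.basicOpen r).ι ≫ p2) := inferInstance
  have f3 : Flat (((P.basicOpen r).ι ≫ p1) ≫ tgtS) := inferInstance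
  have g1 := gam_flat ((P.basicOpen r).ι ≫ p1)
  have g2 := gam_flat ((P.basicOpen r).ι ≫ p2)
  have g3 := gam_flat (((P.basicOpen r).ι ≫ p1) ≫ tgtS)
  have e3 : gam (((P.basicOpen r).ι ≫ p1) ≫ tgtS) =
    (gam ((P.basicOpen r).ι ≫ p1)).comp AW.tgt := gam_SpecMap _ _
  rw [e3] at g3
  rw [gam_comp] at g1 g2 g3
  obtain ⟨l, h1, h2⟩ := hr2 _ (P.basicOpen r).ι.appTop.hom (isUnit_res_D P r) g1 g2 g3
  refine ⟨ofGam l, ?_, ?_⟩
  · apply gam_inj
    have e4 : gam (ofGam l ≫ srcS) = (gam (ofGam l)).comp AW.src := gam_SpecMap _ _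
    have e5 : gam ((P.basicOpen r).ι ≫ p1 ≫ srcS) =
        ((P.basicOpen r).ι.appTop.hom.comp (gam p1)).comp AW.src := by
      rw [gam_comp, RingHom.comp_assoc]
      exact congrArg _ (gam_SpecMap _ _)
    rw [e4, e5, gam_ofGam, h1]
  · apply gam_inj
    have e4 : gam (ofGam l ≫ tgtS) = (gam (ofGam l)).comp AW.tgt := gam_SpecMap _ _
    have e5 : gam ((P.basicOpen r).ι ≫ p2 ≫ tgtS) =
        ((P.basicOpen r).ι.appTop.hom.comp (gam p2)).comp AW.tgt := by
      rw [gam_comp, RingHom.comp_assoc]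
      exact congrArg _ (gam_SpecMap _ _)
    rw [e4, e5, gam_ofGam, h2]

theorem comp_local (y : ↥(pullback tgtS srcS))
    (hy : (pullback.fst tgtS srcS ≫ tgtS) y ∉ UT) :
    ∃ V : (pullback tgtS srcS).Opens, y ∈ V ∧ ∃ l : V.toScheme ⟶ WS,
      l ≫ srcS = V.ι ≫ pullback.fst tgtS srcS ≫ srcS ∧
      l ≫ tgtS = V.ι ≫ pullback.snd tgtS srcS ≫ tgtS := by
  have := smW
  have := smW'
  exact comp_scheme _ _ pullback.condition y hy

/-- the unit -/
noncomputable def oneS : TS ⟶ WS := Spec.map (CommRingCat.ofHom (AW.lift (Arr.one B.univ)))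

theorem oneS_src : oneS ≫ srcS = 𝟙 TS := by
  rw [oneS, srcS, ← Spec.map_comp, ← CommRingCat.ofHom_comp]
  have : (AW.lift (Arr.one B.univ)).comp AW.src = RingHom.id B := by
    apply B.hom_ext
    rw [← Pt.map_map, ← AW.a_eq, AW.a_map_lift, Pt.map_id]
  rw [this]
  exact Spec.map_id _

theorem oneS_tgt : oneS ≫ tgtS = 𝟙 TS := by
  rw [oneS, tgtS, ← Spec.map_comp, ← CommRingCat.ofHom_comp]
  have : (AW.lift (Arr.one B.univ)).comp AW.tgt = RingHom.id B := by
    apply B.hom_ext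
    rw [← Pt.map_map, ← AW.b_eq, AW.b_map_lift, Pt.map_id]
  rw [this]
  exact Spec.map_id _

end Pool.Agent.AFP
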