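/-
MP_911691_ag: groupoids in schemes.
-/
import Mathlib

set_option linter.all false

open CategoryTheory Limits AlgebraicGeometry

universe u

namespace Pool.Agent.AFP

/-- A groupoid in schemes over `S`: objects `Y`, arrows `R ⇉ Y` (source `s`, target `t`), unit `e`,
inverse `inv`, composition `mul` (an arrow `g : x → y` followed by an arrow `h : y → z`), with the
groupoid axioms on `T`-valued points for all schemes `T`. -/
structure SchemeGroupoid (S : Scheme.{u}) where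
  Y : Scheme.{u}
  f : Y ⟶ S
  R : Scheme.{u}
  s : R ⟶ Y
  t : R ⟶ Y
  s_f : s ≫ f = t ≫ f
  e : Y ⟶ R
  inv : R ⟶ R
  mul : pullback t s ⟶ R
  e_s : e ≫ s = 𝟙 Y
  e_t : e ≫ t = 𝟙 Y
  inv_s : inv ≫ s = t
  inv_t : inv ≫ t = s
  mul_s : mul ≫ s = pullback.fst t s ≫ s
  mul_t : mul ≫ t = pullback.snd t s ≫ t
  one_mul : ∀ {T : Scheme.{u}} (g : T ⟶ R),
    pullback.lift (g ≫ s ≫ e) g (by rw [Category.assoc, Category.assoc, e_t, Category.comp_id]) ≫ mul = g
  mul_one : ∀ {T : Scheme.{u}} (g : T ⟶ R),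
    pullback.lift g (g ≫ t ≫ e) (by rw [Category.assoc, Category.assoc, e_s, Category.comp_id]) ≫ mul = g
  mul_inv' : ∀ {T : Scheme.{u}} (g : T ⟶ R),
    pullback.lift g (g ≫ inv) (by rw [Category.assoc, inv_s]) ≫ mul = g ≫ s ≫ e
  inv_mul' : ∀ {T : Scheme.{u}} (g : T ⟶ R),
    pullback.lift (g ≫ inv) g (by rw [Category.assoc, inv_t]) ≫ mul = g ≫ t ≫ e
  assoc : ∀ {T : Scheme.{u}} (g h k : T ⟶ R) (hgh : g ≫ t = h ≫ s) (hhk : h ≫ t = k ≫ s),
    pullback.lift (pullback.lift g h hgh ≫ mul) k (by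
        rw [Category.assoc, mul_t, pullback.lift_snd_assoc, hhk]) ≫ mul =
      pullback.lift g (pullback.lift h k hhk ≫ mul) (by
        rw [Category.assoc, mul_s, pullback.lift_fst_assoc, hgh]) ≫ mul

namespace SchemeGroupoid

variable {S : Scheme.{u}} (G : SchemeGroupoid S)

/-- `(s,t) : R ⟶ Y ×_S Y` -/
noncomputable def st : G.R ⟶ pullback G.f G.f := pullback.lift G.s G.t G.s_f

end SchemeGroupoid

end Pool.Agent.AFP
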