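/-
MP_911691_ag: uniqueness of maps to `R` (schematic density) and gluing of maps.
-/
import Pool.Agent.AFP.RDef

set_option linter.all false

open CategoryTheory Limits AlgebraicGeometry

universe u

namespace Pool.Agent.AFP

/-- Two maps into a scheme separated over `Z` which agree over `Z` and on a schematically dense
subscheme are equal. -/
theorem ext_of_schDominant {W X Y Z : Scheme.{u}} {f g : X ⟶ Y} (s : Y ⟶ Z) [IsSeparated s]
    (h : f ≫ s = g ≫ s) (ι : W ⟶ X) [IsSchemeTheoreticallyDominant ι] (hU : ι ≫ f = ι ≫ g) :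
    f = g := by
  let X' : Over Z := Over.mk (f ≫ s)
  let Y' : Over Z := Over.mk s
  let U' : Over Z := Over.mk (ι ≫ f ≫ s)
  let f' : X' ⟶ Y' := Over.homMk f
  let g' : X' ⟶ Y' := Over.homMk g
  let ι' : U' ⟶ X' := Over.homMk ι
  have : IsSeparated Y'.hom := ‹_›
  have hc : ι' ≫ f' = ι' ≫ g' := by ext1; exact hU
  have e : (equalizer.lift ι' hc).left ≫ (equalizer.ι f' g').left = ι := by
    rw [← Over.comp_left, equalizer.lift_ι]
    rfl
  have hk : (equalizer.ι f' g').left.ker = ⊥ := by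
    rw [eq_bot_iff]
    calc (equalizer.ι f' g').left.ker ≤ ((equalizer.lift ι' hc).left ≫ (equalizer.ι f' g').left).ker :=
          Scheme.Hom.le_ker_comp _ _
      _ = ⊥ := by rw [e]; exact ι.ker_eq_bot
  have : IsIso (equalizer.ι f' g').left := IsClosedImmersion.isIso_iff_ker_eq_bot.2 hk
  rw [← cancel_epi (equalizer.ι f' g').left]
  exact congr($(equalizer.condition f' g').left)

variable {S T W : Scheme.{u}} (f : T ⟶ S) (U : T.Opens) (φ : W ⟶ pullback f f)
variable [IsOpenImmersion (φ ∣_ UU f U)]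

/-- uniqueness of maps to `R` -/
theorem uniq [IsSeparated (psi f U φ)] (hU : IsCompact (U : Set T)) [IsAffine T]
    [IsSchemeTheoreticallyDominant U.ι] {Y : Scheme.{u}} (p : Y ⟶ T) [Flat p]
    (a b : Y ⟶ RR f U φ) (h : a ≫ psi f U φ = b ≫ psi f U φ)
    (hp : p ⁻¹ᵁ U ≤ (a ≫ psi f U φ) ⁻¹ᵁ UU f U) : a = b := by
  have hcs : CompactSpace U.toScheme := isCompact_iff_compactSpace.mp hU
  have hq : QuasiCompact U.ι := inferInstance
  have hd : IsSchemeTheoreticallyDominant (p ⁻¹ᵁ U).ι :=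
    IsSchemeTheoreticallyDominant.of_isPullback (isPullback_morphismRestrict p U)
  refine ext_of_schDominant (psi f U φ) h (p ⁻¹ᵁ U).ι ?_
  apply eq_on_UU
  · rw [Category.assoc, Category.assoc, h]
  · rw [eq_top_iff]
    intro y _
    have := hp y.2
    exact this

/-- Gluing of maps: a map `g` to `T × T` lifts to `R` as soon as it lifts locally at all points not
over `U × U`. -/
theorem exists_lift [IsSeparated (psi f U φ)] (hU : IsCompact (U : Set T)) [IsAffine T]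
    [IsSchemeTheoreticallyDominant U.ι] {Y : Scheme.{u}} (p : Y ⟶ T) [Flat p]
    (g : Y ⟶ pullback f f) (hp : p ⁻¹ᵁ U ≤ g ⁻¹ᵁ UU f U)
    (H : ∀ y : Y, g y ∉ UU f U → ∃ V : Y.Opens, y ∈ V ∧ ∃ l : V.toScheme ⟶ RR f U φ,
      l ≫ psi f U φ = V.ι ≫ g) :
    ∃ l : Y ⟶ RR f U φ, l ≫ psi f U φ = g := by
  have H' : ∀ y : Y, ∃ V : Y.Opens, y ∈ V ∧ ∃ l : V.toScheme ⟶ RR f U φ,
      l ≫ psi f U φ = V.ι ≫ g := by
    intro y
    by_cases hy : g y ∈ UU f U
    · refine ⟨g ⁻¹ᵁ UU f U, hy, (g ∣_ UU f U) ≫ jU f U φ, ?_⟩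
      rw [Category.assoc, jU_psi, morphismRestrict_ι]
    · exact H y hy
  choose V hV l hl using H'
  let 𝒰 : Y.OpenCover := {
    I₀ := Y, X i := (V i), f i := (V i).ι,
    mem₀ := by
      rw [Scheme.presieve₀_mem_precoverage_iff]
      refine ⟨fun x ↦ ⟨x, by simpa using hV x⟩, inferInstance⟩ }
  have hcomp : ∀ x y, pullback.fst (𝒰.f x) (𝒰.f y) ≫ l x = pullback.snd (𝒰.f x) (𝒰.f y) ≫ l y := by
    intro x y
    have : Flat ((pullback.fst (𝒰.f x) (𝒰.f y) ≫ 𝒰.f x) ≫ p) := by infer_instance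
    refine uniq f U φ hU ((pullback.fst (𝒰.f x) (𝒰.f y) ≫ 𝒰.f x) ≫ p) _ _ ?_ ?_
    · rw [Category.assoc, Category.assoc, hl, hl]
      exact pullback.condition_assoc _
    · have e : (pullback.fst (𝒰.f x) (𝒰.f y) ≫ l x) ≫ psi f U φ =
          (pullback.fst (𝒰.f x) (𝒰.f y) ≫ 𝒰.f x) ≫ g := by
        rw [Category.assoc, hl, Category.assoc]
      rw [e]
      intro z hz
      exact hp hz
  refine ⟨𝒰.glueMorphisms l hcomp, 𝒰.hom_ext _ _ fun x => ?_⟩
  rw [← Category.assoc, 𝒰.ι_glueMorphisms]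
  exact hl x

end Pool.Agent.AFP
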