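/-
MP_911691_ag, module R-SEP: `psi : R ⟶ T × T` is separated and quasi-compact.
The diagonal of `psi` is an immersion; its range is closed: over `U × U` it is everything, and away
from `U × U` both projections lie in the chart `W`, where the diagonal of `φ` is closed.
-/
import Pool.Agent.AFP.RUniq

set_option linter.all false

open CategoryTheory Limits AlgebraicGeometry

universe u

namespace Pool.Agent.AFP

variable {S T W : Scheme.{u}} (f : T ⟶ S) (U : T.Opens) (φ : W ⟶ pullback f f)
variable [IsOpenImmersion (φ ∣_ UU f U)]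

theorem psi_qc (D : IsGData f U φ) : QuasiCompact (psi f U φ) := by
  have h1 := D.affS
  have h2 := D.affT
  have h3 := D.affW
  have hP : IsAffine (pullback f f) := inferInstance
  have hqs : QuasiSeparatedSpace ↥(pullback f f) := inferInstance
  have hUc : IsCompact (UU f U : Set ↥(pullback f f)) := by
    have e : (UU f U : Set ↥(pullback f f)) =
        (pullback.fst f f) ⁻¹' (U : Set T) ∩ (pullback.snd f f) ⁻¹' (U : Set T) := rfl
    rw [e]
    apply IsCompact.inter_of_isOpen
    · exact QuasiCompact.isCompact_preimage (f := pullback.fst f f) _ U.2 D.qcU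
    · exact QuasiCompact.isCompact_preimage (f := pullback.snd f f) _ U.2 D.qcU
    · exact ((pullback.fst f f) ⁻¹ᵁ U).2
    · exact ((pullback.snd f f) ⁻¹ᵁ U).2
  have hcR : CompactSpace ↥(RR f U φ) := by
    constructor
    have e : (Set.univ : Set ↥(RR f U φ)) = Set.range (jW f U φ) ∪ Set.range (jU f U φ) := by
      symm
      rw [Set.eq_univ_iff_forall]
      intro y
      rcases j_cover f U φ y with ⟨x, hx⟩ | ⟨x, hx⟩
      · exact Or.inl ⟨x, hx⟩
      · exact Or.inr ⟨x, hx⟩
    rw [e]
    have hcU : CompactSpace (UU f U).toScheme := isCompact_iff_compactSpace.mp hUc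
    exact (isCompact_range (jW f U φ).continuous).union (isCompact_range (jU f U φ).continuous)
  infer_instance

theorem psi_sep (D : IsGData f U φ) : IsSeparated (psi f U φ) := by
  have h1 := D.affS
  have h2 := D.affT
  have h3 := D.affW
  have hφ : IsSeparated φ := inferInstance
  constructor
  apply IsClosedImmersion.of_isPreimmersion
  let k : pullback φ φ ⟶ pullback (psi f U φ) (psi f U φ) :=
    pullback.map φ φ (psi f U φ) (psi f U φ) (jW f U φ) (jW f U φ) (𝟙 _) (by simp) (by simp)
  have hk : IsOpenImmersion k := inferInstance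
  have hk1 : k ≫ pullback.fst _ _ = pullback.fst _ _ ≫ jW f U φ := pullback.lift_fst _ _ _
  have hk2 : k ≫ pullback.snd _ _ = pullback.snd _ _ ≫ jW f U φ := pullback.lift_snd _ _ _
  have hkd : jW f U φ ≫ pullback.diagonal (psi f U φ) = pullback.diagonal φ ≫ k := by
    apply pullback.hom_ext
    · rw [Category.assoc, Category.assoc, hk1, pullback.diagonal_fst, pullback.diagonal_fst_assoc,
        Category.comp_id]
    · rw [Category.assoc, Category.assoc, hk2, pullback.diagonal_snd, pullback.diagonal_snd_assoc,
        Category.comp_id]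
  rw [← isOpen_compl_iff, isOpen_iff_forall_mem_open]
  intro y hy
  by_cases ht : (pullback.fst (psi f U φ) (psi f U φ) ≫ psi f U φ) y ∈ UU f U
  · exfalso
    apply hy
    let O := (pullback.fst (psi f U φ) (psi f U φ) ≫ psi f U φ) ⁻¹ᵁ UU f U
    have e : O.ι ≫ pullback.fst (psi f U φ) (psi f U φ) =
        O.ι ≫ pullback.snd (psi f U φ) (psi f U φ) := by
      apply eq_on_UU
      · rw [Category.assoc, Category.assoc, pullback.condition]
      · rw [eq_top_iff]
        intro z _
        have := z.2
        exact this
    have e2 : O.ι = (O.ι ≫ pullback.fst (psi f U φ) (psi f U φ)) ≫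
        pullback.diagonal (psi f U φ) := by
      apply pullback.hom_ext
      · simp
      · simp [e]
    let y' : O.toScheme := ⟨y, ht⟩
    have e3 : O.ι y' = pullback.diagonal (psi f U φ)
        ((O.ι ≫ pullback.fst (psi f U φ) (psi f U φ)) y') := by
      rw [← Scheme.Hom.comp_apply, ← e2]
    exact ⟨_, e3.symm⟩
  · have hy1 : pullback.fst (psi f U φ) (psi f U φ) y ∈ Set.range (jW f U φ) := by
      rcases j_cover f U φ (pullback.fst (psi f U φ) (psi f U φ) y) with ⟨x, hx⟩ | ⟨x, hx⟩
      · exact ⟨x, hx⟩
      · exfalso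
        apply ht
        have : pullback.fst (psi f U φ) (psi f U φ) y ∈ (jU f U φ).opensRange := ⟨x, hx⟩
        rw [← psi_preimage] at this
        exact this
    have hy2 : pullback.snd (psi f U φ) (psi f U φ) y ∈ Set.range (jW f U φ) := by
      rcases j_cover f U φ (pullback.snd (psi f U φ) (psi f U φ) y) with ⟨x, hx⟩ | ⟨x, hx⟩
      · exact ⟨x, hx⟩
      · exfalso
        apply ht
        have : pullback.snd (psi f U φ) (psi f U φ) y ∈ (jU f U φ).opensRange := ⟨x, hx⟩
        rw [← psi_preimage] at this
        rw [pullback.condition]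
        exact this
    have hyk : y ∈ Set.range k := by
      rw [Scheme.Pullback.range_map]
      exact ⟨hy1, hy2⟩
    obtain ⟨w, rfl⟩ := hyk
    refine ⟨k '' (Set.range (pullback.diagonal φ))ᶜ, ?_, ?_, ?_⟩
    · rintro _ ⟨w', hw', rfl⟩ ⟨r, hr⟩
      apply hw'
      have hr1 : jW f U φ (pullback.fst φ φ w') = r := by
        have h4 := congrArg (fun z => pullback.fst (psi f U φ) (psi f U φ) z) hr
        simp only [← Scheme.Hom.comp_apply] at h4
        rw [hk1, pullback.diagonal_fst] at h4
        rw [← Scheme.Hom.comp_apply]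
        exact h4.symm
      refine ⟨pullback.fst φ φ w', ?_⟩
      apply k.isOpenEmbedding.injective
      rw [← Scheme.Hom.comp_apply, ← hkd, Scheme.Hom.comp_apply, hr1, hr]
    · apply k.isOpenEmbedding.isOpenMap
      rw [isOpen_compl_iff]
      exact (pullback.diagonal φ).isClosedEmbedding.isClosed_range
    · refine ⟨w, ?_, rfl⟩
      rintro ⟨v, rfl⟩
      apply hy
      refine ⟨jW f U φ v, ?_⟩
      rw [← Scheme.Hom.comp_apply, hkd, Scheme.Hom.comp_apply]

end Pool.Agent.AFP
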