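/-
MP_911691_ag, module R-SM: the source map `psi ≫ fst : R ⟶ T` is smooth.

Smooth is local on the source; cover of `R` by `jW`, `jU`; `jU ≫ psi ≫ fst = (UU).ι ≫ fst`, and
`snd ⁻¹ᵁ U ⟶ T` is the base change of the smooth `U.ι ≫ f`.
-/
import Pool.Agent.AFP.RUniq

set_option linter.all false

open CategoryTheory Limits AlgebraicGeometry

universe u

namespace Pool.Agent.AFP

variable {S T W : Scheme.{u}} (f : T ⟶ S) (U : T.Opens) (φ : W ⟶ pullback f f)
variable [IsOpenImmersion (φ ∣_ UU f U)]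

theorem smooth_opensRange {X X₁ Y : Scheme.{u}} (g : X ⟶ Y) (i : X₁ ⟶ X) [IsOpenImmersion i]
    (h : Smooth (i ≫ g)) : Smooth (i.opensRange.ι ≫ g) := by
  rw [← IsOpenImmersion.isoOfRangeEq_inv_fac i (Scheme.Opens.ι _)
    (congr_arg TopologicalSpace.Opens.carrier i.opensRange.opensRange_ι.symm), Category.assoc,
    MorphismProperty.cancel_left_of_respectsIso @Smooth]
  exact h

theorem smooth_of_two {X X₁ X₂ Y : Scheme.{u}} (g : X ⟶ Y) (i : X₁ ⟶ X) (j : X₂ ⟶ X)
    [IsOpenImmersion i] [IsOpenImmersion j] (hc : ∀ x : X, (∃ y, i y = x) ∨ (∃ y, j y = x))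
    (hi : Smooth (i ≫ g)) (hj : Smooth (j ≫ g)) : Smooth g := by
  refine IsZariskiLocalAtSource.of_iSup_eq_top (P := @Smooth) (ι := Bool)
    (fun b => if b then i.opensRange else j.opensRange) ?_ ?_
  · rw [eq_top_iff]
    rintro x -
    simp only [TopologicalSpace.Opens.mem_iSup]
    rcases hc x with ⟨y, hy⟩ | ⟨y, hy⟩
    · exact ⟨true, ⟨y, hy⟩⟩
    · exact ⟨false, ⟨y, hy⟩⟩
  · rintro (_ | _)
    · exact smooth_opensRange g j hj
    · exact smooth_opensRange g i hi

theorem psi_fst_smooth (D : IsGData f U φ) : Smooth (psi f U φ ≫ pullback.fst f f) := by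
  refine smooth_of_two _ (jW f U φ) (jU f U φ) (j_cover f U φ) ?_ ?_
  · rw [jW_psi_assoc]
    exact D.smW
  · rw [jU_psi_assoc]
    have h1 : IsPullback ((pullback.snd f f ⁻¹ᵁ U).ι ≫ pullback.fst f f) (pullback.snd f f ∣_ U)
        f (U.ι ≫ f) :=
      (isPullback_morphismRestrict (pullback.snd f f) U).flip.paste_horiz
        (IsPullback.of_hasPullback f f)
    have h2 : Smooth ((pullback.snd f f ⁻¹ᵁ U).ι ≫ pullback.fst f f) := by
      have := D.smU
      exact MorphismProperty.of_isPullback h1.flip this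
    have h3 : UU f U ≤ pullback.snd f f ⁻¹ᵁ U := inf_le_right
    rw [← Scheme.homOfLE_ι _ h3, Category.assoc]
    infer_instance

end Pool.Agent.AFP
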