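/-
MP_911691_ag, module R-GPD: the groupoid structure on the glued scheme `R ⇉ T`.
-/
import Pool.Agent.AFP.RSep
import Pool.Agent.AFP.RSmooth
import Pool.Agent.AFP.GpdDef

set_option linter.all false

open CategoryTheory Limits AlgebraicGeometry

universe u

namespace Pool.Agent.AFP

variable {S T W : Scheme.{u}} (f : T ⟶ S) (U : T.Opens) (φ : W ⟶ pullback f f)

section ops

variable [IsOpenImmersion (φ ∣_ UU f U)]

/-- source -/
noncomputable def sR : RR f U φ ⟶ T := psi f U φ ≫ pullback.fst f f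
/-- target -/
noncomputable def tR : RR f U φ ⟶ T := psi f U φ ≫ pullback.snd f f

theorem sR_tR : sR f U φ ≫ f = tR f U φ ≫ f := by
  rw [sR, tR, Category.assoc, Category.assoc, pullback.condition]

theorem lift_sR_tR : pullback.lift (sR f U φ) (tR f U φ) (sR_tR f U φ) = psi f U φ := by
  apply pullback.hom_ext
  · rw [pullback.lift_fst]; rfl
  · rw [pullback.lift_snd]; rfl

theorem mem_UU_iff (z : ↥(pullback f f)) :
    z ∈ UU f U ↔ (pullback.fst f f z ∈ U ∧ pullback.snd f f z ∈ U) := Iff.rfl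

variable {f U φ}

theorem psi_mem_iff_s (D : IsGData f U φ) (y : ↥(RR f U φ)) :
    psi f U φ y ∈ UU f U ↔ sR f U φ y ∈ U := by
  rcases j_cover f U φ y with ⟨x, rfl⟩ | ⟨x, rfl⟩
  · rw [← Scheme.Hom.comp_apply, ← Scheme.Hom.comp_apply, jW_psi, sR, jW_psi_assoc]
    have h := D.pre1
    constructor
    · intro hx
      have : x ∈ φ ⁻¹ᵁ UU f U := hx
      rw [← h] at this
      exact this
    · intro hx
      have : x ∈ (φ ≫ pullback.fst f f) ⁻¹ᵁ U := hx
      rw [h] at this
      exact this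
  · constructor
    · intro h
      rw [sR, Scheme.Hom.comp_apply]
      exact h.1
    · intro _
      rw [← Scheme.Hom.comp_apply, jU_psi]
      exact x.2

theorem psi_mem_iff_t (D : IsGData f U φ) (y : ↥(RR f U φ)) :
    psi f U φ y ∈ UU f U ↔ tR f U φ y ∈ U := by
  rcases j_cover f U φ y with ⟨x, rfl⟩ | ⟨x, rfl⟩
  · rw [← Scheme.Hom.comp_apply, ← Scheme.Hom.comp_apply, jW_psi, tR, jW_psi_assoc]
    have h := D.pre2
    constructor
    · intro hx
      have : x ∈ φ ⁻¹ᵁ UU f U := hx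
      rw [← h] at this
      exact this
    · intro hx
      have : x ∈ (φ ≫ pullback.snd f f) ⁻¹ᵁ U := hx
      rw [h] at this
      exact this
  · constructor
    · intro h
      rw [tR, Scheme.Hom.comp_apply]
      exact h.2
    · intro _
      rw [← Scheme.Hom.comp_apply, jU_psi]
      exact x.2

theorem s_mem_iff_t (D : IsGData f U φ) (y : ↥(RR f U φ)) :
    sR f U φ y ∈ U ↔ tR f U φ y ∈ U := by
  rw [← psi_mem_iff_s D, ← psi_mem_iff_t D]

/-- uniqueness of maps to `R` from a scheme flat over `T` through the source. -/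
theorem uniq_s (D : IsGData f U φ) {Y : Scheme.{u}} (a b : Y ⟶ RR f U φ) [Flat (a ≫ sR f U φ)]
    (hs : a ≫ sR f U φ = b ≫ sR f U φ) (ht : a ≫ tR f U φ = b ≫ tR f U φ) : a = b := by
  have := psi_sep f U φ D
  have := D.affT
  have := D.domU
  refine uniq f U φ D.qcU (a ≫ sR f U φ) a b ?_ ?_
  · apply pullback.hom_ext
    · simpa [sR] using hs
    · simpa [tR] using ht
  · intro y hy
    have h1 : sR f U φ (a y) ∈ U := by
      rw [← Scheme.Hom.comp_apply]; exact hy
    have h2 := (psi_mem_iff_s D (a y)).2 h1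
    change (a ≫ psi f U φ) y ∈ UU f U
    rw [Scheme.Hom.comp_apply]
    exact h2

/-- existence of maps to `R` -/
theorem lift_s (D : IsGData f U φ) {Y : Scheme.{u}} (g : Y ⟶ pullback f f)
    [Flat (g ≫ pullback.fst f f)]
    (hp : ∀ y, pullback.fst f f (g y) ∈ U → pullback.snd f f (g y) ∈ U)
    (H : ∀ y : Y, g y ∉ UU f U → ∃ V : Y.Opens, y ∈ V ∧ ∃ l : V.toScheme ⟶ RR f U φ,
      l ≫ psi f U φ = V.ι ≫ g) :
    ∃ l : Y ⟶ RR f U φ, l ≫ psi f U φ = g := by
  have := psi_sep f U φ D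
  have := D.affT
  have := D.domU
  refine exists_lift f U φ D.qcU (g ≫ pullback.fst f f) g ?_ H
  intro y hy
  have h1 : pullback.fst f f (g y) ∈ U := by
    rw [← Scheme.Hom.comp_apply]; exact hy
  exact ⟨h1, hp y h1⟩

theorem exists_one (D : IsGData f U φ) :
    ∃ e : T ⟶ RR f U φ, e ≫ sR f U φ = 𝟙 T ∧ e ≫ tR f U φ = 𝟙 T := by
  obtain ⟨e, he⟩ := D.one
  refine ⟨e ≫ jW f U φ, ?_, ?_⟩
  · rw [sR, Category.assoc, jW_psi_assoc, ← Category.assoc, he, pullback.lift_fst]
  · rw [tR, Category.assoc, jW_psi_assoc, ← Category.assoc, he, pullback.lift_snd]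

theorem flat_sR (D : IsGData f U φ) : Flat (sR f U φ) := by
  have := psi_fst_smooth f U φ D
  unfold sR
  infer_instance

theorem exists_inv (D : IsGData f U φ) :
    ∃ i : RR f U φ ⟶ RR f U φ, i ≫ sR f U φ = tR f U φ ∧ i ≫ tR f U φ = sR f U φ := by
  have := psi_sep f U φ D
  have := D.affT
  have := D.domU
  have := flat_sR D
  obtain ⟨i, -, hi⟩ := D.inv
  let sw : pullback f f ⟶ pullback f f :=
    pullback.lift (pullback.snd f f) (pullback.fst f f) pullback.condition.symm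
  have hsw1 : sw ≫ pullback.fst f f = pullback.snd f f := pullback.lift_fst _ _ _
  have hsw2 : sw ≫ pullback.snd f f = pullback.fst f f := pullback.lift_snd _ _ _
  have hmem : ∀ y, (psi f U φ ≫ sw) y ∈ UU f U ↔ psi f U φ y ∈ UU f U := by
    intro y
    rw [mem_UU_iff, mem_UU_iff, ← Scheme.Hom.comp_apply, ← Scheme.Hom.comp_apply, Category.assoc,
      Category.assoc, hsw1, hsw2, Scheme.Hom.comp_apply, Scheme.Hom.comp_apply]
    exact And.comm
  obtain ⟨l, hl⟩ := exists_lift f U φ D.qcU (sR f U φ) (psi f U φ ≫ sw) (by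
    intro y hy
    exact (hmem y).2 ((psi_mem_iff_s D y).2 hy)) (by
    intro y hy
    rw [hmem] at hy
    have hy' : y ∈ (jW f U φ).opensRange := by
      rcases j_cover f U φ y with ⟨x, rfl⟩ | ⟨x, rfl⟩
      · exact ⟨x, rfl⟩
      · exact absurd (by rw [← Scheme.Hom.comp_apply, jU_psi]; exact x.2) hy
    refine ⟨(jW f U φ).opensRange, hy', (jW f U φ).isoOpensRange.inv ≫ i ≫ jW f U φ, ?_⟩
    rw [Category.assoc, Category.assoc, jW_psi, hi, Iso.inv_comp_eq, ← Category.assoc,
      Scheme.Hom.isoOpensRange_hom_ι, jW_psi_assoc])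
  refine ⟨l, ?_, ?_⟩
  · rw [sR, ← Category.assoc, hl, Category.assoc, hsw1]; rfl
  · rw [tR, ← Category.assoc, hl, Category.assoc, hsw2]; rfl

theorem exists_mul (D : IsGData f U φ) :
    ∃ c : pullback (tR f U φ) (sR f U φ) ⟶ RR f U φ,
      c ≫ sR f U φ = pullback.fst _ _ ≫ sR f U φ ∧ c ≫ tR f U φ = pullback.snd _ _ ≫ tR f U φ := by
  have := flat_sR D
  let p₁ := pullback.fst (tR f U φ) (sR f U φ)
  let p₂ := pullback.snd (tR f U φ) (sR f U φ)
  have hp : p₁ ≫ tR f U φ = p₂ ≫ sR f U φ := pullback.condition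
  let g : pullback (tR f U φ) (sR f U φ) ⟶ pullback f f :=
    pullback.lift (p₁ ≫ sR f U φ) (p₂ ≫ tR f U φ) (by
      rw [Category.assoc, sR_tR, ← Category.assoc, hp, Category.assoc, sR_tR, Category.assoc])
  have hg1 : g ≫ pullback.fst f f = p₁ ≫ sR f U φ := pullback.lift_fst _ _ _
  have hg2 : g ≫ pullback.snd f f = p₂ ≫ tR f U φ := pullback.lift_snd _ _ _
  have : Flat (g ≫ pullback.fst f f) := by
    rw [hg1]; infer_instance
  have key : ∀ y, (sR f U φ (p₁ y) ∈ U ↔ tR f U φ (p₂ y) ∈ U) := by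
    intro y
    rw [s_mem_iff_t D, ← Scheme.Hom.comp_apply, hp, Scheme.Hom.comp_apply, s_mem_iff_t D]
  have hg1' : ∀ y, pullback.fst f f (g y) = sR f U φ (p₁ y) := by
    intro y; rw [← Scheme.Hom.comp_apply, hg1, Scheme.Hom.comp_apply]
  have hg2' : ∀ y, pullback.snd f f (g y) = tR f U φ (p₂ y) := by
    intro y; rw [← Scheme.Hom.comp_apply, hg2, Scheme.Hom.comp_apply]
  let κ : pullback (φ ≫ pullback.snd f f) (φ ≫ pullback.fst f f) ⟶
      pullback (tR f U φ) (sR f U φ) :=
    pullback.map _ _ _ _ (jW f U φ) (jW f U φ) (𝟙 T)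
      (by rw [Category.comp_id, tR, jW_psi_assoc]) (by rw [Category.comp_id, sR, jW_psi_assoc])
  have hκ1 : κ ≫ p₁ = pullback.fst _ _ ≫ jW f U φ := pullback.lift_fst _ _ _
  have hκ2 : κ ≫ p₂ = pullback.snd _ _ ≫ jW f U φ := pullback.lift_snd _ _ _
  have hκo : IsOpenImmersion κ :=
    MorphismProperty.pullbackMap (P := @IsOpenImmersion) (by infer_instance) (by infer_instance)
      (by rw [tR, jW_psi_assoc]) (by rw [sR, jW_psi_assoc])
  obtain ⟨l, hl⟩ := lift_s D g (by
    intro y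
    rw [hg1', hg2']
    exact (key y).1) (by
    intro y hy
    rw [mem_UU_iff, hg1', hg2', ← key y, and_self] at hy
    have h1 : ∃ x, jW f U φ x = p₁ y := by
      rcases j_cover f U φ (p₁ y) with h | ⟨x, hx⟩
      · exact h
      · exfalso
        apply hy
        rw [← psi_mem_iff_s D, ← hx, ← Scheme.Hom.comp_apply, jU_psi]
        exact x.2
    have h2 : ∃ x, jW f U φ x = p₂ y := by
      rcases j_cover f U φ (p₂ y) with h | ⟨x, hx⟩
      · exact h
      · exfalso
        apply hy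
        rw [key, ← psi_mem_iff_t D, ← hx, ← Scheme.Hom.comp_apply, jU_psi]
        exact x.2
    have hy' : ∃ y', κ y' = y := by
      have hr : y ∈ Set.range κ := by
        rw [Scheme.Pullback.range_map]
        exact ⟨h1, h2⟩
      exact hr
    obtain ⟨y', rfl⟩ := hy'
    obtain ⟨V, hV, l, hl1, hl2⟩ := D.comp y' (by
      rw [s_mem_iff_t D, ← Scheme.Hom.comp_apply, ← Scheme.Hom.comp_apply, ← Category.assoc,
        hκ1, Category.assoc, tR, jW_psi_assoc] at hy
      exact hy)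
    refine ⟨(V.ι ≫ κ).opensRange, ⟨⟨y', hV⟩, rfl⟩, (V.ι ≫ κ).isoOpensRange.inv ≫ l ≫ jW f U φ, ?_⟩
    rw [Category.assoc, Category.assoc, jW_psi, Iso.inv_comp_eq]
    rw [← Category.assoc, Scheme.Hom.isoOpensRange_hom_ι]
    apply pullback.hom_ext
    · rw [Category.assoc, hl1, Category.assoc, Category.assoc, hg1, ← Category.assoc κ, hκ1,
        Category.assoc]
      unfold sR
      rw [jW_psi_assoc]
    · rw [Category.assoc, hl2, Category.assoc, Category.assoc, hg2, ← Category.assoc κ, hκ2,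
        Category.assoc]
      unfold tR
      rw [jW_psi_assoc])
  refine ⟨l, ?_, ?_⟩
  · change l ≫ (psi f U φ ≫ pullback.fst f f) = p₁ ≫ sR f U φ
    rw [← Category.assoc, hl, hg1]
  · change l ≫ (psi f U φ ≫ pullback.snd f f) = p₂ ≫ tR f U φ
    rw [← Category.assoc, hl, hg2]

section axioms

variable {e : T ⟶ RR f U φ} {i : RR f U φ ⟶ RR f U φ}
  {c : pullback (tR f U φ) (sR f U φ) ⟶ RR f U φ}

theorem ax_one_mul (D : IsGData f U φ) (e_s : e ≫ sR f U φ = 𝟙 T) (e_t : e ≫ tR f U φ = 𝟙 T)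
    (c_s : c ≫ sR f U φ = pullback.fst _ _ ≫ sR f U φ)
    (c_t : c ≫ tR f U φ = pullback.snd _ _ ≫ tR f U φ) {Y : Scheme.{u}} (g : Y ⟶ RR f U φ)
    (h : (g ≫ sR f U φ ≫ e) ≫ tR f U φ = g ≫ sR f U φ) :
    pullback.lift (g ≫ sR f U φ ≫ e) g h ≫ c = g := by
  have := flat_sR D
  have h0 : (sR f U φ ≫ e) ≫ tR f U φ = 𝟙 _ ≫ sR f U φ := by
    rw [Category.assoc, e_t, Category.comp_id, Category.id_comp]
  have h1 : (pullback.lift (sR f U φ ≫ e) (𝟙 _) h0 ≫ c) ≫ sR f U φ = sR f U φ := by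
    rw [Category.assoc, c_s, pullback.lift_fst_assoc, Category.assoc, e_s, Category.comp_id]
  have : Flat ((pullback.lift (sR f U φ ≫ e) (𝟙 _) h0 ≫ c) ≫ sR f U φ) := by
    rw [h1]; infer_instance
  have key : pullback.lift (sR f U φ ≫ e) (𝟙 _) h0 ≫ c = 𝟙 _ := by
    refine uniq_s D _ _ ?_ ?_
    · rw [h1, Category.id_comp]
    · rw [Category.assoc, c_t, pullback.lift_snd_assoc]
  have e1 : pullback.lift (g ≫ sR f U φ ≫ e) g h = g ≫ pullback.lift (sR f U φ ≫ e) (𝟙 _) h0 := by
    apply pullback.hom_ext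
    · rw [pullback.lift_fst, Category.assoc, pullback.lift_fst]
    · rw [pullback.lift_snd, Category.assoc, pullback.lift_snd, Category.comp_id]
  rw [e1, Category.assoc, key, Category.comp_id]

theorem ax_mul_one (D : IsGData f U φ) (e_s : e ≫ sR f U φ = 𝟙 T) (e_t : e ≫ tR f U φ = 𝟙 T)
    (c_s : c ≫ sR f U φ = pullback.fst _ _ ≫ sR f U φ)
    (c_t : c ≫ tR f U φ = pullback.snd _ _ ≫ tR f U φ) {Y : Scheme.{u}} (g : Y ⟶ RR f U φ)
    (h : g ≫ tR f U φ = (g ≫ tR f U φ ≫ e) ≫ sR f U φ) :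
    pullback.lift g (g ≫ tR f U φ ≫ e) h ≫ c = g := by
  have := flat_sR D
  have h0 : 𝟙 _ ≫ tR f U φ = (tR f U φ ≫ e) ≫ sR f U φ := by
    rw [Category.assoc, e_s, Category.comp_id, Category.id_comp]
  have h1 : (pullback.lift (𝟙 _) (tR f U φ ≫ e) h0 ≫ c) ≫ sR f U φ = sR f U φ := by
    rw [Category.assoc, c_s, pullback.lift_fst_assoc, Category.id_comp]
  have : Flat ((pullback.lift (𝟙 _) (tR f U φ ≫ e) h0 ≫ c) ≫ sR f U φ) := by
    rw [h1]; infer_instance
  have key : pullback.lift (𝟙 _) (tR f U φ ≫ e) h0 ≫ c = 𝟙 _ := by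
    refine uniq_s D _ _ ?_ ?_
    · rw [h1, Category.id_comp]
    · rw [Category.assoc, c_t, pullback.lift_snd_assoc, Category.assoc, e_t, Category.comp_id,
        Category.id_comp]
  have e1 : pullback.lift g (g ≫ tR f U φ ≫ e) h = g ≫ pullback.lift (𝟙 _) (tR f U φ ≫ e) h0 := by
    apply pullback.hom_ext
    · rw [pullback.lift_fst, Category.assoc, pullback.lift_fst, Category.comp_id]
    · rw [pullback.lift_snd, Category.assoc, pullback.lift_snd]
  rw [e1, Category.assoc, key, Category.comp_id]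

theorem ax_mul_inv (D : IsGData f U φ) (e_s : e ≫ sR f U φ = 𝟙 T) (e_t : e ≫ tR f U φ = 𝟙 T)
    (i_s : i ≫ sR f U φ = tR f U φ) (i_t : i ≫ tR f U φ = sR f U φ)
    (c_s : c ≫ sR f U φ = pullback.fst _ _ ≫ sR f U φ)
    (c_t : c ≫ tR f U φ = pullback.snd _ _ ≫ tR f U φ) {Y : Scheme.{u}} (g : Y ⟶ RR f U φ)
    (h : g ≫ tR f U φ = (g ≫ i) ≫ sR f U φ) :
    pullback.lift g (g ≫ i) h ≫ c = g ≫ sR f U φ ≫ e := by
  have := flat_sR D
  have h0 : 𝟙 _ ≫ tR f U φ = i ≫ sR f U φ := by rw [i_s, Category.id_comp]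
  have h1 : (pullback.lift (𝟙 _) i h0 ≫ c) ≫ sR f U φ = sR f U φ := by
    rw [Category.assoc, c_s, pullback.lift_fst_assoc, Category.id_comp]
  have : Flat ((pullback.lift (𝟙 _) i h0 ≫ c) ≫ sR f U φ) := by
    rw [h1]; infer_instance
  have key : pullback.lift (𝟙 _) i h0 ≫ c = sR f U φ ≫ e := by
    refine uniq_s D _ _ ?_ ?_
    · rw [h1, Category.assoc, e_s, Category.comp_id]
    · rw [Category.assoc, c_t, pullback.lift_snd_assoc, i_t, Category.assoc, e_t,
        Category.comp_id]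
  have e1 : pullback.lift g (g ≫ i) h = g ≫ pullback.lift (𝟙 _) i h0 := by
    apply pullback.hom_ext
    · rw [pullback.lift_fst, Category.assoc, pullback.lift_fst, Category.comp_id]
    · rw [pullback.lift_snd, Category.assoc, pullback.lift_snd]
  rw [e1, Category.assoc, key]

theorem flat_tR (D : IsGData f U φ) (i_s : i ≫ sR f U φ = tR f U φ)
    (i_t : i ≫ tR f U φ = sR f U φ) : i ≫ i = 𝟙 _ := by
  have := flat_sR D
  have h1 : (i ≫ i) ≫ sR f U φ = sR f U φ := by rw [Category.assoc, i_s, i_t]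
  have : Flat ((i ≫ i) ≫ sR f U φ) := by rw [h1]; infer_instance
  refine uniq_s D _ _ ?_ ?_
  · rw [h1, Category.id_comp]
  · rw [Category.assoc, i_t, i_s, Category.id_comp]

theorem ax_inv_mul (D : IsGData f U φ) (e_s : e ≫ sR f U φ = 𝟙 T) (e_t : e ≫ tR f U φ = 𝟙 T)
    (i_s : i ≫ sR f U φ = tR f U φ) (i_t : i ≫ tR f U φ = sR f U φ)
    (c_s : c ≫ sR f U φ = pullback.fst _ _ ≫ sR f U φ)
    (c_t : c ≫ tR f U φ = pullback.snd _ _ ≫ tR f U φ) {Y : Scheme.{u}} (g : Y ⟶ RR f U φ)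
    (h : (g ≫ i) ≫ tR f U φ = g ≫ sR f U φ) :
    pullback.lift (g ≫ i) g h ≫ c = g ≫ tR f U φ ≫ e := by
  have hi := flat_tR D i_s i_t
  have h2 := ax_mul_inv D e_s e_t i_s i_t c_s c_t (g ≫ i) (by
    rw [h, Category.assoc, Category.assoc, i_s, i_t])
  have h3 : (g ≫ i) ≫ i = g := by rw [Category.assoc, hi, Category.comp_id]
  have e1 : pullback.lift (g ≫ i) g h = pullback.lift (g ≫ i) ((g ≫ i) ≫ i) (by rw [h3, h]) := by
    congr 1
    exact h3.symm
  rw [e1, h2, Category.assoc, ← Category.assoc i, i_s]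

theorem ax_assoc (D : IsGData f U φ)
    (c_s : c ≫ sR f U φ = pullback.fst _ _ ≫ sR f U φ)
    (c_t : c ≫ tR f U φ = pullback.snd _ _ ≫ tR f U φ) {Y : Scheme.{u}} (g h k : Y ⟶ RR f U φ)
    (hgh : g ≫ tR f U φ = h ≫ sR f U φ) (hhk : h ≫ tR f U φ = k ≫ sR f U φ)
    (h1 : (pullback.lift g h hgh ≫ c) ≫ tR f U φ = k ≫ sR f U φ)
    (h2 : g ≫ tR f U φ = (pullback.lift h k hhk ≫ c) ≫ sR f U φ) :
    pullback.lift (pullback.lift g h hgh ≫ c) k h1 ≫ c =
      pullback.lift g (pullback.lift h k hhk ≫ c) h2 ≫ c := by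
  have := flat_sR D
  let P2 := pullback (tR f U φ) (sR f U φ)
  let q₁ : P2 ⟶ RR f U φ := pullback.fst _ _
  let q₂ : P2 ⟶ RR f U φ := pullback.snd _ _
  let P3 := pullback (q₂ ≫ tR f U φ) (sR f U φ)
  let r₁ : P3 ⟶ P2 := pullback.fst _ _
  let g' : P3 ⟶ RR f U φ := r₁ ≫ q₁
  let h' : P3 ⟶ RR f U φ := r₁ ≫ q₂
  let k' : P3 ⟶ RR f U φ := pullback.snd _ _
  have hgh' : g' ≫ tR f U φ = h' ≫ sR f U φ := by
    simp only [g', h', Category.assoc]
    rw [pullback.condition]
  have hhk' : h' ≫ tR f U φ = k' ≫ sR f U φ := by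
    simp only [h', k', Category.assoc]
    exact pullback.condition
  have h1' : (pullback.lift g' h' hgh' ≫ c) ≫ tR f U φ = k' ≫ sR f U φ := by
    rw [Category.assoc, c_t, pullback.lift_snd_assoc, hhk']
  have h2' : g' ≫ tR f U φ = (pullback.lift h' k' hhk' ≫ c) ≫ sR f U φ := by
    rw [Category.assoc (pullback.lift h' k' hhk'), c_s, pullback.lift_fst_assoc, hgh']
  have hs : (pullback.lift (pullback.lift g' h' hgh' ≫ c) k' h1' ≫ c) ≫ sR f U φ =
      g' ≫ sR f U φ := by
    rw [Category.assoc, c_s, pullback.lift_fst_assoc, Category.assoc, c_s,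
      pullback.lift_fst_assoc]
  have : Flat ((pullback.lift (pullback.lift g' h' hgh' ≫ c) k' h1' ≫ c) ≫ sR f U φ) := by
    rw [hs]
    infer_instance
  have key : pullback.lift (pullback.lift g' h' hgh' ≫ c) k' h1' ≫ c =
      pullback.lift g' (pullback.lift h' k' hhk' ≫ c) h2' ≫ c := by
    refine uniq_s D _ _ ?_ ?_
    · rw [hs, Category.assoc (pullback.lift g' _ _), c_s, pullback.lift_fst_assoc]
    · rw [Category.assoc, c_t, pullback.lift_snd_assoc, Category.assoc, c_t,
        pullback.lift_snd_assoc, Category.assoc, c_t, pullback.lift_snd_assoc]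
  have hτ : pullback.lift g h hgh ≫ q₂ ≫ tR f U φ = k ≫ sR f U φ := by
    rw [pullback.lift_snd_assoc, hhk]
  let τ : Y ⟶ P3 := pullback.lift (pullback.lift g h hgh) k hτ
  have t1 : τ ≫ g' = g := by
    simp only [τ, g', r₁, q₁]
    rw [pullback.lift_fst_assoc, pullback.lift_fst]
  have t2 : τ ≫ h' = h := by
    simp only [τ, h', r₁, q₂]
    rw [pullback.lift_fst_assoc, pullback.lift_snd]
  have t3 : τ ≫ k' = k := pullback.lift_snd _ _ _
  have e1 : pullback.lift (pullback.lift g h hgh ≫ c) k h1 =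
      τ ≫ pullback.lift (pullback.lift g' h' hgh' ≫ c) k' h1' := by
    apply pullback.hom_ext
    · rw [pullback.lift_fst, Category.assoc, pullback.lift_fst, ← Category.assoc]
      congr 1
      apply pullback.hom_ext
      · rw [pullback.lift_fst, Category.assoc, pullback.lift_fst, t1]
      · rw [pullback.lift_snd, Category.assoc, pullback.lift_snd, t2]
    · rw [pullback.lift_snd, Category.assoc, pullback.lift_snd, t3]
  have e2 : pullback.lift g (pullback.lift h k hhk ≫ c) h2 =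
      τ ≫ pullback.lift g' (pullback.lift h' k' hhk' ≫ c) h2' := by
    apply pullback.hom_ext
    · rw [pullback.lift_fst, Category.assoc, pullback.lift_fst, t1]
    · rw [pullback.lift_snd, Category.assoc, pullback.lift_snd, ← Category.assoc]
      congr 1
      apply pullback.hom_ext
      · rw [pullback.lift_fst, Category.assoc, pullback.lift_fst, t2]
      · rw [pullback.lift_snd, Category.assoc, pullback.lift_snd, t3]
  rw [e1, e2, Category.assoc, Category.assoc, key]

end axioms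

end ops

/-- The groupoid scheme of gluing data. -/
noncomputable def IsGData.gpd {f : T ⟶ S} {U : T.Opens} {φ : W ⟶ pullback f f}
    (D : IsGData f U φ) : SchemeGroupoid S :=
  have := D.opn
  have hflat := flat_sR D
  { Y := T
    f := f
    R := RR f U φ
    s := sR f U φ
    t := tR f U φ
    s_f := sR_tR f U φ
    e := (exists_one D).choose
    inv := (exists_inv D).choose
    mul := (exists_mul D).choose
    e_s := (exists_one D).choose_spec.1
    e_t := (exists_one D).choose_spec.2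
    inv_s := (exists_inv D).choose_spec.1
    inv_t := (exists_inv D).choose_spec.2
    mul_s := (exists_mul D).choose_spec.1
    mul_t := (exists_mul D).choose_spec.2
    one_mul := fun g => ax_one_mul D (exists_one D).choose_spec.1 (exists_one D).choose_spec.2
      (exists_mul D).choose_spec.1 (exists_mul D).choose_spec.2 g _
    mul_one := fun g => ax_mul_one D (exists_one D).choose_spec.1 (exists_one D).choose_spec.2
      (exists_mul D).choose_spec.1 (exists_mul D).choose_spec.2 g _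
    mul_inv' := fun g => ax_mul_inv D (exists_one D).choose_spec.1 (exists_one D).choose_spec.2
      (exists_inv D).choose_spec.1 (exists_inv D).choose_spec.2
      (exists_mul D).choose_spec.1 (exists_mul D).choose_spec.2 g _
    inv_mul' := fun g => ax_inv_mul D (exists_one D).choose_spec.1 (exists_one D).choose_spec.2
      (exists_inv D).choose_spec.1 (exists_inv D).choose_spec.2
      (exists_mul D).choose_spec.1 (exists_mul D).choose_spec.2 g _
    assoc := fun g h k hgh hhk => ax_assoc D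
      (exists_mul D).choose_spec.1 (exists_mul D).choose_spec.2 g h k hgh hhk _ _ }

end Pool.Agent.AFP
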