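/-
MP_911691_ag, module R-STAB: stabilisers of field points are affine; the source fibre of a field
point of `U` is the base change of `U`.
-/
import Pool.Agent.AFP.RUniq

set_option linter.all false

open CategoryTheory Limits AlgebraicGeometry

universe u

namespace Pool.Agent.AFP

/-- a pullback square whose second projection factors through a monomorphism `j` -/
theorem isPullback_of_factor {C : Type*} [Category C] {P X Y Z Y' : C} {a : P ⟶ X} {b : P ⟶ Y}
    {c : X ⟶ Z} {d : Y ⟶ Z} (H : IsPullback a b c d) (j : Y' ⟶ Y) [Mono j] (l : P ⟶ Y')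
    (hl : l ≫ j = b) : IsPullback a l c (j ≫ d) := by
  have hw : a ≫ c = l ≫ j ≫ d := by rw [← Category.assoc, hl]; exact H.w
  refine ⟨⟨hw⟩, ⟨PullbackCone.IsLimit.mk hw (fun s => H.lift s.fst (s.snd ≫ j) ?_) ?_ ?_ ?_⟩⟩
  · rw [s.condition, Category.assoc]
  · intro s
    exact H.lift_fst _ _ _
  · intro s
    rw [← cancel_mono j, Category.assoc, hl]
    exact H.lift_snd _ _ _
  · intro s m h1 h2
    apply H.hom_ext
    · rw [H.lift_fst, h1]
    · rw [H.lift_snd, ← hl, ← Category.assoc, h2]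

variable {S T W : Scheme.{u}} (f : T ⟶ S) (U : T.Opens) (φ : W ⟶ pullback f f)
variable [IsOpenImmersion (φ ∣_ UU f U)]

/-- factorisation through an open immersion -/
theorem exists_factor {X Y Z : Scheme.{u}} (j : Y ⟶ Z) [IsOpenImmersion j] (b : X ⟶ Z)
    (h : ∀ x : X, ∃ y : Y, j y = b x) : ∃ l : X ⟶ Y, l ≫ j = b := by
  have hr : Set.range b ⊆ Set.range j := by
    rintro _ ⟨x, rfl⟩
    exact h x
  exact ⟨IsOpenImmersion.lift j b hr, IsOpenImmersion.lift_fac j b hr⟩

theorem stab_affine (D : IsGData f U φ) (K : Type u) [Field K]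
    (y : Spec (.of K) ⟶ pullback f f) : IsAffine (pullback y (psi f U φ)) := by
  have h1 := D.affS
  have h2 := D.affT
  have h3 := D.affW
  by_cases hy : ∀ p, y p ∈ UU f U
  · obtain ⟨y', rfl⟩ := exists_factor (UU f U).ι y (fun p => ⟨⟨y p, hy p⟩, rfl⟩)
    have H1 : IsPullback y' (𝟙 (Spec (.of K))) (𝟙 _) y' := IsPullback.of_id_snd
    have H2 := (psi_isPullback f U φ).flip
    have H := (H1.paste_horiz H2).flip
    exact .of_isIso (H.isoPullback.inv)
  · push Not at hy
    obtain ⟨p0, hp0⟩ := hy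
    have hp : ∀ p, y p ∉ UU f U := by
      intro p
      rw [Subsingleton.elim (α := PrimeSpectrum K) p p0]
      exact hp0
    obtain ⟨l, hl⟩ := exists_factor (jW f U φ) (pullback.snd y (psi f U φ)) (by
      intro z
      rcases j_cover f U φ (pullback.snd y (psi f U φ) z) with h | ⟨x, hx⟩
      · exact h
      · exfalso
        apply hp (pullback.fst y (psi f U φ) z)
        rw [← Scheme.Hom.comp_apply, pullback.condition, Scheme.Hom.comp_apply, ← hx,
          ← Scheme.Hom.comp_apply, jU_psi]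
        exact x.2)
    have H := isPullback_of_factor (IsPullback.of_hasPullback y (psi f U φ)) (jW f U φ) l hl
    rw [jW_psi] at H
    exact .of_isIso (H.isoPullback.hom)

theorem fibre_iso (D : IsGData f U φ) (K : Type u) [Field K] (x : Spec (.of K) ⟶ T)
    (hx : ∀ p, x p ∈ U) :
    Nonempty (pullback x (psi f U φ ≫ pullback.fst f f) ≅ pullback (x ≫ f) (U.ι ≫ f)) := by
  -- the second projection lands in `U × U`
  obtain ⟨l, hl⟩ := exists_factor (jU f U φ)
    (pullback.snd x (psi f U φ ≫ pullback.fst f f)) (by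
      intro z
      have hz : (psi f U φ ≫ pullback.fst f f)
          (pullback.snd x (psi f U φ ≫ pullback.fst f f) z) ∈ U := by
        rw [← Scheme.Hom.comp_apply, ← pullback.condition, Scheme.Hom.comp_apply]
        exact hx _
      rcases j_cover f U φ (pullback.snd x (psi f U φ ≫ pullback.fst f f) z) with ⟨w, hw⟩ | h
      · rw [← hw, ← Scheme.Hom.comp_apply, jW_psi_assoc] at hz
        have hw' : w ∈ (φ ≫ pullback.fst f f) ⁻¹ᵁ U := hz
        rw [D.pre1] at hw'
        refine ⟨(φ ∣_ UU f U) ⟨w, hw'⟩, ?_⟩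
        rw [← hw]
        exact (congrArg (fun k : (φ ⁻¹ᵁ UU f U).toScheme ⟶ RR f U φ => k ⟨w, hw'⟩)
          (j_cond f U φ)).symm
      · exact h)
  have H1 := isPullback_of_factor
    (IsPullback.of_hasPullback x (psi f U φ ≫ pullback.fst f f)) (jU f U φ) l hl
  rw [jU_psi_assoc] at H1
  -- the projection `U × U ⟶ U`
  obtain ⟨m, hm⟩ := exists_factor U.ι ((UU f U).ι ≫ pullback.snd f f) (fun z => ⟨⟨_, z.2.2⟩, rfl⟩)
  have hw : pullback.fst x (psi f U φ ≫ pullback.fst f f) ≫ x ≫ f = (l ≫ m) ≫ U.ι ≫ f := by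
    rw [Category.assoc, reassoc_of% hm, ← pullback.condition, ← Category.assoc, H1.w]
    simp only [Category.assoc]
  have H2 : IsPullback (pullback.fst x (psi f U φ ≫ pullback.fst f f)) (l ≫ m) (x ≫ f)
      (U.ι ≫ f) := by
    have hs : ∀ s : PullbackCone (x ≫ f) (U.ι ≫ f), ∃ k : s.pt ⟶ (UU f U).toScheme,
        k ≫ (UU f U).ι ≫ pullback.fst f f = s.fst ≫ x ∧ k ≫ m = s.snd := by
      intro s
      have hc : (s.fst ≫ x) ≫ f = (s.snd ≫ U.ι) ≫ f := by
        simpa only [Category.assoc] using s.condition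
      obtain ⟨k, hk⟩ := exists_factor (UU f U).ι (pullback.lift (s.fst ≫ x) (s.snd ≫ U.ι) hc) (by
        intro z
        refine ⟨⟨_, ?_, ?_⟩, rfl⟩
        · change (pullback.lift (s.fst ≫ x) (s.snd ≫ U.ι) hc ≫ pullback.fst f f) z ∈ U
          rw [pullback.lift_fst]
          exact hx _
        · change (pullback.lift (s.fst ≫ x) (s.snd ≫ U.ι) hc ≫ pullback.snd f f) z ∈ U
          rw [pullback.lift_snd]
          exact (s.snd z).2)
      refine ⟨k, ?_, ?_⟩
      · rw [reassoc_of% hk, pullback.lift_fst]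
      · rw [← cancel_mono U.ι, Category.assoc, hm, reassoc_of% hk, pullback.lift_snd]
    choose k hk1 hk2 using hs
    refine ⟨⟨hw⟩, ⟨PullbackCone.IsLimit.mk hw (fun s => H1.lift s.fst (k s) (hk1 s).symm)
      ?_ ?_ ?_⟩⟩
    · intro s
      exact H1.lift_fst _ _ _
    · intro s
      rw [H1.lift_snd_assoc, hk2]
    · intro s n h1 h2
      apply H1.hom_ext
      · rw [H1.lift_fst, h1]
      · rw [H1.lift_snd, ← cancel_mono (UU f U).ι]
        apply pullback.hom_ext
        · rw [Category.assoc, Category.assoc, ← H1.w, reassoc_of% h1, Category.assoc, hk1]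
        · have e : (n ≫ l ≫ m) ≫ U.ι = (k s ≫ m) ≫ U.ι := by rw [h2, hk2]
          simp only [Category.assoc, hm] at e ⊢
          exact e
  exact ⟨H2.isoPullback⟩

end Pool.Agent.AFP
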