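/-
MP_911691_ag, module FINAL: assembly of the groupoid form.
-/
import Pool.Agent.AFP.RGpd
import Pool.Agent.AFP.RStab
import Pool.Agent.AFP.Comp

attribute [local instance] Pool.Agent.AFP.instCommRingAW Pool.Agent.AFP.instAlgebraZModAW
  Pool.Agent.AFP.instAlgebraB2AW

set_option linter.all false

open CategoryTheory Limits AlgebraicGeometry

namespace Pool.Agent.AFP

theorem open_phi_inst : IsOpenImmersion (phi ∣_ UU fT UT) := open_phi

attribute [local instance] open_phi_inst

theorem comp_model (σ τ : WS ⟶ TS) (hσ : σ = srcS) (hτ : τ = tgtS) (y : ↥(pullback τ σ))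
    (hy : (pullback.fst τ σ ≫ τ) y ∉ UT) :
    ∃ V : (pullback τ σ).Opens, y ∈ V ∧ ∃ l : V.toScheme ⟶ WS,
      l ≫ σ = V.ι ≫ pullback.fst τ σ ≫ σ ∧ l ≫ τ = V.ι ≫ pullback.snd τ σ ≫ τ := by
  subst hσ hτ
  exact comp_local y hy

theorem model : IsGData fT UT phi where
  affS := inferInstance
  affT := inferInstance
  affW := inferInstance
  qcU := qcU
  domU := domU
  smU := smU
  opn := open_phi
  pre1 := pre1_phi
  pre2 := pre2_phi
  smW := by rw [phi_fst]; exact smW
  one := ⟨oneS, by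
    apply pullback.hom_ext
    · rw [Category.assoc, phi_fst, oneS_src, pullback.lift_fst]
    · rw [Category.assoc, phi_snd, oneS_tgt, pullback.lift_snd]⟩
  inv := ⟨swS, swS_swS, by
    apply pullback.hom_ext
    · rw [Category.assoc, phi_fst, swS_src, Category.assoc, pullback.lift_fst, phi_snd]
    · rw [Category.assoc, phi_snd, swS_tgt, Category.assoc, pullback.lift_snd, phi_fst]⟩
  comp := fun y hy => comp_model _ _ phi_fst phi_snd y hy

/-- the groupoid -/
noncomputable def gpd : SchemeGroupoid S2 := model.gpd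

theorem gpd_st : gpd.st = psi fT UT phi := lift_sR_tR fT UT phi

/-- the point `(s,x,z,c,r) = (1,0,0,1,1)` -/
def pt0 : Pt (ZMod 2) where
  s := 1
  x := 0
  z := 0
  c := 1
  r := 1
  ri := 1
  hr := by decide
  h1 := by decide
  h2 := by decide

noncomputable def x0 : S2 ⟶ TS := Spec.map (CommRingCat.ofHom (B.lift pt0))

theorem x0_mem (p : S2) : x0 p ∈ UT := by
  left
  change B.univ.s ∉ (PrimeSpectrum.comap (B.lift pt0) p).asIdeal
  intro h
  have h1 : B.lift pt0 B.univ.s ∈ p.asIdeal := h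
  have h2 : B.lift pt0 B.univ.s = 1 := congrArg Pt.s (B.univ_map_lift pt0)
  rw [h2] at h1
  exact p.2.ne_top ((Ideal.eq_top_iff_one _).2 h1)

theorem x0_fT : x0 ≫ fT = 𝟙 S2 := by
  rw [x0, fT, ← Spec.map_comp, ← Spec.map_id]
  congr 1
  ext x
  exact congrArg (fun k : ZMod 2 →+* ZMod 2 => k x) (B2.zmod_hom_ext _ _)

theorem x0_fibre : ¬ IsAffine (pullback x0 gpd.s) := by
  intro h
  obtain ⟨e⟩ := fibre_iso fT UT phi model (ZMod 2) x0 x0_mem
  have h0 : IsAffine (pullback x0 (psi fT UT phi ≫ pullback.fst fT fT)) := h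
  have h1 : IsAffine (pullback (x0 ≫ fT) (UT.ι ≫ fT)) := IsAffine.of_isIso e.inv
  have : IsIso (x0 ≫ fT) := by rw [x0_fT]; infer_instance
  have h2 : IsAffine UT.toScheme :=
    IsAffine.of_isIso (inv (pullback.snd (x0 ≫ fT) (UT.ι ≫ fT)))
  exact not_affine_U h2

theorem gpd_smooth_s : Smooth gpd.s := psi_fst_smooth fT UT phi model

theorem gpd_smooth_t : Smooth gpd.t := by
  have h := gpd_smooth_s
  have hi : gpd.inv ≫ gpd.inv = 𝟙 _ := flat_tR model (i := gpd.inv) gpd.inv_s gpd.inv_t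
  have : IsIso gpd.inv := ⟨gpd.inv, hi, hi⟩
  rw [← gpd.inv_s]
  infer_instance

theorem gpd_sep : IsSeparated gpd.st := by
  rw [gpd_st]; exact psi_sep fT UT phi model

theorem gpd_qc : QuasiCompact gpd.st := by
  rw [gpd_st]; exact psi_qc fT UT phi model

theorem gpd_affine : IsAffine gpd.Y := inferInstanceAs (IsAffine TS)

theorem gpd_stab (K : Type) [Field K] (y : Spec (.of K) ⟶ gpd.Y) :
    IsAffine (pullback (pullback.lift y y rfl) gpd.st) := by
  rw [gpd_st]
  exact stab_affine fT UT phi model K _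

theorem B_finiteType : Algebra.FiniteType (ZMod 2) B :=
  inferInstanceAs (Algebra.FiniteType (ZMod 2) (MvPolynomial (Fin 6) (ZMod 2) ⧸ Ideal.span (Set.range relB)))

theorem gpd_ft : LocallyOfFiniteType gpd.f := by
  change LocallyOfFiniteType fT
  rw [fT, HasRingHomProperty.Spec_iff (P := @LocallyOfFiniteType)]
  exact (RingHom.finiteType_algebraMap (A := ZMod 2) (B := B)).2 B_finiteType

end Pool.Agent.AFP
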