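/-
MP_911691_ag: from groupoid schemes over `Spec F_2` to internal groupoids in schemes
(absolute products).
-/
import Pool.Agent.AFP.Final
import Pool.Agent.Stk90.Gpd

attribute [local instance] Pool.Agent.AFP.instCommRingAW Pool.Agent.AFP.instAlgebraZModAW
  Pool.Agent.AFP.instAlgebraB2AW

set_option linter.all false

open CategoryTheory Limits AlgebraicGeometry

universe u

namespace Pool.Agent.AFP

/-- the internal groupoid in the category of schemes -/
noncomputable def SchemeGroupoid.toInt {S : Scheme.{u}} (G : SchemeGroupoid S) :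
    Stk90.IntGroupoid Scheme.{u} where
  U := G.Y
  R := G.R
  s := G.s
  t := G.t
  e := G.e
  inv := G.inv
  comp := fun g h w => pullback.lift g h w ≫ G.mul
  comp_nat := by
    intro T T' k g h w
    rw [← Category.assoc]
    congr 1
    apply pullback.hom_ext
    · rw [Category.assoc, pullback.lift_fst, pullback.lift_fst]
    · rw [Category.assoc, pullback.lift_snd, pullback.lift_snd]
  e_s := G.e_s
  e_t := G.e_t
  inv_s := G.inv_s
  inv_t := G.inv_t
  comp_s := by
    intro T g h w
    rw [Category.assoc, G.mul_s, pullback.lift_fst_assoc]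
  comp_t := by
    intro T g h w
    rw [Category.assoc, G.mul_t, pullback.lift_snd_assoc]
  assoc := fun g h k w w' => G.assoc g h k w w'
  id_comp := fun g => G.one_mul g
  comp_id := fun g => G.mul_one g
  inv_comp := fun g => G.inv_mul' g
  comp_inv := fun g => G.mul_inv' g

theorem hom_S2_ext {T : Scheme.{0}} (g h : T ⟶ S2) : g = h := by
  apply ext_of_isAffine
  rw [← cancel_epi (Scheme.ΓSpecIso (CommRingCat.of (ZMod 2))).inv]
  ext x
  exact congrArg (fun k : ZMod 2 →+* Γ(T, ⊤) => k x) (B2.zmod_hom_ext _ _)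

/-- `Y ×_{F_2} Y = Y × Y` -/
noncomputable def prodIso {Y : Scheme.{0}} (f : Y ⟶ S2) : pullback f f ≅ Y ⨯ Y where
  hom := prod.lift (pullback.fst f f) (pullback.snd f f)
  inv := pullback.lift prod.fst prod.snd (hom_S2_ext _ _)
  hom_inv_id := by
    apply pullback.hom_ext
    · rw [Category.assoc, pullback.lift_fst, prod.lift_fst, Category.id_comp]
    · rw [Category.assoc, pullback.lift_snd, prod.lift_snd, Category.id_comp]
  inv_hom_id := by
    apply Limits.prod.hom_ext
    · rw [Category.assoc, prod.lift_fst, pullback.lift_fst, Category.id_comp]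
    · rw [Category.assoc, prod.lift_snd, pullback.lift_snd, Category.id_comp]

theorem lift_prodIso {Y T : Scheme.{0}} (f : Y ⟶ S2) (g h : T ⟶ Y) (w : g ≫ f = h ≫ f) :
    pullback.lift g h w ≫ (prodIso f).hom = prod.lift g h := by
  apply Limits.prod.hom_ext
  · rw [Category.assoc, prodIso, prod.lift_fst, pullback.lift_fst, prod.lift_fst]
  · rw [Category.assoc, prodIso, prod.lift_snd, pullback.lift_snd, prod.lift_snd]

namespace SchemeGroupoid

variable (G : SchemeGroupoid S2)

theorem prod_lift_eq : prod.lift G.s G.t = G.st ≫ (prodIso G.f).hom :=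
  (lift_prodIso G.f G.s G.t G.s_f).symm

theorem prod_sep [IsSeparated G.st] : IsSeparated (prod.lift G.s G.t) := by
  rw [prod_lift_eq]; infer_instance

theorem prod_qc [QuasiCompact G.st] : QuasiCompact (prod.lift G.s G.t) := by
  rw [prod_lift_eq]; infer_instance

theorem prod_affine {T : Scheme.{0}} (y : T ⟶ pullback G.f G.f) [IsAffine (pullback y G.st)]
    {y' : T ⟶ G.Y ⨯ G.Y} (h : y' = y ≫ (prodIso G.f).hom) :
    IsAffine (pullback y' (prod.lift G.s G.t)) := by
  subst h
  rw [prod_lift_eq]
  have e : pullback y G.st ≅ pullback (y ≫ (prodIso G.f).hom) (G.st ≫ (prodIso G.f).hom) :=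
    asIso (pullback.map _ _ _ _ (𝟙 _) (𝟙 _) (prodIso G.f).hom (by simp) (by simp))
  exact IsAffine.of_isIso e.inv

end SchemeGroupoid

end Pool.Agent.AFP
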