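/-
MP_911691_ag: the explicit gluing data.
-/
import Pool.Agent.AFP.Comp

attribute [local instance] Pool.Agent.AFP.instCommRingAW Pool.Agent.AFP.instAlgebraZModAW
  Pool.Agent.AFP.instAlgebraB2AW

set_option linter.all false

open CategoryTheory Limits AlgebraicGeometry

namespace Pool.Agent.AFP

theorem comp_transport {P T W : Scheme.{0}} (U : T.Opens) (φ : W ⟶ P) (p₁ p₂ : P ⟶ T)
    (s t : W ⟶ T) (hs : φ ≫ p₁ = s) (ht : φ ≫ p₂ = t)
    (H : ∀ y : ↥(pullback t s), (pullback.fst t s ≫ t) y ∉ U →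
      ∃ V : (pullback t s).Opens, y ∈ V ∧ ∃ l : V.toScheme ⟶ W,
        l ≫ s = V.ι ≫ pullback.fst t s ≫ s ∧ l ≫ t = V.ι ≫ pullback.snd t s ≫ t) :
    ∀ y : ↥(pullback (φ ≫ p₂) (φ ≫ p₁)),
    (pullback.fst (φ ≫ p₂) (φ ≫ p₁) ≫ φ ≫ p₂) y ∉ U →
    ∃ V : (pullback (φ ≫ p₂) (φ ≫ p₁)).Opens, y ∈ V ∧
      ∃ l : V.toScheme ⟶ W,
        l ≫ φ ≫ p₁ = V.ι ≫ pullback.fst _ _ ≫ φ ≫ p₁ ∧
        l ≫ φ ≫ p₂ = V.ι ≫ pullback.snd _ _ ≫ φ ≫ p₂ := by
  subst hs
  subst ht
  exact H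

theorem gdata : IsGData fT UT phi where
  affS := inferInstance
  affT := inferInstance
  affW := inferInstance
  qcU := qcU
  domU := domU
  smU := smU
  opn := open_phi
  pre1 := pre1_phi
  pre2 := pre2_phi
  smW := by rw [phi_fst]; exact smW
  one := by
    refine ⟨oneS, ?_⟩
    apply pullback.hom_ext
    · rw [Category.assoc, phi_fst, pullback.lift_fst, oneS_src]
    · rw [Category.assoc, phi_snd, pullback.lift_snd, oneS_tgt]
  inv := by
    refine ⟨swS, swS_swS, ?_⟩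
    apply pullback.hom_ext
    · rw [Category.assoc, Category.assoc, phi_fst, pullback.lift_fst, phi_snd, swS_src]
    · rw [Category.assoc, Category.assoc, phi_snd, pullback.lift_snd, phi_fst, swS_tgt]
  comp := comp_transport UT phi _ _ srcS tgtS phi_fst phi_snd comp_local

end Pool.Agent.AFP
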