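import Mathlib
import Pool.Agent.AFP.GpdDef
import Pool.Agent.AFP.Final

attribute [local instance] Pool.Agent.AFP.open_phi_inst

/-! A smooth groupoid scheme, of finite type over the field with two elements, with affine
stabilisers and separated quasi-compact diagonal, and a field point of the quotient stack which is
not affine. -/

namespace Pool.Agent.AFP.GroupoidForm

open CategoryTheory Limits AlgebraicGeometry Pool.Agent.AFP

/-- There is a groupoid in schemes `R ⇉ Y` over `𝔽₂` with `Y` affine of finite type, `s, t` smooth,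
`(s,t) : R → Y × Y` separated and quasi-compact, all stabilisers of field-valued points of `Y`
affine, and with an `𝔽₂`-point `x` of `Y` such that the fibre product `Spec 𝔽₂ ×_{x,Y,s} R`,
which is `Spec 𝔽₂ ×_{[Y/R]} Y`, is not affine. -/
theorem groupoid_form : ∃ G : SchemeGroupoid (Spec (CommRingCat.of (ZMod 2))),
    IsAffine G.Y ∧ LocallyOfFiniteType G.f ∧ Smooth G.s ∧ Smooth G.t ∧
    IsSeparated G.st ∧ QuasiCompact G.st ∧
    (∀ (K : Type) [Field K] (y : Spec (CommRingCat.of K) ⟶ G.Y),
      IsAffine (pullback (pullback.lift y y rfl) G.st)) ∧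
    ∃ x : Spec (CommRingCat.of (ZMod 2)) ⟶ G.Y, ¬ IsAffine (pullback x G.s) :=
  ⟨gpd, gpd_affine, gpd_ft, gpd_smooth_s, gpd_smooth_t, gpd_sep, gpd_qc,
    fun K _ y => gpd_stab K y, x0, x0_fibre⟩

end Pool.Agent.AFP.GroupoidForm
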