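/-
MP_911691_ag: the `F_2`-point of `U` whose source fibre is not affine; `T` is of finite
presentation over `F_2`.
-/
import Pool.Agent.AFP.Data
import Pool.Agent.AFP.RStab

attribute [local instance] Pool.Agent.AFP.instCommRingAW Pool.Agent.AFP.instAlgebraZModAW
  Pool.Agent.AFP.instAlgebraB2AW

set_option linter.all false

open CategoryTheory Limits AlgebraicGeometry

namespace Pool.Agent.AFP

/-- the point `s = 1, x = 0, z = 0, c = 1, r = 1` -/
@[simps] def pt0 : Pt (ZMod 2) where
  s := 1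
  x := 0
  z := 0
  c := 1
  r := 1
  ri := 1
  hr := by decide
  h1 := by decide
  h2 := by decide

/-- the corresponding `F_2`-point of `T` -/
noncomputable def x0 : S2 ⟶ TS := Spec.map (CommRingCat.ofHom (B.lift pt0))

theorem x0_fT : x0 ≫ fT = 𝟙 S2 := by
  rw [x0, fT, ← Spec.map_comp, ← CommRingCat.ofHom_comp, ← Spec.map_id, ← CommRingCat.ofHom_id]
  congr 2
  exact B2.zmod_hom_ext _ _

theorem x0_mem (p : S2) : x0 p ∈ UT := by
  rw [mem_UT]
  left
  change ¬ (B.lift pt0 B.univ.s ∈ p.asIdeal)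
  have h : B.lift pt0 B.univ.s = 1 := congrArg Pt.s (B.univ_map_lift pt0)
  rw [h]
  exact fun h1 => p.2.ne_top ((Ideal.eq_top_iff_one _).2 h1)

theorem fT_fp : LocallyOfFinitePresentation fT := by
  rw [fT, HasRingHomProperty.Spec_iff (P := @LocallyOfFinitePresentation)]
  exact (RingHom.finitePresentation_algebraMap).2 SmBAux.fpB

theorem fibre_x0_not_affine :
    letI := open_phi
    ¬ IsAffine (pullback x0 (psi fT UT phi ≫ pullback.fst fT fT)) := by
  letI := open_phi
  intro h
  obtain ⟨e⟩ := fibre_iso fT UT phi gdata (ZMod 2) x0 x0_mem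
  have h1 : IsIso (pullback.snd (x0 ≫ fT) (UT.ι ≫ fT)) := by
    have : IsIso (x0 ≫ fT) := by rw [x0_fT]; infer_instance
    infer_instance
  have e' : pullback x0 (psi fT UT phi ≫ pullback.fst fT fT) ≅ UT.toScheme :=
    e ≪≫ asIso (pullback.snd (x0 ≫ fT) (UT.ι ≫ fT))
  exact not_affine_U (.of_isIso e'.inv)

end Pool.Agent.AFP
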